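import Pool.Agent.H46.Bi.Ste

/-!
# [H46 BI BAL] near a point f depends only on the direction (80-120 lines)

rel_self: choose ρ > 0 with ball x0 (10 ρ) ⊆ U and without points of V. Claim: for every
w ∈ ball 0 (2 ρ): for almost every (x, θ) ∈ ball x0 ρ ×ˢ univ
(*) f (x + w e θ, θ) = f (x, θ), where w = s + i D, w e θ = s e θ + D nrm θ.
 D > 0: shift_ae with K = closedBall x0 (3 ρ) (points at distance ≤ D < 2 ρ are in
 ball x0 (10 ρ)) gives f (x + D nrm θ, θ) = f (x, θ) a.e. on K ×ˢ univ, and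
 f (z + s e θ, θ) = f (z, θ) for z and z + s e θ in the ball (convex, Reach.str and Inv; for s < 0
 use it from z + s e θ with time -s).
 D = 0: only the second fact.
 D < 0: the map (x, θ) ↦ (x + w e θ, θ) preserves the measure and sends ball x0 ρ ×ˢ univ into
 closedBall x0 (3 ρ) ×ˢ univ; apply the first case for -w (Im > 0) on closedBall x0 (3 ρ): for a.e.
 (x', θ) there f (x' - w e θ, θ) = f (x', θ); put x' = x + w e θ. (So prove (*) for D > 0 on
 closedBall x0 (3 ρ); there the shifted points stay in ball x0 (10 ρ).)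
By Fubini (the bad set in (x, w, θ) is measurable, f being measurable; Measure.measure_prod_null)
(*) holds for a.e. (x, w, θ) ∈ ball x0 ρ × ball 0 (2 ρ) × Tor. The map (x, w, θ) ↦ (x, x + w e θ, θ)
preserves the measure (for fixed θ and x a rotation and a translation of w:
LinearIsometryEquiv.measurePreserving or measurePreserving_mul_left for a unit complex number,
skew products), maps this set onto {(x, y, θ) | x ∈ ball x0 ρ, y - x ∈ ball 0 (2 ρ)}, which contains
(ball x0 ρ) × (ball x0 ρ) × Tor. So f (y, θ) = f (x, θ) for a.e. (x, y, θ) there.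
(One may use any order of the factors in the intermediate steps; in the end Rel f x0 x0.)
-/

set_option autoImplicit false

open MeasureTheory Metric Set

namespace Pool.H46.Bi

theorem bal_line {U : Set ℂ} {f : ℂ × Tor → ℝ} (hinv : Inv U f) {c : ℂ} {R : ℝ}
    (hR : ball c R ⊆ U) {z : ℂ} {s : ℝ} {θ : Tor} (hz : z ∈ ball c R)
    (hy : z + s * e θ ∈ ball c R) : f (z + s * e θ, θ) = f (z, θ) := by
  have key : ∀ (z : ℂ) (s : ℝ), 0 ≤ s → z ∈ ball c R → z + s * e θ ∈ ball c R →
      f (z + s * e θ, θ) = f (z, θ) := by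
    intro z s hs hz hy
    have hreach : Reach U s Mo.one z θ := by
      refine Reach.str s z θ hs ?_
      intro s' hs'
      apply hR
      have ht : s' / s ∈ Icc (0 : ℝ) 1 := by
        refine ⟨div_nonneg hs'.1 hs, ?_⟩
        exact div_le_one_of_le₀ hs'.2 hs
      have h1 := (convex_ball c R).add_smul_mem hz hy ht
      have h2 : z + (s' / s) • ((s : ℂ) * e θ) = z + s' * e θ := by
        rcases eq_or_lt_of_le hs with h0 | h0
        · have : s' = 0 := by
            have := hs'.2
            rw [← h0] at this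
            exact le_antisymm this hs'.1
          simp [this]
        · rw [Complex.real_smul]
          push_cast
          have : (s : ℂ) ≠ 0 := by exact_mod_cast h0.ne'
          field_simp
      rwa [h2] at h1
    have h3 := hinv s Mo.one z θ hreach
    unfold Phi at h3
    simp only [Mo.one_act, Mo.one_dir] at h3
    exact h3
  rcases le_total 0 s with h0 | h0
  · exact key z s h0 hz hy
  · have h1 := key (z + s * e θ) (-s) (by linarith) hy (by
      have : z + s * e θ + ((-s : ℝ) : ℂ) * e θ = z := by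
        push_cast
        ring
      rwa [this])
    have h2 : z + s * e θ + ((-s : ℝ) : ℂ) * e θ = z := by
      push_cast
      ring
    rw [h2] at h1
    exact h1.symm

/-- the change of variables -/
noncomputable def balPsi (q : ℂ × (ℂ × Tor)) : (ℂ × ℂ) × Tor :=
  ((q.2.1, q.2.1 + e q.2.2 * q.1), q.2.2)

theorem bal_psi_mp : MeasurePreserving balPsi volume volume := by
  have h1 : MeasurePreserving (Prod.swap : ℂ × (ℂ × Tor) → (ℂ × Tor) × ℂ)
      volume volume := Measure.measurePreserving_swap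
  have hg : Measurable (Function.uncurry
      (fun (a : ℂ × Tor) (w : ℂ) => a.1 + e a.2 * w)) := by
    have he : Measurable fun q : (ℂ × Tor) × ℂ => e q.1.2 :=
      e_measurable.comp (measurable_snd.comp measurable_fst)
    exact ((measurable_fst.comp measurable_fst).add (he.mul measurable_snd))
  have h2 : MeasurePreserving
      (fun q : (ℂ × Tor) × ℂ => ((id q.1 : ℂ × Tor), q.1.1 + e q.1.2 * q.2))
      ((volume : Measure (ℂ × Tor)).prod volume) ((volume : Measure (ℂ × Tor)).prod volume) := by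
    refine (MeasurePreserving.id (volume : Measure (ℂ × Tor))).skew_product
      (g := fun (a : ℂ × Tor) (w : ℂ) => a.1 + e a.2 * w) hg ?_
    refine Filter.Eventually.of_forall fun a => ?_
    have h3 : MeasurePreserving (fun w : ℂ => rotation (AddCircle.toCircle a.2) w)
        volume volume := (rotation (AddCircle.toCircle a.2)).measurePreserving
    have h4 : MeasurePreserving (fun w : ℂ => a.1 + w) volume volume :=
      measurePreserving_add_left volume a.1
    have h5 := h4.comp h3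
    have h6 : ((fun w : ℂ => a.1 + w) ∘ fun w : ℂ => rotation (AddCircle.toCircle a.2) w)
        = fun w : ℂ => a.1 + e a.2 * w := by
      funext w
      simp [e, rotation_apply]
    rw [h6] at h5
    exact h5.map_eq
  have h7 : MeasurePreserving (MeasurableEquiv.prodAssoc : (ℂ × Tor) × ℂ ≃ᵐ ℂ × (Tor × ℂ))
      ((volume : Measure (ℂ × Tor)).prod volume) volume :=
    volume_preserving_prodAssoc
  have h8 : MeasurePreserving (Prod.map (id : ℂ → ℂ) (Prod.swap : Tor × ℂ → ℂ × Tor))
      (volume : Measure (ℂ × (Tor × ℂ))) (volume : Measure (ℂ × (ℂ × Tor))) :=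
    (MeasurePreserving.id volume).prod Measure.measurePreserving_swap
  have h9 : MeasurePreserving
      ((MeasurableEquiv.prodAssoc : (ℂ × ℂ) × Tor ≃ᵐ ℂ × (ℂ × Tor)).symm)
      (volume : Measure (ℂ × (ℂ × Tor))) (volume : Measure ((ℂ × ℂ) × Tor)) :=
    (volume_preserving_prodAssoc (α₁ := ℂ) (β₁ := ℂ) (γ₁ := Tor)).symm
      (MeasurableEquiv.prodAssoc : (ℂ × ℂ) × Tor ≃ᵐ ℂ × (ℂ × Tor))
  have h10 := h9.comp (h8.comp (h7.comp (h2.comp h1)))
  exact h10

theorem bal_plus {U : Set ℂ} (hP : Poly U) {f : ℂ × Tor → ℝ} (hf : Measurable f)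
    (hinv : Inv U f) {V : Finset ℂ} (hbv : ∀ r : ℝ, 0 < r → ∃ C : ℝ, BVd U V r C f)
    {x0 : ℂ} {ρ : ℝ} (hρ : 0 < ρ) (hU : ball x0 (10 * ρ) ⊆ U)
    (hVb : ∀ v ∈ V, v ∉ ball x0 (10 * ρ)) :
    (volume : Measure ((ℂ × ℂ) × Tor)) {p | p.1.1 ∈ ball x0 ρ ∧ p.1.2 ∈ ball x0 ρ ∧
      0 < ((p.1.2 - p.1.1) * (starRingEnd ℂ) (e p.2)).im ∧
      f (p.1.1, p.2) ≠ f (p.1.2, p.2)} = 0 := by
  set A : Set ((ℂ × ℂ) × Tor) := {p | p.1.1 ∈ ball x0 ρ ∧ p.1.2 ∈ ball x0 ρ ∧
      0 < ((p.1.2 - p.1.1) * (starRingEnd ℂ) (e p.2)).im ∧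
      f (p.1.1, p.2) ≠ f (p.1.2, p.2)} with hA
  have m1 : Measurable fun p : (ℂ × ℂ) × Tor => p.1.1 := measurable_fst.comp measurable_fst
  have m2 : Measurable fun p : (ℂ × ℂ) × Tor => p.1.2 := measurable_snd.comp measurable_fst
  have m3 : Measurable fun p : (ℂ × ℂ) × Tor => e p.2 := e_measurable.comp measurable_snd
  have hAm : MeasurableSet A := by
    refine (measurableSet_ball.preimage m1).inter ((measurableSet_ball.preimage m2).inter
      (MeasurableSet.inter ?_ ?_))
    · have hm4 : Measurable fun p : (ℂ × ℂ) × Tor =>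
          ((p.1.2 - p.1.1) * (starRingEnd ℂ) (e p.2)).im :=
        Complex.measurable_im.comp ((m2.sub m1).mul
          (Complex.continuous_conj.measurable.comp m3))
      exact measurableSet_lt (measurable_const : Measurable fun _ : (ℂ × ℂ) × Tor => (0 : ℝ)) hm4
    · refine (measurableSet_eq_fun ?_ ?_).compl
      · exact hf.comp (m1.prodMk measurable_snd)
      · exact hf.comp (m2.prodMk measurable_snd)
  rw [← bal_psi_mp.measure_preimage hAm.nullMeasurableSet]
  have hpm : MeasurableSet (balPsi ⁻¹' A) := bal_psi_mp.measurable hAm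
  rw [Measure.volume_eq_prod, Measure.measure_prod_null hpm]
  refine Filter.Eventually.of_forall fun w => ?_
  show volume (Prod.mk w ⁻¹' (balPsi ⁻¹' A)) = 0
  have hmem : ∀ q : ℂ × Tor, q ∈ Prod.mk w ⁻¹' (balPsi ⁻¹' A) →
      q.1 ∈ ball x0 ρ ∧ q.1 + e q.2 * w ∈ ball x0 ρ ∧ 0 < w.im ∧
        f q ≠ f (q.1 + e q.2 * w, q.2) := by
    intro q hq
    obtain ⟨a1, a2, a3, a4⟩ := hq
    refine ⟨a1, a2, ?_, a4⟩
    have : (q.1 + e q.2 * w - q.1) * (starRingEnd ℂ) (e q.2) = w := by
      calc (q.1 + e q.2 * w - q.1) * (starRingEnd ℂ) (e q.2)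
          = w * (e q.2 * (starRingEnd ℂ) (e q.2)) := by ring
        _ = w := by rw [e_mul_conj, mul_one]
    have h := a3
    simp only [balPsi] at h
    rwa [this] at h
  by_cases hw : ‖w‖ < 2 * ρ ∧ 0 < w.im
  · obtain ⟨hw1, hw2⟩ := hw
    have hK := shift_ae hP hf hinv hbv (isCompact_closedBall x0 ρ) hw2 (by
      intro x hx z hz
      have h1 : z ∈ ball x0 (10 * ρ) := by
        rw [mem_ball, dist_eq_norm]
        rw [mem_closedBall, dist_eq_norm] at hx
        have h2 : w.im ≤ ‖w‖ := (le_abs_self _).trans (Complex.abs_im_le_norm w)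
        calc ‖z - x0‖ = ‖(z - x) + (x - x0)‖ := by congr 1; ring
          _ ≤ ‖z - x‖ + ‖x - x0‖ := norm_add_le _ _
          _ < 10 * ρ := by linarith
      exact ⟨hU h1, fun hv => hVb z hv h1⟩)
    rw [ae_restrict_iff' (measurableSet_closedBall.prod MeasurableSet.univ)] at hK
    have hK0 := ae_iff.mp hK
    refine measure_mono_null ?_ hK0
    intro q hq
    obtain ⟨a1, a2, a3, a4⟩ := hmem q hq
    rw [mem_ofPred_eq, Classical.not_imp]
    refine ⟨⟨ball_subset_closedBall a1, mem_univ _⟩, ?_⟩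
    intro hcon
    apply a4
    have hz : q.1 + (w.im : ℂ) * nrm q.2 ∈ ball x0 (10 * ρ) := by
      rw [mem_ball, dist_eq_norm] at a1 ⊢
      have h2 : |w.im| ≤ ‖w‖ := Complex.abs_im_le_norm w
      have h3 : ‖(w.im : ℂ) * nrm q.2‖ = |w.im| := by
        unfold nrm
        rw [norm_mul, norm_mul, norm_e, Complex.norm_I, Complex.norm_real, Real.norm_eq_abs]
        ring
      calc ‖q.1 + (w.im : ℂ) * nrm q.2 - x0‖ = ‖(q.1 - x0) + (w.im : ℂ) * nrm q.2‖ := by
            congr 1; ring
        _ ≤ ‖q.1 - x0‖ + ‖(w.im : ℂ) * nrm q.2‖ := norm_add_le _ _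
        _ < 10 * ρ := by rw [h3]; linarith
    have hsum : q.1 + (w.im : ℂ) * nrm q.2 + (w.re : ℂ) * e q.2 = q.1 + e q.2 * w := by
      unfold nrm
      conv_rhs => rw [← Complex.re_add_im w]
      ring
    have hy : q.1 + (w.im : ℂ) * nrm q.2 + (w.re : ℂ) * e q.2 ∈ ball x0 (10 * ρ) := by
      rw [hsum]
      exact ball_subset_ball (by linarith) a2
    have h4 := bal_line hinv hU hz hy
    rw [hsum, hcon] at h4
    exact h4.symm
  · have hempty : Prod.mk w ⁻¹' (balPsi ⁻¹' A) = ∅ := by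
      rw [Set.eq_empty_iff_forall_notMem]
      intro q hq
      obtain ⟨a1, a2, a3, a4⟩ := hmem q hq
      apply hw
      refine ⟨?_, a3⟩
      rw [mem_ball, dist_eq_norm] at a1 a2
      calc ‖w‖ = ‖e q.2 * w‖ := by rw [norm_mul, norm_e, one_mul]
        _ = ‖(q.1 + e q.2 * w - x0) - (q.1 - x0)‖ := by congr 1; ring
        _ ≤ ‖q.1 + e q.2 * w - x0‖ + ‖q.1 - x0‖ := norm_sub_le _ _
        _ < 2 * ρ := by linarith
    rw [hempty, measure_empty]

theorem rel_self {U : Set ℂ} (hP : Poly U) {f : ℂ × Tor → ℝ} (hf : Measurable f)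
    (hinv : Inv U f) {V : Finset ℂ} (hbv : ∀ r : ℝ, 0 < r → ∃ C : ℝ, BVd U V r C f)
    {x0 : ℂ} (hx0 : x0 ∈ U) (hV : x0 ∉ V) : Rel f x0 x0 := by
  obtain ⟨r1, hr1, hb1⟩ := Metric.isOpen_iff.mp hP.isOpen x0 hx0
  have hVc : IsOpen ((V : Set ℂ)ᶜ) := V.finite_toSet.isClosed.isOpen_compl
  obtain ⟨r2, hr2, hb2⟩ := Metric.isOpen_iff.mp hVc x0 (by simpa using hV)
  set ρ : ℝ := min r1 r2 / 10 with hρd
  have hρ : 0 < ρ := by
    have := lt_min hr1 hr2
    rw [hρd]
    linarith
  have h10 : 10 * ρ = min r1 r2 := by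
    rw [hρd]
    ring
  have hU : ball x0 (10 * ρ) ⊆ U := by
    rw [h10]
    exact (ball_subset_ball (min_le_left _ _)).trans hb1
  have hVb : ∀ v ∈ V, v ∉ ball x0 (10 * ρ) := by
    intro v hv hvb
    rw [h10] at hvb
    exact hb2 (ball_subset_ball (min_le_right _ _) hvb) hv
  have hplus := bal_plus hP hf hinv hbv hρ hU hVb
  rw [measure_eq_zero_iff_ae_notMem] at hplus
  have hswap : MeasurePreserving (Prod.map (Prod.swap : ℂ × ℂ → ℂ × ℂ) (id : Tor → Tor))
      (volume : Measure ((ℂ × ℂ) × Tor)) volume :=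
    (Measure.measurePreserving_swap).prod (MeasurePreserving.id volume)
  have hminus := hswap.quasiMeasurePreserving.ae hplus
  refine ⟨ρ, hρ, ?_⟩
  rw [ae_restrict_iff' ((measurableSet_ball.prod measurableSet_ball).prod MeasurableSet.univ)]
  filter_upwards [hplus, hminus] with p hp hm hpS
  obtain ⟨⟨hx, hy⟩, -⟩ := hpS
  simp only [not_and, not_not, Prod.map_fst, Prod.map_snd, Prod.fst_swap,
    Prod.snd_swap, id] at hp hm
  rcases lt_trichotomy (((p.1.2 - p.1.1) * (starRingEnd ℂ) (e p.2)).im) 0 with h | h | h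
  · symm
    apply hm hy hx
    have h1 : ((p.1.1 - p.1.2) * (starRingEnd ℂ) (e p.2)).im =
        -((p.1.2 - p.1.1) * (starRingEnd ℂ) (e p.2)).im := by
      rw [← Complex.neg_im]
      congr 1
      ring
    rw [h1]
    linarith
  · set s : ℝ := ((p.1.2 - p.1.1) * (starRingEnd ℂ) (e p.2)).re with hs
    have h1 : (p.1.2 - p.1.1) * (starRingEnd ℂ) (e p.2) = (s : ℂ) := by
      apply Complex.ext
      · simp [hs]
      · simpa using h
    have h2 : p.1.2 = p.1.1 + s * e p.2 := by
      rw [← h1]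
      have : p.1.1 + (p.1.2 - p.1.1) * (starRingEnd ℂ) (e p.2) * e p.2 =
          p.1.1 + (p.1.2 - p.1.1) * (e p.2 * (starRingEnd ℂ) (e p.2)) := by ring
      rw [this, e_mul_conj]
      ring
    have h3 := bal_line (f := f) hinv hU (z := p.1.1) (s := s) (θ := p.2)
      (ball_subset_ball (by linarith) hx) (by
        rw [← h2]
        exact ball_subset_ball (by linarith) hy)
    rw [← h2] at h3
    exact h3.symm
  · exact hp hx hy h

end Pool.H46.Bi
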