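import Mathlib

/-!
# Billiards in polygons: definitions and algebra of isometries (proved)
-/

set_option autoImplicit false

open MeasureTheory Metric Set

namespace Pool.H46.Bi

/-- directions: the circle of length 2 pi -/
abbrev Tor : Type := AddCircle (2 * Real.pi)

instance instFactTwoPi : Fact (0 < 2 * Real.pi) := ⟨Real.two_pi_pos⟩

/-- the unit vector with direction theta -/
noncomputable def e (θ : Tor) : ℂ := (AddCircle.toCircle θ : ℂ)

theorem e_coe (t : ℝ) : e (t : Tor) = Complex.exp ((t : ℂ) * Complex.I) := by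
  unfold e
  rw [AddCircle.toCircle_apply_mk, Circle.coe_exp]
  congr 2
  have : (2 * Real.pi / (2 * Real.pi) * t : ℝ) = t := by
    field_simp
  rw [this]

theorem e_add (θ φ : Tor) : e (θ + φ) = e θ * e φ := by
  unfold e
  rw [AddCircle.toCircle_add, Circle.coe_mul]

theorem e_zero : e 0 = 1 := by
  unfold e
  simp

theorem e_neg (θ : Tor) : e (-θ) = (starRingEnd ℂ) (e θ) := by
  unfold e
  rw [AddCircle.toCircle_neg, Circle.coe_inv_eq_conj]

theorem e_sub (θ φ : Tor) : e (θ - φ) = e θ * (starRingEnd ℂ) (e φ) := by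
  rw [sub_eq_add_neg, e_add, e_neg]

theorem norm_e (θ : Tor) : ‖e θ‖ = 1 := by
  unfold e
  exact Circle.norm_coe _

theorem e_mul_conj (θ : Tor) : e θ * (starRingEnd ℂ) (e θ) = 1 := by
  rw [← e_sub, sub_self, e_zero]

theorem conj_mul_e (θ : Tor) : (starRingEnd ℂ) (e θ) * e θ = 1 := by
  rw [mul_comm, e_mul_conj]

theorem e_ne_zero (θ : Tor) : e θ ≠ 0 := by
  intro h
  have := norm_e θ
  rw [h, norm_zero] at this
  exact zero_ne_one this

theorem e_injective : Function.Injective e := by
  intro a b h
  exact AddCircle.injective_toCircle (ne_of_gt Real.two_pi_pos) (Subtype.coe_injective h)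

theorem e_continuous : Continuous e := by
  unfold e
  exact continuous_subtype_val.comp AddCircle.continuous_toCircle

theorem e_measurable : Measurable e := e_continuous.measurable

theorem e_pi : e ((Real.pi : ℝ) : Tor) = -1 := by
  rw [e_coe, Complex.exp_pi_mul_I]

theorem e_add_pi (θ : Tor) : e (θ + ((Real.pi : ℝ) : Tor)) = -e θ := by
  rw [e_add, e_pi]
  ring

theorem e_surj (z : ℂ) (hz : ‖z‖ = 1) : ∃ θ : Tor, e θ = z := by
  refine ⟨((Complex.arg z : ℝ) : Tor), ?_⟩
  rw [e_coe]
  have := Complex.norm_mul_exp_arg_mul_I z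
  rw [hz] at this
  simpa using this

/-- Euclidean motions of the plane: z ↦ e a * z + b or z ↦ e a * conj z + b -/
@[ext] structure Mo where
  a : Tor
  b : ℂ
  c : Bool

namespace Mo

/-- action on points -/
noncomputable def act (g : Mo) (z : ℂ) : ℂ :=
  e g.a * (if g.c then (starRingEnd ℂ) z else z) + g.b

/-- action on directions -/
noncomputable def dir (g : Mo) (θ : Tor) : Tor := g.a + (if g.c then -θ else θ)

/-- the identity -/
noncomputable def one : Mo := ⟨0, 0, false⟩

/-- composition -/
noncomputable def mul (g' g : Mo) : Mo := ⟨g'.dir g.a, g'.act g.b, xor g'.c g.c⟩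

/-- inverse -/
noncomputable def inv (g : Mo) : Mo :=
  ⟨if g.c then g.a else -g.a,
    -(if g.c then e g.a * (starRingEnd ℂ) g.b else e (-g.a) * g.b), g.c⟩

/-- reflection in the line through p with direction alpha -/
noncomputable def refl (p : ℂ) (α : Tor) : Mo :=
  ⟨α + α, p - e (α + α) * (starRingEnd ℂ) p, true⟩

theorem one_act (z : ℂ) : one.act z = z := by
  simp [one, act, e_zero]

theorem one_dir (θ : Tor) : one.dir θ = θ := by
  simp [one, dir]

theorem mul_act (g' g : Mo) (z : ℂ) : (mul g' g).act z = g'.act (g.act z) := by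
  rcases g' with ⟨a', b', c'⟩
  rcases g with ⟨a, b, c⟩
  cases c' <;> cases c <;> simp [mul, act, dir, e_add, e_neg, map_add, map_mul] <;> ring

theorem mul_dir (g' g : Mo) (θ : Tor) : (mul g' g).dir θ = g'.dir (g.dir θ) := by
  rcases g' with ⟨a', b', c'⟩
  rcases g with ⟨a, b, c⟩
  cases c' <;> cases c <;> simp [mul, dir] <;> abel

theorem mul_assoc' (g'' g' g : Mo) : mul g'' (mul g' g) = mul (mul g'' g') g := by
  have h1 := mul_dir g'' g' g.a
  have h2 := mul_act g'' g' g.b
  ext
  · simp only [mul] at h1 ⊢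
    rw [h1]
  · simp only [mul] at h2 ⊢
    rw [h2]
  · simp [mul, Bool.xor_assoc]

theorem one_mul' (g : Mo) : mul one g = g := by
  ext
  · simp [mul, one_dir]
  · simp [mul, one_act]
  · simp [mul, one]

theorem mul_one' (g : Mo) : mul g one = g := by
  rcases g with ⟨a, b, c⟩
  cases c <;> simp [mul, one, dir, act]

/-- a motion maps the ray from x in direction theta to the ray from g.act x in direction g.dir theta -/
theorem act_line (g : Mo) (x : ℂ) (t : ℝ) (θ : Tor) :
    g.act (x + t * e θ) = g.act x + t * e (g.dir θ) := by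
  rcases g with ⟨a, b, c⟩
  cases c <;> simp [act, dir, e_add, e_neg, map_add, map_mul] <;> ring

theorem norm_act_sub (g : Mo) (z w : ℂ) : ‖g.act z - g.act w‖ = ‖z - w‖ := by
  rcases g with ⟨a, b, c⟩
  cases c
  · have : (Mo.mk a b false).act z - (Mo.mk a b false).act w = e a * (z - w) := by
      simp [act]; ring
    rw [this, norm_mul, norm_e, one_mul]
  · have : (Mo.mk a b true).act z - (Mo.mk a b true).act w
        = e a * (starRingEnd ℂ) (z - w) := by
      simp [act, map_sub]; ring
    rw [this, norm_mul, norm_e, one_mul, Complex.norm_conj]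

theorem act_injective (g : Mo) : Function.Injective g.act := by
  intro z w h
  have := g.norm_act_sub z w
  rw [h, sub_self, norm_zero] at this
  exact sub_eq_zero.mp (norm_eq_zero.mp this.symm)

theorem act_continuous (g : Mo) : Continuous g.act := by
  rcases g with ⟨a, b, c⟩
  cases c
  · have h : (Mo.mk a b false).act = fun z => e a * z + b := by
      funext z; simp [act]
    rw [h]
    fun_prop
  · have h : (Mo.mk a b true).act = fun z => e a * (starRingEnd ℂ) z + b := by
      funext z; simp [act]
    rw [h]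
    exact (continuous_const.mul Complex.continuous_conj).add continuous_const

theorem dir_continuous (g : Mo) : Continuous g.dir := by
  rcases g with ⟨a, b, c⟩
  cases c
  · have h : (Mo.mk a b false).dir = fun θ => a + θ := by
      funext z; simp [dir]
    rw [h]
    exact continuous_const.add continuous_id
  · have h : (Mo.mk a b true).dir = fun θ => a + -θ := by
      funext z; simp [dir]
    rw [h]
    exact continuous_const.add continuous_neg

theorem dir_injective (g : Mo) : Function.Injective g.dir := by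
  rcases g with ⟨a, b, c⟩
  cases c <;> intro x y h <;> simpa [dir] using h

/-- directions turned by pi -/
theorem dir_add_pi (g : Mo) (θ : Tor) :
    g.dir (θ + ((Real.pi : ℝ) : Tor)) = g.dir θ + ((Real.pi : ℝ) : Tor) := by
  apply e_injective
  rcases g with ⟨a, b, c⟩
  cases c
  · simp only [dir]
    simp only [Bool.false_eq_true, if_false]
    rw [e_add_pi, e_add, e_add_pi, e_add]
    ring
  · simp only [dir]
    simp only [if_true]
    rw [e_add_pi, e_add, e_neg, e_add_pi, e_add, e_neg, map_neg]
    ring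

/-- shifted directions -/
theorem dir_add (g : Mo) (θ η : Tor) :
    g.dir (θ + η) = g.dir θ + (if g.c then -η else η) := by
  rcases g with ⟨a, b, c⟩
  cases c <;> simp [dir] <;> abel

theorem inv_mul (g : Mo) : mul (inv g) g = one := by
  rcases g with ⟨a, b, c⟩
  cases c
  · simp [mul, inv, one, dir, act, e_neg]
  · simp [mul, inv, one, dir, act]

theorem mul_inv (g : Mo) : mul g (inv g) = one := by
  rcases g with ⟨a, b, c⟩
  cases c
  · simp only [mul, inv, one, dir, act]
    simp only [Bool.false_eq_true, if_false, Bool.xor_false, Mo.mk.injEq, and_true]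
    refine ⟨by abel, ?_⟩
    rw [mul_neg, ← mul_assoc, e_neg, e_mul_conj]
    ring
  · simp only [mul, inv, one, dir, act]
    simp only [if_true, Bool.xor_true, Bool.not_true, Mo.mk.injEq, and_true]
    refine ⟨by abel, ?_⟩
    rw [map_neg, map_mul, Complex.conj_conj, mul_neg, ← mul_assoc, e_mul_conj]
    ring

theorem inv_act_act (g : Mo) (z : ℂ) : g.inv.act (g.act z) = z := by
  rw [← mul_act, inv_mul, one_act]

theorem act_inv_act (g : Mo) (z : ℂ) : g.act (g.inv.act z) = z := by
  rw [← mul_act, mul_inv, one_act]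

theorem inv_dir_dir (g : Mo) (θ : Tor) : g.inv.dir (g.dir θ) = θ := by
  rw [← mul_dir, inv_mul, one_dir]

theorem dir_inv_dir (g : Mo) (θ : Tor) : g.dir (g.inv.dir θ) = θ := by
  rw [← mul_dir, mul_inv, one_dir]

theorem inv_inv (g : Mo) : inv (inv g) = g := by
  have h : mul (mul (inv (inv g)) (inv g)) g = mul one g := by rw [inv_mul (inv g)]
  rw [← mul_assoc', inv_mul, mul_one', one_mul'] at h
  exact h

theorem inv_mul_rev (g' g : Mo) : inv (mul g' g) = mul (inv g) (inv g') := by
  have h1 : mul (mul (inv g) (inv g')) (mul g' g) = one := by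
    rw [mul_assoc', ← mul_assoc' (inv g) (inv g') g', inv_mul, mul_one', inv_mul]
  have h2 : mul (mul (mul (inv g) (inv g')) (mul g' g)) (inv (mul g' g))
      = mul one (inv (mul g' g)) := by rw [h1]
  rw [← mul_assoc', mul_inv, mul_one', one_mul'] at h2
  exact h2.symm

theorem inv_one : inv one = one := by
  simp [inv, one]

theorem inv_injective : Function.Injective inv := by
  intro g h hgh
  rw [← inv_inv g, hgh, inv_inv]

theorem refl_act (p : ℂ) (α : Tor) (z : ℂ) :
    (refl p α).act z = p + e (α + α) * (starRingEnd ℂ) (z - p) := by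
  simp [refl, act, map_sub]; ring

theorem refl_dir (p : ℂ) (α : Tor) (θ : Tor) : (refl p α).dir θ = α + α - θ := by
  simp [refl, dir, sub_eq_add_neg]

theorem refl_self (p : ℂ) (α : Tor) : (refl p α).act p = p := by
  rw [refl_act]; simp

theorem refl_refl (p : ℂ) (α : Tor) : mul (refl p α) (refl p α) = one := by
  simp only [mul, refl, one, dir, act]
  simp only [if_true, Bool.xor_true, Bool.not_true, Mo.mk.injEq, and_true]
  refine ⟨by abel, ?_⟩
  rw [map_sub, map_mul, Complex.conj_conj, mul_sub, ← mul_assoc, e_mul_conj]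
  ring

theorem inv_refl (p : ℂ) (α : Tor) : inv (refl p α) = refl p α := by
  have h : mul (mul (inv (refl p α)) (refl p α)) (refl p α) = mul one (refl p α) := by
    rw [inv_mul]
  rw [← mul_assoc', refl_refl, mul_one', one_mul'] at h
  exact h

/-- norm of the difference after the reflection in a line through p -/
theorem norm_refl_sub (p : ℂ) (α : Tor) (z : ℂ) : ‖(refl p α).act z - p‖ = ‖z - p‖ := by
  have := (refl p α).norm_act_sub z p
  rwa [refl_self] at this

end Mo

/-- signed distance of z from the line through p with direction alpha -/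
noncomputable def side (p : ℂ) (α : Tor) (z : ℂ) : ℝ := ((z - p) * (starRingEnd ℂ) (e α)).im

theorem side_continuous (p : ℂ) (α : Tor) : Continuous (side p α) := by
  unfold side
  exact Complex.continuous_im.comp ((continuous_id.sub continuous_const).mul continuous_const)

theorem side_self (p : ℂ) (α : Tor) : side p α p = 0 := by
  simp [side]

theorem side_line (p : ℂ) (α θ : Tor) (x : ℂ) (t : ℝ) :
    side p α (x + t * e θ) = side p α x + t * (e (θ - α)).im := by
  unfold side
  rw [e_sub]
  have : (x + (t : ℂ) * e θ - p) * (starRingEnd ℂ) (e α)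
      = (x - p) * (starRingEnd ℂ) (e α) + (t : ℂ) * (e θ * (starRingEnd ℂ) (e α)) := by ring
  rw [this, Complex.add_im, Complex.im_ofReal_mul]

theorem side_refl (p : ℂ) (α : Tor) (z : ℂ) : side p α ((Mo.refl p α).act z) = -side p α z := by
  unfold side
  rw [Mo.refl_act, add_sub_cancel_left, e_add]
  have : e α * e α * (starRingEnd ℂ) (z - p) * (starRingEnd ℂ) (e α)
      = (starRingEnd ℂ) ((z - p) * (starRingEnd ℂ) (e α)) := by
    rw [map_mul, Complex.conj_conj]
    calc e α * e α * (starRingEnd ℂ) (z - p) * (starRingEnd ℂ) (e α)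
        = (starRingEnd ℂ) (z - p) * e α * (e α * (starRingEnd ℂ) (e α)) := by ring
      _ = (starRingEnd ℂ) (z - p) * e α := by rw [e_mul_conj, mul_one]
  rw [this, Complex.conj_im]

/-- affine combinations -/
theorem side_comb (p : ℂ) (α : Tor) (x y : ℂ) (s : ℝ) :
    side p α (x + s * (y - x)) = (1 - s) * side p α x + s * side p α y := by
  unfold side
  have : (x + (s : ℂ) * (y - x) - p) * (starRingEnd ℂ) (e α)
      = ((1 - s : ℝ) : ℂ) * ((x - p) * (starRingEnd ℂ) (e α))
        + (s : ℂ) * ((y - p) * (starRingEnd ℂ) (e α)) := by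
    push_cast; ring
  rw [this, Complex.add_im, Complex.im_ofReal_mul, Complex.im_ofReal_mul]

theorem abs_side_le (p : ℂ) (α : Tor) (z : ℂ) : |side p α z| ≤ ‖z - p‖ := by
  unfold side
  calc |((z - p) * (starRingEnd ℂ) (e α)).im| ≤ ‖(z - p) * (starRingEnd ℂ) (e α)‖ :=
        Complex.abs_im_le_norm _
    _ = ‖z - p‖ := by rw [norm_mul, Complex.norm_conj, norm_e, mul_one]

/-- the points with side p alpha z = 0 are the points p + r e(alpha) -/
theorem side_eq_zero_iff (p : ℂ) (α : Tor) (z : ℂ) :
    side p α z = 0 ↔ ∃ r : ℝ, z = p + r * e α := by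
  constructor
  · intro h
    refine ⟨((z - p) * (starRingEnd ℂ) (e α)).re, ?_⟩
    have h1 : ((z - p) * (starRingEnd ℂ) (e α))
        = ((((z - p) * (starRingEnd ℂ) (e α)).re : ℝ) : ℂ) := by
      apply Complex.ext
      · simp only [Complex.ofReal_re]
      · simp only [Complex.ofReal_im]; exact h
    rw [← h1, mul_assoc, conj_mul_e]
    ring
  · rintro ⟨r, rfl⟩
    rw [side_line, side_self, sub_self, e_zero]
    simp

/-- a reflection fixes the points of its line -/
theorem refl_fix (p : ℂ) (α : Tor) (z : ℂ) (h : side p α z = 0) : (Mo.refl p α).act z = z := by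
  obtain ⟨r, rfl⟩ := (side_eq_zero_iff p α z).mp h
  rw [Mo.act_line, Mo.refl_self, Mo.refl_dir, add_sub_cancel_right]

/-- the local picture at a regular frontier point: in the ball about p of radius ε the frontier
is the line through p with direction alpha -/
def Chart (U : Set ℂ) (p : ℂ) (α : Tor) (ε : ℝ) : Prop :=
  0 < ε ∧ ∀ z ∈ ball p ε, (z ∈ frontier U ↔ side p α z = 0)

/-- Reach U t g x θ: the billiard trajectory that starts at x in direction theta is, after time t,
at the point g.act (x + t e theta), with direction g.dir theta, both end points in U. -/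
inductive Reach (U : Set ℂ) : ℝ → Mo → ℂ → Tor → Prop
  | str (t : ℝ) (x : ℂ) (θ : Tor) : 0 ≤ t → (∀ s ∈ Icc (0 : ℝ) t, x + s * e θ ∈ U) →
      Reach U t Mo.one x θ
  | bounce (t : ℝ) (x : ℂ) (θ : Tor) (p : ℂ) (α : Tor) (ε : ℝ) : 0 ≤ t → Chart U p α ε →
      x ∈ U → x ∈ ball p ε → x + t * e θ ∈ ball p ε →
      side p α x * side p α (x + t * e θ) < 0 → Reach U t (Mo.refl p α) x θ
  | trans (t t' : ℝ) (g g' : Mo) (x : ℂ) (θ : Tor) : Reach U t g x θ →
      Reach U t' g' (g.act (x + t * e θ)) (g.dir θ) → Reach U (t + t') (Mo.mul g' g) x θ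

/-- the motions generated by the reflections in the sides -/
inductive Gen (U : Set ℂ) : Mo → Prop
  | one : Gen U Mo.one
  | refl (p : ℂ) (α : Tor) (ε : ℝ) : Chart U p α ε → Gen U (Mo.refl p α)
  | mul (g' g : Mo) : Gen U g' → Gen U g → Gen U (Mo.mul g' g)

/-- the frontier points that are not regular -/
def V0 (U : Set ℂ) : Set ℂ := {v | v ∈ frontier U ∧ ¬ ∃ α ε, Chart U v α ε}

/-- the points of the unfolded plane that some generated motion sends to a nonregular point -/
def Vs (U : Set ℂ) : Set ℂ := {a | ∃ g, Gen U g ∧ g.act a ∈ V0 U}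

/-- forward nonsingular states -/
def NS (U : Set ℂ) (x : ℂ) (θ : Tor) : Prop := ∀ τ : ℝ, 0 < τ → x + τ * e θ ∉ Vs U

/-- the lines that occur in charts -/
def Lset (U : Set ℂ) : Set ℂ := {z | ∃ p α ε, Chart U p α ε ∧ side p α z = 0}

/-- exceptional points of the unfolded plane -/
def Exc (U : Set ℂ) : Set ℂ := {z | ∃ g, Gen U g ∧ g.act z ∈ Lset U}

/-- directions with a two sided singular orbit -/
def Thet (U : Set ℂ) : Set Tor := {θ | ∃ a ∈ Vs U, ∃ b ∈ Vs U, ∃ s : ℝ, 0 < s ∧ a - b = s * e θ}

/-- R is a cone radius of the frontier at v -/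
def Cone (U : Set ℂ) (v : ℂ) (R : ℝ) : Prop :=
  0 < R ∧ ∀ z ∈ ball v R, ∀ s : ℝ, 0 < s → v + s * (z - v) ∈ ball v R →
    z ∈ frontier U → v + s * (z - v) ∈ frontier U

/-- the polygons of the problem -/
structure Poly (U : Set ℂ) : Prop where
  isOpen : IsOpen U
  conn : IsConnected U
  bdd : Bornology.IsBounded U
  seg : ∃ S : Finset (ℂ × ℂ), frontier U = ⋃ p ∈ S, segment ℝ p.1 p.2

/-- the motion of the phase space given by g and the time T -/
noncomputable def Phi (g : Mo) (T : ℝ) (q : ℂ × Tor) : ℂ × Tor :=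
  (g.act (q.1 + T * e q.2), g.dir q.2)

/-- invariance under the billiard -/
def Inv (U : Set ℂ) (f : ℂ × Tor → ℝ) : Prop :=
  ∀ (t : ℝ) (g : Mo) (x : ℂ) (θ : Tor), Reach U t g x θ → f (Phi g t (x, θ)) = f (x, θ)

/-- the state at time T: either reached, or T is a time of collision with a regular point -/
def At (U : Set ℂ) (T : ℝ) (g : Mo) (x : ℂ) (θ : Tor) : Prop :=
  Reach U T g x θ ∨
    ((∃ α ε, Chart U (g.act (x + T * e θ)) α ε) ∧
      ∃ t0 : ℝ, 0 ≤ t0 ∧ t0 < T ∧ ∀ t1 ∈ Ico t0 T, Reach U t1 g x θ)

end Pool.H46.Bi
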