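import Pool.Agent.H46.Bi.Base

/-!
# [H46 BI CNE] cone radii (70-110 lines)

cone_exists: frontier U is a finite union of segments. For one segment [a, b] and a point v there
is R > 0 such that for z ∈ ball v R, s > 0 with v + s (z - v) ∈ ball v R: z ∈ [a,b] implies
v + s (z - v) ∈ [a,b].
 - v ∉ [a,b]: R = infDist v [a,b] > 0 (compact, nonempty), the hypothesis z ∈ [a,b] is void.
 - v ∈ [a,b]: v = a + c (b - a), c ∈ [0,1]. If a = b then z = v, and v + s 0 = v. Otherwise let
   R := the minimum of the positive ones among ‖v - a‖, ‖v - b‖ (at least one is positive). A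
   point z = a + d (b - a) of the segment, then v + s (z - v) = a + (c + s (d - c)) (b - a); with
   |s (d - c)| ‖b - a‖ < R one checks c + s (d - c) ∈ [0,1]: if d ≥ c then only c + s (d - c) ≤ 1
   matters: if c < 1 then R ≤ ‖v - b‖ = (1 - c) ‖b - a‖; if c = 1 then d ≤ 1 = c forces d = c.
   Symmetric for d ≤ c.
Take the minimum over the finite set S of segments (induction on the Finset, or
Finset.exists_min_image; the property is inherited by smaller R).
cone_mono is immediate.
common_radius: V0 U ∪ V finite: minimum of the cone radii / 5 and of the distances / 4.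
(If the finite set is empty take r0 = 1.)
-/

set_option autoImplicit false

open MeasureTheory Metric Set

namespace Pool.H46.Bi

theorem cone_mono {U : Set ℂ} {v : ℂ} {R R' : ℝ} (h : Cone U v R) (hR : 0 < R') (hle : R' ≤ R) :
    Cone U v R' := by
  refine ⟨hR, fun z hz s hs hy hzf => ?_⟩
  exact h.2 z (ball_subset_ball hle hz) s hs (ball_subset_ball hle hy) hzf

/-- positive lower bound for a positive function on a finite set -/
private theorem Cne_low {α : Type} (T : Finset α) (f : α → ℝ) (hf : ∀ a ∈ T, 0 < f a) :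
    ∃ r : ℝ, 0 < r ∧ ∀ a ∈ T, r ≤ f a := by
  classical
  induction T using Finset.induction_on with
  | empty => exact ⟨1, one_pos, fun a ha => absurd ha (Finset.notMem_empty a)⟩
  | insert a T _ ih =>
    obtain ⟨r, hr, h⟩ := ih fun b hb => hf b (Finset.mem_insert_of_mem hb)
    refine ⟨min r (f a), lt_min hr (hf a (Finset.mem_insert_self a T)), fun b hb => ?_⟩
    rcases Finset.mem_insert.1 hb with hb | hb
    · rw [hb]
      exact min_le_right _ _
    · exact (min_le_left _ _).trans (h b hb)

/-- cone radius of a segment at a point of the segment, with parameters -/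
private theorem Cne_aux (a b : ℂ) (c d s R : ℝ) (_hs : 0 < s) (hd1 : d ≤ 1)
    (hcd : c < d) (hab : 0 < ‖b - a‖)
    (hR : a + c • (b - a) ≠ b → R ≤ ‖a + c • (b - a) - b‖)
    (hy : s * (d - c) * ‖b - a‖ < R) : c + s * (d - c) ≤ 1 := by
  have hc1 : c < 1 := lt_of_lt_of_le hcd hd1
  have h1 : a + c • (b - a) - b = (((c - 1 : ℝ)) : ℂ) * (b - a) := by
    rw [Complex.real_smul]
    push_cast
    ring
  have h2 : ‖a + c • (b - a) - b‖ = (1 - c) * ‖b - a‖ := by
    rw [h1, norm_mul, Complex.norm_real, Real.norm_eq_abs, abs_of_neg (by linarith)]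
    ring
  have h3 : a + c • (b - a) ≠ b := by
    intro h
    rw [h, sub_self, norm_zero] at h2
    have h4 : 0 < (1 - c) * ‖b - a‖ := mul_pos (by linarith) hab
    linarith
  have h4 := hR h3
  rw [h2] at h4
  have h5 : s * (d - c) * ‖b - a‖ < (1 - c) * ‖b - a‖ := lt_of_lt_of_le hy h4
  have h6 : s * (d - c) < 1 - c := lt_of_mul_lt_mul_right h5 hab.le
  linarith

private theorem Cne_seg (a b v : ℂ) : ∃ R : ℝ, 0 < R ∧ ∀ z ∈ ball v R, ∀ s : ℝ, 0 < s →
    v + s * (z - v) ∈ ball v R → z ∈ segment ℝ a b → v + s * (z - v) ∈ segment ℝ a b := by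
  classical
  by_cases hv : v ∈ segment ℝ a b
  · obtain ⟨Ra, hRa⟩ : ∃ Ra : ℝ, Ra = if v = a then 1 else ‖v - a‖ := ⟨_, rfl⟩
    obtain ⟨Rb, hRb⟩ : ∃ Rb : ℝ, Rb = if v = b then 1 else ‖v - b‖ := ⟨_, rfl⟩
    have hRa0 : 0 < Ra := by
      rw [hRa]
      split_ifs with h
      · exact one_pos
      · exact norm_pos_iff.2 (sub_ne_zero.2 h)
    have hRb0 : 0 < Rb := by
      rw [hRb]
      split_ifs with h
      · exact one_pos
      · exact norm_pos_iff.2 (sub_ne_zero.2 h)
    refine ⟨min Ra Rb, lt_min hRa0 hRb0, ?_⟩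
    intro z _ s hs hy hz
    by_cases hzv : z = v
    · rw [hzv, sub_self, mul_zero, add_zero]
      exact hv
    · rw [segment_eq_image'] at hv hz ⊢
      obtain ⟨c, ⟨hc0, hc1⟩, hc⟩ := hv
      obtain ⟨d, ⟨hd0, hd1⟩, hd⟩ := hz
      simp only at hc hd
      have h1 : z - v = (((d - c : ℝ)) : ℂ) * (b - a) := by
        rw [← hc, ← hd, Complex.real_smul, Complex.real_smul]
        push_cast
        ring
      have hdc : d ≠ c := by
        intro h
        rw [h, sub_self, Complex.ofReal_zero, zero_mul] at h1
        exact hzv (sub_eq_zero.1 h1)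
      have hab : 0 < ‖b - a‖ := by
        rw [norm_pos_iff]
        intro h
        rw [h, mul_zero] at h1
        exact hzv (sub_eq_zero.1 h1)
      have h2 : v + s * (z - v) - v = (((s * (d - c) : ℝ)) : ℂ) * (b - a) := by
        rw [h1]
        push_cast
        ring
      have h3 : |s * (d - c)| * ‖b - a‖ < min Ra Rb := by
        rw [mem_ball, dist_eq_norm, h2, norm_mul, Complex.norm_real, Real.norm_eq_abs] at hy
        exact hy
      refine ⟨c + s * (d - c), ⟨?_, ?_⟩, ?_⟩
      · rcases lt_or_gt_of_ne hdc with h | h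
        · -- `d < c`: exchange `a` and `b`
          have h4 : 1 - c < 1 - d := by linarith
          have h5 : b + (1 - c) • (a - b) = v := by
            rw [← hc, Complex.real_smul, Complex.real_smul]
            push_cast
            ring
          have h6 := Cne_aux b a (1 - c) (1 - d) s (min Ra Rb) hs (by linarith) h4
            (by rwa [norm_sub_rev]) (by
              rw [h5]
              intro h7
              refine (min_le_left _ _).trans ?_
              rw [hRa, if_neg h7]) (by
              rw [norm_sub_rev a b]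
              have h7 : |s * (d - c)| = s * (1 - d - (1 - c)) := by
                rw [abs_of_neg (mul_neg_of_pos_of_neg hs (by linarith))]
                ring
              rwa [h7] at h3)
          have h8 : s * (1 - d - (1 - c)) = - (s * (d - c)) := by ring
          rw [h8] at h6
          linarith
        · have h4 : 0 ≤ s * (d - c) := mul_nonneg hs.le (by linarith)
          linarith
      · rcases lt_or_gt_of_ne hdc with h | h
        · have h4 : s * (d - c) ≤ 0 := mul_nonpos_of_nonneg_of_nonpos hs.le (by linarith)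
          linarith
        · refine Cne_aux a b c d s (min Ra Rb) hs hd1 h hab ?_ ?_
          · rw [hc]
            intro h7
            refine (min_le_right _ _).trans ?_
            rw [hRb, if_neg h7]
          · rwa [abs_of_pos (mul_pos hs (by linarith))] at h3
      · simp only
        rw [h1, ← hc, Complex.real_smul, Complex.real_smul]
        push_cast
        ring
  · have hcl : IsClosed (segment ℝ a b) := by
      rw [segment_eq_image']
      refine (isCompact_Icc.image ?_).isClosed
      fun_prop
    obtain ⟨R, hR, hball⟩ := Metric.isOpen_iff.1 hcl.isOpen_compl v hv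
    exact ⟨R, hR, fun z hz s _ _ hzs => absurd hzs (hball hz)⟩

theorem cone_exists {U : Set ℂ} (hP : Poly U) (v : ℂ) : ∃ R : ℝ, Cone U v R := by
  obtain ⟨S, hS⟩ := hP.seg
  have h1 := fun p : ℂ × ℂ => Cne_seg p.1 p.2 v
  choose f hf0 hf using h1
  obtain ⟨R, hR, hRf⟩ := Cne_low S f fun p _ => hf0 p
  refine ⟨R, hR, fun z hz s hs hy hzf => ?_⟩
  rw [hS] at hzf ⊢
  simp only [mem_iUnion, exists_prop] at hzf ⊢
  obtain ⟨p, hp, hzp⟩ := hzf
  exact ⟨p, hp, hf p z (ball_subset_ball (hRf p hp) hz) s hs (ball_subset_ball (hRf p hp) hy) hzp⟩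

theorem common_radius {U : Set ℂ} (hP : Poly U) (Vt : Finset ℂ) :
    ∃ r0 : ℝ, 0 < r0 ∧ (∀ v ∈ Vt, Cone U v (5 * r0)) ∧
      ∀ v ∈ Vt, ∀ w ∈ Vt, v ≠ w → 4 * r0 ≤ ‖v - w‖ := by
  classical
  have h1 := fun v : ℂ => cone_exists hP v
  choose R hR using h1
  obtain ⟨r1, hr1, h2⟩ := Cne_low Vt (fun v => R v / 5) fun v _ => by
    have := (hR v).1
    positivity
  obtain ⟨r2, hr2, h3⟩ := Cne_low ((Vt ×ˢ Vt).filter fun p => p.1 ≠ p.2)
    (fun p => ‖p.1 - p.2‖ / 4) fun p hp => by
      rw [Finset.mem_filter] at hp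
      have := norm_pos_iff.2 (sub_ne_zero.2 hp.2)
      positivity
  refine ⟨min r1 r2, lt_min hr1 hr2, ?_, ?_⟩
  · intro v hv
    refine cone_mono (hR v) (mul_pos (by norm_num) (lt_min hr1 hr2)) ?_
    have h4 := h2 v hv
    have h5 := min_le_left r1 r2
    linarith
  · intro v hv w hw hvw
    have h4 := h3 (v, w) (by
      rw [Finset.mem_filter, Finset.mem_product]
      exact ⟨⟨hv, hw⟩, hvw⟩)
    have h5 := min_le_right r1 r2
    linarith

end Pool.H46.Bi
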