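import Pool.Agent.H46.Bi.Base

/-!
# [H46 BI HALF] half balls, end points of Reach, extension near a good point (90-130 lines)

half_ball: the open half ball {z ∈ ball p ε | side p α z has the sign of side p α x} is convex,
hence preconnected, it contains no frontier point (Chart), and meets U in x.  A preconnected set
that meets U and misses frontier U lies in U (otherwise U and the complement of closure U
separate it: Mathlib IsPreconnected.subset_or_subset / frontier_eq_closure_inter_closure /
IsPreconnected.inter_frontier_nonempty).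

seg_mem: x in U and in the ball, x + t e θ in the ball and on the same side (product > 0): then
x + s e θ is in the ball (convexity: side_line and norm convexity) and on the same side for
all s in [0,t] (side_line is affine in s), so it is in U by half_ball.

sub_chart: ball q ε' inside ball p ε, and side q α z = side p α z because side p α q = 0.

Reach.nonneg / start_mem / end_mem: induction. In the case bounce the end point is the mirror
image of x + t e θ; it lies in the ball (Mo.norm_refl_sub) and on the side of x (side_refl), so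
half_ball applies.

Reach.gen: induction.

extend: if v ∈ U take ball v (3 ρ) ⊆ U and go straight for time ρ. If Chart U v α ε, ρ := ε/4:
for y in U with y in ball v ρ, side y ≠ 0; the function s ↦ side (y + s u) is affine and nonzero
at 0, so it is nonzero at s = ρ or at s = 3ρ/2 (both points lie in ball v ε); with the product
> 0 use seg_mem and Reach.str, with the product < 0 use Reach.bounce.
-/

set_option autoImplicit false

open MeasureTheory Metric Set

namespace Pool.H46.Bi

theorem half_ball {U : Set ℂ} (hU : IsOpen U) {p : ℂ} {α : Tor} {ε : ℝ} (hc : Chart U p α ε)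
    {x y : ℂ} (hx : x ∈ U) (hxb : x ∈ ball p ε) (hyb : y ∈ ball p ε)
    (hs : 0 < side p α x * side p α y) : y ∈ U := by
  by_contra hy
  have key : ∀ z ∈ segment ℝ x y, z ∉ frontier U := by
    intro z hz1 hz2
    have hzb : z ∈ ball p ε := (convex_ball p ε).segment_subset hxb hyb hz1
    have hz0 := (hc.2 z hzb).1 hz2
    rw [segment_eq_image'] at hz1
    obtain ⟨s, ⟨hs0, hs1⟩, rfl⟩ := hz1
    simp only [Complex.real_smul] at hz0
    rw [side_comb] at hz0
    have hx2 : 0 < side p α x * side p α x := by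
      have : side p α x ≠ 0 := fun h => by rw [h, zero_mul] at hs; exact lt_irrefl _ hs
      exact mul_self_pos.2 this
    have h3 : side p α x * ((1 - s) * side p α x + s * side p α y) = 0 := by rw [hz0, mul_zero]
    have h4 : side p α x * ((1 - s) * side p α x + s * side p α y) =
        (1 - s) * (side p α x * side p α x) + s * (side p α x * side p α y) := by ring
    rw [h4] at h3
    rcases hs0.eq_or_lt with h | h
    · rw [← h] at h3
      linarith
    · have h5 : 0 < s * (side p α x * side p α y) := mul_pos h hs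
      have h6 : 0 ≤ (1 - s) * (side p α x * side p α x) := mul_nonneg (by linarith) hx2.le
      linarith
  have hcl : ∀ z ∈ segment ℝ x y, z ∉ U → z ∉ closure U := by
    intro z hz hzU hzc
    apply key z hz
    rw [hU.frontier_eq]
    exact ⟨hzc, hzU⟩
  have hpre : IsPreconnected (segment ℝ x y) := (convex_segment x y).isPreconnected
  obtain ⟨z, _, hz1, hz2⟩ := hpre U (closure U)ᶜ hU isClosed_closure.isOpen_compl
    (fun z hz => by
      by_cases h : z ∈ U
      · exact Or.inl h
      · exact Or.inr (hcl z hz h))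
    ⟨x, left_mem_segment ℝ x y, hx⟩
    ⟨y, right_mem_segment ℝ x y, hcl y (right_mem_segment ℝ x y) hy⟩
  exact hz2 (subset_closure hz1)

theorem side_ne {U : Set ℂ} (hU : IsOpen U) {p : ℂ} {α : Tor} {ε : ℝ} (hc : Chart U p α ε)
    {x : ℂ} (hx : x ∈ U) (hxb : x ∈ ball p ε) : side p α x ≠ 0 := by
  intro h
  have h1 := (hc.2 x hxb).2 h
  rw [hU.frontier_eq] at h1
  exact h1.2 hx

theorem ball_line {p x : ℂ} {ε : ℝ} {θ : Tor} {t s : ℝ} (hx : x ∈ ball p ε)
    (hy : x + t * e θ ∈ ball p ε) (hs : s ∈ Icc (0 : ℝ) t) : x + s * e θ ∈ ball p ε := by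
  obtain ⟨h0, h1⟩ := hs
  rcases h0.eq_or_lt with h | h
  · rw [← h]
    simpa using hx
  · have ht : 0 < t := h.trans_le h1
    apply (convex_ball p ε).segment_subset hx hy
    rw [segment_eq_image']
    refine ⟨s / t, ⟨by positivity, (div_le_one ht).2 h1⟩, ?_⟩
    have htc : (t : ℂ) ≠ 0 := by exact_mod_cast ht.ne'
    simp only [Complex.real_smul, add_sub_cancel_left, Complex.ofReal_div]
    rw [← mul_assoc, div_mul_cancel₀ _ htc]

theorem seg_mem {U : Set ℂ} (hU : IsOpen U) {p : ℂ} {α : Tor} {ε : ℝ} (hc : Chart U p α ε)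
    {x : ℂ} {θ : Tor} {t : ℝ} (ht : 0 ≤ t) (hx : x ∈ U) (hxb : x ∈ ball p ε)
    (hyb : x + t * e θ ∈ ball p ε) (hs : 0 < side p α x * side p α (x + t * e θ)) :
    ∀ s ∈ Icc (0 : ℝ) t, x + s * e θ ∈ U := by
  intro s hs'
  refine half_ball hU hc hx hxb (ball_line hxb hyb hs') ?_
  rw [side_line] at hs ⊢
  obtain ⟨h0, h1⟩ := hs'
  have hx0 := side_ne hU hc hx hxb
  set a := side p α x
  set c := (e (θ - α)).im
  have ha : 0 < a * a := mul_self_pos.2 hx0
  have e1 : a * (a + t * c) = a * a + t * (a * c) := by ring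
  have e2 : a * (a + s * c) = a * a + s * (a * c) := by ring
  rw [e1] at hs
  rw [e2]
  rcases le_or_gt 0 (a * c) with h | h
  · have := mul_nonneg h0 h
    linarith
  · have := mul_le_mul_of_nonpos_right h1 h.le
    linarith

theorem sub_chart {U : Set ℂ} {p : ℂ} {α : Tor} {ε : ℝ} (hc : Chart U p α ε)
    {q : ℂ} (hq : q ∈ ball p ε) (hs : side p α q = 0) :
    (∀ z, side q α z = side p α z) ∧ ∃ ε' : ℝ, Chart U q α ε' ∧ ball q ε' ⊆ ball p ε := by
  have h1 : ∀ z, side q α z = side p α z := by
    intro z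
    have h2 : side q α z = side p α z - side p α q := by
      unfold side
      rw [← Complex.sub_im]
      congr 1
      ring
    rw [h2, hs, sub_zero]
  refine ⟨h1, ε - dist q p, ⟨?_, fun z hz => ?_⟩, ?_⟩
  · rw [mem_ball] at hq
    linarith
  · have hz' : z ∈ ball p ε := by
      rw [mem_ball] at hz ⊢
      have := dist_triangle z q p
      linarith
    rw [hc.2 z hz', h1 z]
  · intro z hz
    rw [mem_ball] at hz ⊢
    have := dist_triangle z q p
    linarith

theorem Reach.nonneg {U : Set ℂ} {t : ℝ} {g : Mo} {x : ℂ} {θ : Tor} (h : Reach U t g x θ) :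
    0 ≤ t := by
  induction h with
  | str t x θ ht _ => exact ht
  | bounce t x θ p α ε ht _ _ _ _ _ => exact ht
  | trans t t' g g' x θ _ _ h1 h2 => exact add_nonneg h1 h2

theorem Reach.start_mem {U : Set ℂ} {t : ℝ} {g : Mo} {x : ℂ} {θ : Tor} (h : Reach U t g x θ) :
    x ∈ U := by
  induction h with
  | str t x θ ht h =>
    have := h 0 ⟨le_refl _, ht⟩
    simpa using this
  | bounce t x θ p α ε ht _ hx _ _ _ => exact hx
  | trans t t' g g' x θ _ _ h1 h2 => exact h1

theorem Reach.end_mem {U : Set ℂ} (hU : IsOpen U) {t : ℝ} {g : Mo} {x : ℂ} {θ : Tor}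
    (h : Reach U t g x θ) : g.act (x + t * e θ) ∈ U := by
  induction h with
  | str t x θ ht h =>
    rw [Mo.one_act]
    exact h t ⟨ht, le_refl _⟩
  | bounce t x θ p α ε ht hc hx hxb hyb hs =>
    refine half_ball hU hc hx hxb ?_ ?_
    · rw [mem_ball, dist_eq_norm] at hyb ⊢
      rw [Mo.norm_refl_sub]
      exact hyb
    · rw [side_refl]
      linarith
  | trans t t' g g' x θ _ _ h1 h2 =>
    have h3 : x + ((t + t' : ℝ) : ℂ) * e θ = (x + t * e θ) + t' * e θ := by
      push_cast
      ring
    rw [Mo.mul_act, h3, Mo.act_line]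
    exact h2

theorem Reach.gen {U : Set ℂ} {t : ℝ} {g : Mo} {x : ℂ} {θ : Tor} (h : Reach U t g x θ) :
    Gen U g := by
  induction h with
  | str t x θ ht h => exact Gen.one
  | bounce t x θ p α ε ht hc hx hxb hyb hs => exact Gen.refl p α ε hc
  | trans t t' g g' x θ _ _ h1 h2 => exact Gen.mul g' g h2 h1

theorem extend {U : Set ℂ} (hU : IsOpen U) {v : ℂ} (hv : v ∈ U ∨ ∃ α ε, Chart U v α ε) :
    ∃ ρ : ℝ, 0 < ρ ∧ ∀ y ∈ U, y ∈ ball v ρ → ∀ u : Tor, ∃ s : ℝ, ρ ≤ s ∧
      ∃ g, Reach U s g y u := by
  have hb : ∀ (y : ℂ) (u : Tor) (s r1 r2 : ℝ), y ∈ ball v r1 → 0 ≤ s → r1 + s ≤ r2 →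
      y + s * e u ∈ ball v r2 := by
    intro y u s r1 r2 hy hs h
    rw [mem_ball, dist_eq_norm] at hy ⊢
    have h1 : y + (s : ℂ) * e u - v = (y - v) + (s : ℂ) * e u := by ring
    rw [h1]
    have h2 : ‖(s : ℂ) * e u‖ = s := by
      rw [norm_mul, norm_e, mul_one, Complex.norm_real, Real.norm_eq_abs, abs_of_nonneg hs]
    have h3 := norm_add_le (y - v) ((s : ℂ) * e u)
    rw [h2] at h3
    linarith
  rcases hv with hv | ⟨α, ε, hc⟩
  · obtain ⟨r, hr, hrU⟩ := Metric.isOpen_iff.1 hU v hv
    refine ⟨r / 3, by positivity, fun y hy hyb u => ⟨r / 3, le_refl _, Mo.one, ?_⟩⟩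
    refine Reach.str _ _ _ (by positivity) fun s hs => hrU ?_
    exact hb y u s (r / 3) r hyb hs.1 (by linarith [hs.2])
  · have hε := hc.1
    refine ⟨ε / 4, by positivity, fun y hy hyb u => ?_⟩
    have hyb' : y ∈ ball v ε := ball_subset_ball (by linarith) hyb
    have ha := side_ne hU hc hy hyb'
    have hline := side_line v α u y
    have key : ∃ s : ℝ, ε / 4 ≤ s ∧ s ≤ 3 * (ε / 4) / 2 ∧ side v α (y + s * e u) ≠ 0 := by
      by_cases h : side v α (y + (ε / 4 : ℝ) * e u) = 0
      · refine ⟨3 * (ε / 4) / 2, by linarith, le_refl _, fun h' => ha ?_⟩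
        rw [hline] at h h'
        linarith
      · exact ⟨ε / 4, le_refl _, by linarith, h⟩
    obtain ⟨s, hs1, hs2, hs3⟩ := key
    have hs0 : 0 ≤ s := by linarith
    have hzb := hb y u s (ε / 4) ε hyb hs0 (by linarith)
    refine ⟨s, hs1, ?_⟩
    rcases lt_or_gt_of_ne (mul_ne_zero ha hs3) with h | h
    · exact ⟨_, Reach.bounce s y u v α ε hs0 hc hy hyb' hzb h⟩
    · exact ⟨_, Reach.str s y u hs0 (seg_mem hU hc hs0 hy hyb' hzb h)⟩

end Pool.H46.Bi
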