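import Pool.Agent.H46.Bi.Geo
import Pool.Agent.H46.Bi.Half

/-!
# [H46 BI CNT] countability and null sets (70-100 lines)

gen_countable: let F be the finite set of the reflections in the sides (refl_finite). By
induction on Gen every g with Gen U g is a product of a list of members of F:
g = l.foldr Mo.mul Mo.one for a list l : List F (append for the products: foldr_append and
Mo.mul_assoc', Mo.one_mul'). List F is countable, so the set is the subset of a countable range.

vs_countable: Vs U = ⋃ over the countable set of g with Gen U g of the preimages g.act ⁻¹' V0 U;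
g.act is injective and V0 U is finite, so each preimage is finite (Set.Finite.preimage).

thet_countable: for every pair (a, b) there is at most one direction θ with a - b = s e θ, s > 0
(s = ‖a - b‖, e_injective), so Thet U is the union over the countable set Vs ×ˢ Vs of subsingletons.

thet_split: if θ ∉ Thet U then NS U x θ or NS U x (θ + π): otherwise x + τ e θ = a ∈ Vs U and
x + τ' e (θ + π) = x - τ' e θ = b ∈ Vs U with τ, τ' > 0, a - b = (τ + τ') e θ.

exc_null: Exc U = ⋃ over g with Gen U g of g.act ⁻¹' (Lset U); g.act is measure preserving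
(rotation, possibly conjugation, translation; or: an isometry of ℂ onto ℂ preserves the null sets
of volume: g.act ⁻¹' s = g.inv.act '' s and an isometric (Lipschitz) image of a null set is null,
for instance through Hausdorff measure or MeasureTheory.Measure.addHaar of linear isometries), so
every preimage is null (Lset_null); measure_biUnion_null_iff with countability.
exc_null_phase: the set of the states q with q.1 + T e q.2 ∈ Exc U is null in ℂ × Tor: for fixed
q.2 it is a translate of Exc U (measure_preimage_add_right), and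
Measure.measure_prod_null needs a measurable set: replace Exc U by a measurable null superset
(toMeasurable).
-/

set_option autoImplicit false

open MeasureTheory Metric Set

namespace Pool.H46.Bi

private theorem cnt_foldr (l l' : List Mo) :
    Mo.mul (l.foldr Mo.mul Mo.one) (l'.foldr Mo.mul Mo.one) = (l ++ l').foldr Mo.mul Mo.one := by
  induction l with
  | nil => exact Mo.one_mul' _
  | cons g l ih =>
    simp only [List.foldr_cons, List.cons_append]
    rw [← ih, Mo.mul_assoc']

theorem gen_countable {U : Set ℂ} (hP : Poly U) : {g : Mo | Gen U g}.Countable := by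
  have hF := refl_finite hP
  obtain ⟨F, hFdef⟩ : ∃ F : Set Mo, F = {g : Mo | ∃ p α ε, Chart U p α ε ∧ g = Mo.refl p α} :=
    ⟨_, rfl⟩
  have hFf : F.Finite := by
    rw [hFdef]
    exact hF
  have : Finite F := hFf
  have hcount : (Set.range fun l : List F => (l.map Subtype.val).foldr Mo.mul Mo.one).Countable :=
    Set.countable_range _
  refine hcount.mono ?_
  intro g hg
  induction hg with
  | one => exact ⟨[], rfl⟩
  | refl p α ε hc =>
    refine ⟨[⟨Mo.refl p α, ?_⟩], ?_⟩
    · rw [hFdef]
      exact ⟨p, α, ε, hc, rfl⟩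
    · simp only [List.map_cons, List.map_nil, List.foldr_cons, List.foldr_nil]
      exact Mo.mul_one' _
  | mul g' g _ _ h1 h2 =>
    obtain ⟨l, rfl⟩ := h1
    obtain ⟨l', rfl⟩ := h2
    refine ⟨l ++ l', ?_⟩
    simp only [List.map_append]
    rw [cnt_foldr]

theorem vs_countable {U : Set ℂ} (hP : Poly U) : (Vs U).Countable := by
  have h1 : Vs U = ⋃ g ∈ {g : Mo | Gen U g}, g.act ⁻¹' V0 U := by
    ext a
    simp only [Vs, mem_ofPred_eq, mem_iUnion, mem_preimage, exists_prop]
  rw [h1]
  refine (gen_countable hP).biUnion fun g _ => ?_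
  exact ((V0_finite hP).preimage g.act_injective.injOn).countable

theorem thet_countable {U : Set ℂ} (hP : Poly U) : (Thet U).Countable := by
  have h1 : Thet U ⊆ ⋃ x ∈ Vs U ×ˢ Vs U, {θ : Tor | ∃ s : ℝ, 0 < s ∧ x.1 - x.2 = s * e θ} := by
    rintro θ ⟨a, ha, b, hb, h⟩
    simp only [mem_iUnion]
    exact ⟨(a, b), ⟨ha, hb⟩, h⟩
  refine Set.Countable.mono h1 ?_
  refine ((vs_countable hP).prod (vs_countable hP)).biUnion fun x _ => ?_
  apply Set.Subsingleton.countable
  rintro θ ⟨s, hs, h⟩ θ' ⟨s', hs', h'⟩
  have h2 : (s : ℂ) * e θ = s' * e θ' := h.symm.trans h'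
  have h3 : s = s' := by
    have := congrArg norm h2
    rw [norm_mul, norm_mul, norm_e, norm_e, mul_one, mul_one, Complex.norm_real,
      Complex.norm_real, Real.norm_eq_abs, Real.norm_eq_abs, abs_of_pos hs, abs_of_pos hs'] at this
    exact this
  subst h3
  have h4 : (s : ℂ) ≠ 0 := by exact_mod_cast hs.ne'
  exact e_injective (mul_left_cancel₀ h4 h2)

theorem thet_split {U : Set ℂ} {θ : Tor} (hθ : θ ∉ Thet U) (x : ℂ) :
    NS U x θ ∨ NS U x (θ + ((Real.pi : ℝ) : Tor)) := by
  by_contra hcon
  rw [not_or] at hcon
  obtain ⟨h1, h2⟩ := hcon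
  unfold NS at h1 h2
  push Not at h1 h2
  obtain ⟨τ, hτ, ha⟩ := h1
  obtain ⟨τ', hτ', hb⟩ := h2
  apply hθ
  refine ⟨_, ha, _, hb, τ + τ', by positivity, ?_⟩
  rw [e_add_pi]
  push_cast
  ring

private theorem cnt_act_diff (g : Mo) : Differentiable ℝ g.act := by
  rcases g with ⟨a, b, c⟩
  cases c
  · have h : (Mo.mk a b false).act = fun z => e a * z + b := by
      funext z; simp [Mo.act]
    rw [h]
    exact (differentiable_id.const_mul _).add_const _
  · have h : (Mo.mk a b true).act = fun z => e a * (starRingEnd ℂ) z + b := by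
      funext z; simp [Mo.act]
    rw [h]
    exact (Complex.conjCLE.differentiable.const_mul _).add_const _

private theorem cnt_preimage (g : Mo) (s : Set ℂ) (hs : (volume : Measure ℂ) s = 0) :
    (volume : Measure ℂ) (g.act ⁻¹' s) = 0 := by
  have h1 : g.act ⁻¹' s = g.inv.act '' s := by
    ext z
    constructor
    · intro hz
      exact ⟨g.act z, hz, g.inv_act_act z⟩
    · rintro ⟨w, hw, rfl⟩
      rw [mem_preimage, g.act_inv_act]
      exact hw
  rw [h1]
  exact MeasureTheory.addHaar_image_eq_zero_of_differentiableOn_of_addHaar_eq_zero _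
    (cnt_act_diff g.inv).differentiableOn hs

theorem exc_null {U : Set ℂ} (hP : Poly U) : (volume : Measure ℂ) (Exc U) = 0 := by
  have h1 : Exc U = ⋃ g ∈ {g : Mo | Gen U g}, g.act ⁻¹' Lset U := by
    ext a
    simp only [Exc, mem_ofPred_eq, mem_iUnion, mem_preimage, exists_prop]
  rw [h1, measure_biUnion_null_iff (gen_countable hP)]
  exact fun g _ => cnt_preimage g _ (Lset_null hP)

theorem exc_null_phase {U : Set ℂ} (hP : Poly U) (T : ℝ) :
    (volume : Measure (ℂ × Tor)) {q : ℂ × Tor | q.1 + T * e q.2 ∈ Exc U} = 0 := by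
  have hN : (volume : Measure ℂ) (toMeasurable volume (Exc U)) = 0 := by
    rw [measure_toMeasurable]
    exact exc_null hP
  have hmeas : MeasurableSet {q : ℂ × Tor | q.1 + T * e q.2 ∈ toMeasurable volume (Exc U)} := by
    apply (measurableSet_toMeasurable _ _).preimage
    exact measurable_fst.add (measurable_const.mul (e_measurable.comp measurable_snd))
  refine measure_mono_null (t := {q : ℂ × Tor | q.1 + T * e q.2 ∈ toMeasurable volume (Exc U)})
    (fun q hq => subset_toMeasurable _ _ hq) ?_
  rw [Measure.volume_eq_prod, Measure.prod_apply_symm hmeas]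
  have h0 : ∀ θ : Tor, (volume : Measure ℂ) ((fun x => (x, θ)) ⁻¹'
      {q : ℂ × Tor | q.1 + T * e q.2 ∈ toMeasurable volume (Exc U)}) = 0 := by
    intro θ
    have : ((fun x => (x, θ)) ⁻¹' {q : ℂ × Tor | q.1 + T * e q.2 ∈ toMeasurable volume (Exc U)}) =
        (fun x => x + T * e θ) ⁻¹' (toMeasurable volume (Exc U)) := rfl
    rw [this, measure_preimage_add_right]
    exact hN
  simp only [h0, lintegral_zero]

end Pool.H46.Bi
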