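import Pool.Agent.H46.Bi.Mdef

/-!
# [H46 BI CNV] from angles in ℝ to directions in the circle (80-110 lines)

descend: F (x, θ) = f (x, t) for the representative t ∈ [0, 2π) of θ
(AddCircle.measurableEquivIco / equivIco (2 π) 0); measurable; F (x, ↑t) = f (x, t) by periodicity
(the representative differs from t by an integer multiple of 2 π: AddCircle.coe_eq_coe_iff_of_mem_Ico,
toIcoMod, Function.Periodic.sub_zsmul_eq / int_mul).

coe_mp: the map (x, t) ↦ (x, ↑t) from ℂ × ℝ with volume restricted to univ ×ˢ Ico 0 (2π) to ℂ × Tor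
preserves the measures: AddCircle.measurePreserving_mk (it is for Ioc; Ioc and Ico agree a.e.:
Ioc_ae_eq_Ico / restrict_congr_set), Measure.prod_restrict, MeasurePreserving.prod with id.

bvd_of: for 0 < η < 1 transfer the integral with coe_mp (the preimage of Wset is the set of the
hypothesis): F (x, ↑t + ↑η) = f (x, t + η) (AddCircle.coe_add). For η = 0 both sides are 0. For
η < 0 substitute θ → θ - η (preserves the measure and Wset):
∫ ‖F (x, θ + η) - F (x, θ)‖ₑ = ∫ ‖F (x, θ) - F (x, θ - η)‖ₑ, the case of -η (enorm_sub_rev).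

ae_back: the a.e. statement pulled back under coe_mp restricted to U.
-/

set_option autoImplicit false

open MeasureTheory Metric Set

namespace Pool.H46.Bi

theorem descend {f : ℂ × ℝ → ℝ} (hf : Measurable f)
    (hper : ∀ (x : ℂ) (t : ℝ), f (x, t + 2 * Real.pi) = f (x, t)) :
    ∃ F : ℂ × Tor → ℝ, Measurable F ∧ ∀ (x : ℂ) (t : ℝ), F (x, (t : Tor)) = f (x, t) := by
  refine ⟨fun q => f (q.1, ((AddCircle.measurableEquivIco (2 * Real.pi) 0 q.2 :
    Ico (0 : ℝ) (0 + 2 * Real.pi)) : ℝ)), ?_, ?_⟩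
  · refine hf.comp (measurable_fst.prodMk ?_)
    exact measurable_subtype_coe.comp
      ((AddCircle.measurableEquivIco (2 * Real.pi) 0).measurable.comp measurable_snd)
  · intro x t
    obtain ⟨t', ht'⟩ : ∃ t' : Ico (0 : ℝ) (0 + 2 * Real.pi),
      t' = AddCircle.equivIco (2 * Real.pi) 0 (t : Tor) := ⟨_, rfl⟩
    have h1 : ((t' : ℝ) : Tor) = (t : Tor) := by
      have h2 := (AddCircle.equivIco (2 * Real.pi) 0).symm_apply_apply (t : Tor)
      rw [← ht'] at h2
      exact h2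
    have h2 : f (x, (t' : ℝ)) = f (x, t) := by
      rw [QuotientAddGroup.eq, AddSubgroup.mem_zmultiples_iff] at h1
      obtain ⟨n, hn⟩ := h1
      have h3 : Function.Periodic (fun s : ℝ => f (x, s)) (2 * Real.pi) := fun s => hper x s
      have h4 := h3.zsmul n (t' : ℝ)
      have h5 : (t' : ℝ) + n • (2 * Real.pi) = t := by rw [hn]; ring
      rw [h5] at h4
      exact h4.symm
    change f (x, ((AddCircle.equivIco (2 * Real.pi) 0 (t : Tor) :
      Ico (0 : ℝ) (0 + 2 * Real.pi)) : ℝ)) = f (x, t)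
    rw [← ht']
    exact h2

private theorem coe_mp : MeasurePreserving (fun q : ℂ × ℝ => (q.1, (q.2 : Tor)))
    ((volume : Measure (ℂ × ℝ)).restrict (univ ×ˢ Ico (0 : ℝ) (2 * Real.pi)))
    (volume : Measure (ℂ × Tor)) := by
  have h1 : (volume : Measure (ℂ × ℝ)).restrict (univ ×ˢ Ico (0 : ℝ) (2 * Real.pi)) =
      (volume : Measure ℂ).prod ((volume : Measure ℝ).restrict (Ioc (0 : ℝ) (0 + 2 * Real.pi))) := by
    have h2 := Measure.prod_restrict (μ := (volume : Measure ℂ)) (ν := (volume : Measure ℝ))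
      (univ : Set ℂ) (Ico (0 : ℝ) (2 * Real.pi))
    rw [Measure.restrict_univ, Measure.restrict_congr_set Ico_ae_eq_Ioc] at h2
    rw [zero_add, h2]
    rfl
  rw [h1]
  exact (MeasurePreserving.id (volume : Measure ℂ)).prod
    (AddCircle.measurePreserving_mk (2 * Real.pi) 0)

private theorem cnv_meas {U : Set ℂ} (hU : IsOpen U) (V : Finset ℂ) (r : ℝ) :
    MeasurableSet (Wset U V r) := by
  have h1 : Wset U V r = Prod.fst ⁻¹' (U ∩ ⋂ v ∈ V, {z : ℂ | r ≤ ‖z - v‖}) := by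
    ext q
    simp only [Wset, mem_ofPred_eq, mem_preimage, mem_inter_iff, mem_iInter]
  rw [h1]
  refine (hU.measurableSet.inter ?_).preimage measurable_fst
  refine Finset.measurableSet_biInter _ fun v _ => ?_
  exact (isClosed_le continuous_const (by fun_prop)).measurableSet

private theorem cnv_pos {U : Set ℂ} (hU : IsOpen U) {V : Finset ℂ} {f : ℂ × ℝ → ℝ}
    {F : ℂ × Tor → ℝ} (hF : Measurable F) (hfF : ∀ (x : ℂ) (t : ℝ), F (x, (t : Tor)) = f (x, t))
    {r C : ℝ}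
    (h : ∀ η ∈ Ioo (0 : ℝ) 1,
      ∫⁻ q in {q : ℂ × ℝ | q.1 ∈ U ∧ q.2 ∈ Ico (0 : ℝ) (2 * Real.pi) ∧ ∀ v ∈ V, r ≤ ‖q.1 - v‖},
        ‖f (q.1, q.2 + η) - f q‖ₑ ≤ ENNReal.ofReal (C * η)) {η : ℝ} (h0 : 0 < η) (h1 : η < 1) :
    ∫⁻ q in Wset U V r, ‖F (q.1, q.2 + (η : Tor)) - F q‖ₑ ≤ ENNReal.ofReal (C * η) := by
  have hm : Measurable (fun q : ℂ × Tor => ‖F (q.1, q.2 + (η : Tor)) - F q‖ₑ) := by
    refine Measurable.enorm ?_
    refine Measurable.sub ?_ hF
    exact hF.comp (measurable_fst.prodMk (measurable_snd.add_const _))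
  have h2 := coe_mp.setLIntegral_comp_preimage (cnv_meas hU V r) hm
  rw [← h2, Measure.restrict_restrict (coe_mp.measurable (cnv_meas hU V r))]
  refine le_trans (le_of_eq ?_) (h η ⟨h0, h1⟩)
  have h3 : (fun q : ℂ × ℝ => (q.1, (q.2 : Tor))) ⁻¹' Wset U V r ∩
      (univ ×ˢ Ico (0 : ℝ) (2 * Real.pi)) =
      {q : ℂ × ℝ | q.1 ∈ U ∧ q.2 ∈ Ico (0 : ℝ) (2 * Real.pi) ∧ ∀ v ∈ V, r ≤ ‖q.1 - v‖} := by
    ext q
    simp only [Wset, mem_ofPred_eq, mem_preimage, mem_inter_iff, mem_prod, mem_univ, true_and]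
    tauto
  rw [h3]
  refine lintegral_congr fun q => ?_
  have h4 : ((q.2 : Tor) + (η : Tor)) = ((q.2 + η : ℝ) : Tor) := (AddCircle.coe_add _ _ _).symm
  simp only
  rw [h4, hfF, hfF]

theorem bvd_of {U : Set ℂ} (hU : IsOpen U) {V : Finset ℂ} {f : ℂ × ℝ → ℝ} (hf : Measurable f)
    {F : ℂ × Tor → ℝ} (hF : Measurable F) (hfF : ∀ (x : ℂ) (t : ℝ), F (x, (t : Tor)) = f (x, t))
    {r C : ℝ}
    (h : ∀ η ∈ Ioo (0 : ℝ) 1,
      ∫⁻ q in {q : ℂ × ℝ | q.1 ∈ U ∧ q.2 ∈ Ico (0 : ℝ) (2 * Real.pi) ∧ ∀ v ∈ V, r ≤ ‖q.1 - v‖},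
        ‖f (q.1, q.2 + η) - f q‖ₑ ≤ ENNReal.ofReal (C * η)) :
    BVd U V r C F := by
  intro η hη
  rcases lt_trichotomy η 0 with h0 | h0 | h0
  · have h1 := cnv_pos hU hF hfF h (η := -η) (by linarith) (by
      rw [abs_of_neg h0] at hη; exact hη)
    rw [abs_of_neg h0]
    refine le_trans (le_of_eq ?_) h1
    have hmp : MeasurePreserving (fun q : ℂ × Tor => (q.1, q.2 + ((-η : ℝ) : Tor)))
        (volume : Measure (ℂ × Tor)) (volume : Measure (ℂ × Tor)) :=
      (MeasurePreserving.id (volume : Measure ℂ)).prod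
        (measurePreserving_add_right (volume : Measure Tor) ((-η : ℝ) : Tor))
    have hm : Measurable (fun q : ℂ × Tor => ‖F (q.1, q.2 + (η : Tor)) - F q‖ₑ) := by
      refine Measurable.enorm ?_
      refine Measurable.sub ?_ hF
      exact hF.comp (measurable_fst.prodMk (measurable_snd.add_const _))
    have h2 := hmp.setLIntegral_comp_preimage (cnv_meas hU V r) hm
    have h3 : (fun q : ℂ × Tor => (q.1, q.2 + ((-η : ℝ) : Tor))) ⁻¹' Wset U V r =
      Wset U V r := rfl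
    rw [← h2, h3]
    refine lintegral_congr fun q => ?_
    have h4 : q.2 + ((-η : ℝ) : Tor) + (η : Tor) = q.2 := by
      rw [AddCircle.coe_neg, neg_add_cancel_right]
    simp only
    rw [h4, enorm_sub_rev]
  · subst h0
    have h1 : (fun q : ℂ × Tor => ‖F (q.1, q.2 + ((0 : ℝ) : Tor)) - F q‖ₑ) = fun _ => 0 := by
      funext q
      rw [AddCircle.coe_zero, add_zero]
      simp
    rw [h1]
    simp
  · rw [abs_of_pos h0] at hη ⊢
    exact cnv_pos hU hF hfF h h0 hη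

theorem ae_back {U : Set ℂ} (hU : IsOpen U) {f : ℂ × ℝ → ℝ}
    {F : ℂ × Tor → ℝ} (hF : Measurable F) (hfF : ∀ (x : ℂ) (t : ℝ), F (x, (t : Tor)) = f (x, t))
    {c : ℝ}
    (h : ∀ᵐ q : ℂ × Tor ∂((volume : Measure (ℂ × Tor)).restrict (U ×ˢ univ)), F q = c) :
    ∀ᵐ q : ℂ × ℝ ∂((volume : Measure (ℂ × ℝ)).restrict (U ×ˢ Ico (0 : ℝ) (2 * Real.pi))),
      f q = c := by
  have hmU : MeasurableSet (U ×ˢ (univ : Set Tor)) := (hU.prod isOpen_univ).measurableSet
  rw [ae_restrict_iff' hmU] at h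
  have h1 := coe_mp.quasiMeasurePreserving.ae h
  rw [ae_restrict_iff' (MeasurableSet.univ.prod measurableSet_Ico)] at h1
  rw [ae_restrict_iff' (hU.measurableSet.prod measurableSet_Ico)]
  filter_upwards [h1] with q hq hq'
  have h2 := hq ⟨mem_univ _, hq'.2⟩ ⟨hq'.1, mem_univ _⟩
  rw [hfF] at h2
  exact h2

end Pool.H46.Bi
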