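import Pool.Agent.H46.Bi.Base

/-!
# [H46 BI OPN] the reached states form an open set (50-80 lines)

reach_nhds: induction on Reach.
 - str: the map (y, φ, s) ↦ y + s e φ is continuous, [0,t] is compact, U open: tube lemma
   (IsCompact.eventually_forall_of_forall_eventually, or generalized_tube_lemma, or
   isOpen preimage + nhdsSet). The other field 0 ≤ t does not depend on the state.
 - bounce: t and the chart stay fixed; x ∈ U, x ∈ ball p ε, x + t e θ ∈ ball p ε and
   side p α x * side p α (x + t e θ) < 0 are open conditions on (x, θ).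
 - trans: the map Phi g t is continuous (Mo.act_continuous, Mo.dir_continuous, e_continuous);
   intersect the neighbourhood for the first part with the preimage of the neighbourhood of the
   second one.
reach_isOpen: isOpen_iff_mem_nhds.
-/

set_option autoImplicit false

open MeasureTheory Metric Set Filter Topology

namespace Pool.H46.Bi

theorem Phi_continuous (g : Mo) (t : ℝ) : Continuous (Phi g t) := by
  unfold Phi
  refine Continuous.prodMk ?_ ?_
  · exact g.act_continuous.comp
      (continuous_fst.add (continuous_const.mul (e_continuous.comp continuous_snd)))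
  · exact g.dir_continuous.comp continuous_snd

theorem reach_nhds {U : Set ℂ} (hU : IsOpen U) {t : ℝ} {g : Mo} {x : ℂ} {θ : Tor}
    (h : Reach U t g x θ) : ∀ᶠ q : ℂ × Tor in 𝓝 (x, θ), Reach U t g q.1 q.2 := by
  induction h with
  | str t x θ ht hs =>
    have h1 : ∀ᶠ q : ℂ × Tor in 𝓝 (x, θ), ∀ s ∈ Icc (0 : ℝ) t, q.1 + s * e q.2 ∈ U := by
      refine IsCompact.eventually_forall_of_forall_eventually (isCompact_Icc)
        (P := fun (q : ℂ × Tor) (s : ℝ) => q.1 + s * e q.2 ∈ U) ?_
      intro s hs'
      have hc : Continuous (fun z : (ℂ × Tor) × ℝ => z.1.1 + (z.2 : ℂ) * e z.1.2) := by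
        refine (continuous_fst.comp continuous_fst).add ?_
        exact (Complex.continuous_ofReal.comp continuous_snd).mul
          (e_continuous.comp (continuous_snd.comp continuous_fst))
      exact hc.continuousAt.eventually_mem (hU.mem_nhds (hs s hs'))
    exact h1.mono fun q hq => Reach.str t q.1 q.2 ht hq
  | bounce t x θ p α ε ht hc hx hxb hyb hside =>
    have hc1 : Continuous (fun q : ℂ × Tor => q.1 + (t : ℂ) * e q.2) :=
      continuous_fst.add (continuous_const.mul (e_continuous.comp continuous_snd))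
    have h1 : ∀ᶠ q : ℂ × Tor in 𝓝 (x, θ), q.1 ∈ U :=
      continuous_fst.continuousAt.eventually_mem (hU.mem_nhds hx)
    have h2 : ∀ᶠ q : ℂ × Tor in 𝓝 (x, θ), q.1 ∈ ball p ε :=
      continuous_fst.continuousAt.eventually_mem (isOpen_ball.mem_nhds hxb)
    have h3 : ∀ᶠ q : ℂ × Tor in 𝓝 (x, θ), q.1 + (t : ℂ) * e q.2 ∈ ball p ε :=
      hc1.continuousAt.eventually_mem (isOpen_ball.mem_nhds hyb)
    have hc2 : Continuous (fun q : ℂ × Tor =>
        side p α q.1 * side p α (q.1 + (t : ℂ) * e q.2)) :=
      ((side_continuous p α).comp continuous_fst).mul ((side_continuous p α).comp hc1)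
    have h4 : ∀ᶠ q : ℂ × Tor in 𝓝 (x, θ),
        side p α q.1 * side p α (q.1 + (t : ℂ) * e q.2) ∈ Iio (0 : ℝ) :=
      hc2.continuousAt.eventually_mem (isOpen_Iio.mem_nhds hside)
    filter_upwards [h1, h2, h3, h4] with q a1 a2 a3 a4
    exact Reach.bounce t q.1 q.2 p α ε ht hc a1 a2 a3 a4
  | trans t t' g g' x θ _ _ ih1 ih2 =>
    have h0 : Tendsto (Phi g t) (𝓝 (x, θ)) (𝓝 (g.act (x + t * e θ), g.dir θ)) :=
      (Phi_continuous g t).tendsto (x, θ)
    have h1 : ∀ᶠ q : ℂ × Tor in 𝓝 (x, θ), Reach U t' g' (Phi g t q).1 (Phi g t q).2 :=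
      h0.eventually (p := fun q : ℂ × Tor => Reach U t' g' q.1 q.2) ih2
    filter_upwards [ih1, h1] with q a1 a2
    exact Reach.trans t t' g g' q.1 q.2 a1 a2

theorem reach_isOpen {U : Set ℂ} (hU : IsOpen U) (t : ℝ) (g : Mo) :
    IsOpen {q : ℂ × Tor | Reach U t g q.1 q.2} := by
  rw [isOpen_iff_mem_nhds]
  rintro ⟨x, θ⟩ h
  exact reach_nhds hU h

end Pool.H46.Bi
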