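import Pool.Agent.H46.Bi.Half
import Pool.Agent.H46.Bi.Opn

/-!
# [H46 BI PEN] pencils near a state
-/

set_option autoImplicit false

open MeasureTheory Metric Set Filter Topology

namespace Pool.H46.Bi

theorem at_pencil {U : Set ℂ} (hU : IsOpen U) {T : ℝ} {g : Mo} {x : ℂ} {θ : Tor}
    (h : At U T g x θ) (ρ : ℝ) (hρ : 0 < ρ) :
    ∃ N ∈ 𝓝 (x, θ), ∀ q ∈ N, ∀ q' ∈ N, q.1 + T * e q.2 = q'.1 + T * e q'.2 →
      ((∃ g', Reach U T g' q.1 q.2 ∧ Reach U T g' q'.1 q'.2 ∧
        ‖g'.act (q.1 + T * e q.2) - g.act (x + T * e θ)‖ ≤ ρ) ∨ q.1 + T * e q.2 ∈ Exc U) := by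
  have hcontT : ∀ T : ℝ, Continuous (fun q : ℂ × Tor => g.act (q.1 + T * e q.2)) := by
    intro T
    exact g.act_continuous.comp
      (continuous_fst.add (continuous_const.mul (e_continuous.comp continuous_snd)))
  rcases h with h | ⟨⟨α, ε, hc⟩, t0, ht0, ht0T, h⟩
  · have e1 := reach_nhds hU h
    have e2 : ∀ᶠ q : ℂ × Tor in 𝓝 (x, θ),
        g.act (q.1 + T * e q.2) ∈ ball (g.act (x + T * e θ)) ρ :=
      (hcontT T).continuousAt.eventually_mem (ball_mem_nhds _ hρ)
    refine ⟨{q | Reach U T g q.1 q.2 ∧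
      g.act (q.1 + T * e q.2) ∈ ball (g.act (x + T * e θ)) ρ}, e1.and e2, ?_⟩
    intro q hq q' hq' _
    exact Or.inl ⟨g, hq.1, hq'.1, (mem_ball_iff_norm.mp hq.2).le⟩
  · set P := g.act (x + T * e θ) with hPdef
    set t1 := max t0 (T - ε / 2) with ht1
    have ht1T : t1 < T := max_lt ht0T (by linarith [hc.1])
    have ht1' : t0 ≤ t1 := le_max_left _ _
    have ht1ε : T - t1 < ε := by
      have := le_max_right t0 (T - ε / 2)
      linarith [hc.1]
    have hr := h t1 ⟨ht1', ht1T⟩
    set Y0 := g.act (x + t1 * e θ) with hY0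
    have hY0U : Y0 ∈ U := Reach.end_mem hU hr
    have hY0b : Y0 ∈ ball P ε := by
      rw [mem_ball_iff_norm, hY0, hPdef, Mo.norm_act_sub]
      have : x + t1 * e θ - (x + T * e θ) = ((t1 - T : ℝ) : ℂ) * e θ := by push_cast; ring
      rw [this, norm_mul, norm_e, mul_one, Complex.norm_real, Real.norm_eq_abs,
        abs_of_nonpos (by linarith)]
      linarith
    have hs0 : side P α Y0 ≠ 0 := side_ne hU hc hY0U hY0b
    have e1 := reach_nhds hU hr
    have e2 : ∀ᶠ q : ℂ × Tor in 𝓝 (x, θ), g.act (q.1 + t1 * e q.2) ∈ ball P ε :=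
      (hcontT t1).continuousAt.eventually_mem (isOpen_ball.mem_nhds hY0b)
    have e3 : ∀ᶠ q : ℂ × Tor in 𝓝 (x, θ),
        side P α (g.act (q.1 + t1 * e q.2)) * side P α Y0 ∈ Ioi (0 : ℝ) := by
      have hc3 : Continuous (fun q : ℂ × Tor =>
          side P α (g.act (q.1 + t1 * e q.2)) * side P α Y0) :=
        ((side_continuous P α).comp (hcontT t1)).mul continuous_const
      apply hc3.continuousAt.eventually_mem
      exact Ioi_mem_nhds (mul_self_pos.mpr hs0)
    have e4 : ∀ᶠ q : ℂ × Tor in 𝓝 (x, θ), g.act (q.1 + T * e q.2) ∈ ball P (min ε ρ) :=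
      (hcontT T).continuousAt.eventually_mem (ball_mem_nhds _ (lt_min hc.1 hρ))
    refine ⟨{q | Reach U t1 g q.1 q.2 ∧ g.act (q.1 + t1 * e q.2) ∈ ball P ε ∧
      side P α (g.act (q.1 + t1 * e q.2)) * side P α Y0 ∈ Ioi (0 : ℝ) ∧
      g.act (q.1 + T * e q.2) ∈ ball P (min ε ρ)}, e1.and (e2.and (e3.and e4)), ?_⟩
    have key : ∀ q : ℂ × Tor, q ∈ {q : ℂ × Tor | Reach U t1 g q.1 q.2 ∧
        g.act (q.1 + t1 * e q.2) ∈ ball P ε ∧
        side P α (g.act (q.1 + t1 * e q.2)) * side P α Y0 ∈ Ioi (0 : ℝ) ∧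
        g.act (q.1 + T * e q.2) ∈ ball P (min ε ρ)} →
        (0 < side P α Y0 * side P α (g.act (q.1 + T * e q.2)) → Reach U T g q.1 q.2) ∧
        (side P α Y0 * side P α (g.act (q.1 + T * e q.2)) < 0 →
          Reach U T (Mo.mul (Mo.refl P α) g) q.1 q.2) := by
      rintro q ⟨h1, h2, h3, h4⟩
      have hYU : g.act (q.1 + t1 * e q.2) ∈ U := Reach.end_mem hU h1
      have hZ : g.act (q.1 + t1 * e q.2) + ((T - t1 : ℝ) : ℂ) * e (g.dir q.2)
          = g.act (q.1 + T * e q.2) := by
        rw [← Mo.act_line]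
        congr 1
        push_cast; ring
      have hZb : g.act (q.1 + T * e q.2) ∈ ball P ε := ball_subset_ball (min_le_left _ _) h4
      have hsum : t1 + (T - t1) = T := by ring
      have h3' : 0 < side P α (g.act (q.1 + t1 * e q.2)) * side P α Y0 := h3
      have hsq : 0 < side P α Y0 * side P α Y0 := mul_self_pos.mpr hs0
      constructor
      · intro h5
        have h6 : Reach U (T - t1) Mo.one (g.act (q.1 + t1 * e q.2)) (g.dir q.2) := by
          apply Reach.str _ _ _ (by linarith)
          apply seg_mem hU hc (by linarith) hYU h2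
          · rw [hZ]; exact hZb
          · rw [hZ]
            have h7 := mul_pos h3' h5
            have h8 : side P α (g.act (q.1 + t1 * e q.2)) * side P α Y0 *
                (side P α Y0 * side P α (g.act (q.1 + T * e q.2)))
                = (side P α Y0 * side P α Y0) * (side P α (g.act (q.1 + t1 * e q.2)) *
                  side P α (g.act (q.1 + T * e q.2))) := by ring
            rw [h8] at h7
            exact (mul_pos_iff_of_pos_left hsq).mp h7
        have h9 := Reach.trans _ _ _ _ _ _ h1 h6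
        rwa [Mo.one_mul', hsum] at h9
      · intro h5
        have h6 : Reach U (T - t1) (Mo.refl P α) (g.act (q.1 + t1 * e q.2)) (g.dir q.2) := by
          apply Reach.bounce _ _ _ P α ε (by linarith) hc hYU h2
          · rw [hZ]; exact hZb
          · rw [hZ]
            have h7 := mul_neg_of_pos_of_neg h3' h5
            have h8 : side P α (g.act (q.1 + t1 * e q.2)) * side P α Y0 *
                (side P α Y0 * side P α (g.act (q.1 + T * e q.2)))
                = (side P α Y0 * side P α Y0) * (side P α (g.act (q.1 + t1 * e q.2)) *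
                  side P α (g.act (q.1 + T * e q.2))) := by ring
            rw [h8] at h7
            by_contra hcon
            have h10 := mul_nonneg hsq.le (not_lt.mp hcon)
            linarith
        have h9 := Reach.trans _ _ _ _ _ _ h1 h6
        rwa [hsum] at h9
    intro q hq q' hq' hqq
    rcases lt_trichotomy (side P α Y0 * side P α (g.act (q.1 + T * e q.2))) 0 with h1 | h1 | h1
    · left
      refine ⟨Mo.mul (Mo.refl P α) g, (key q hq).2 h1, (key q' hq').2 (by rw [← hqq]; exact h1), ?_⟩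
      rw [Mo.mul_act, Mo.norm_refl_sub]
      exact ((mem_ball_iff_norm.mp hq.2.2.2).le).trans (min_le_right _ _)
    · right
      have h2 : side P α (g.act (q.1 + T * e q.2)) = 0 := by
        rcases mul_eq_zero.mp h1 with h | h
        · exact absurd h hs0
        · exact h
      exact ⟨g, hq.1.gen, P, α, ε, hc, h2⟩
    · left
      refine ⟨g, (key q hq).1 h1, (key q' hq').1 (by rw [← hqq]; exact h1), ?_⟩
      exact ((mem_ball_iff_norm.mp hq.2.2.2).le).trans (min_le_right _ _)

end Pool.H46.Bi
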