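import Pool.Agent.H46.Bi.Half

/-!
# [H46 BI SPL] the state at an intermediate time
-/

set_option autoImplicit false

open MeasureTheory Metric Set

namespace Pool.H46.Bi

private theorem act_compose (g g' : Mo) (x : ℂ) (θ : Tor) (t t' : ℝ) :
    (Mo.mul g' g).act (x + ((t + t' : ℝ) : ℂ) * e θ)
      = g'.act (g.act (x + t * e θ) + t' * e (g.dir θ)) := by
  rw [Mo.mul_act, ← Mo.act_line]
  congr 2
  push_cast; ring

theorem at_trans {U : Set ℂ} {t T : ℝ} {g g' : Mo} {x : ℂ} {θ : Tor} (h : Reach U t g x θ)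
    (h' : At U T g' (g.act (x + t * e θ)) (g.dir θ)) : At U (t + T) (Mo.mul g' g) x θ := by
  rcases h' with h' | ⟨⟨α, ε, hc⟩, t0, ht0, ht0T, h'⟩
  · exact Or.inl (Reach.trans _ _ _ _ _ _ h h')
  · refine Or.inr ⟨⟨α, ε, ?_⟩, t + t0, by linarith [h.nonneg], by linarith, ?_⟩
    · rw [act_compose]; exact hc
    · intro t1 ht1
      have h2 := h' (t1 - t) ⟨by linarith [ht1.1], by linarith [ht1.2]⟩
      have h3 := Reach.trans _ _ _ _ _ _ h h2
      have : t + (t1 - t) = t1 := by ring
      rwa [this] at h3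

theorem at_exists {U : Set ℂ} (hU : IsOpen U) {t : ℝ} {g' : Mo} {x : ℂ} {θ : Tor}
    (h : Reach U t g' x θ) (T : ℝ) (hT : 0 ≤ T) (hTt : T ≤ t) : ∃ g, At U T g x θ := by
  induction h generalizing T with
  | str t x θ ht hs =>
    exact ⟨Mo.one, Or.inl (Reach.str T x θ hT (fun s hs' => hs s ⟨hs'.1, hs'.2.trans hTt⟩))⟩
  | bounce t x θ p α ε ht hc hx hxb hyb hlt =>
    have hTb : x + T * e θ ∈ ball p ε := ball_line hxb hyb ⟨hT, hTt⟩
    have ha0 : side p α x ≠ 0 := side_ne hU hc hx hxb
    rcases lt_trichotomy (side p α x * side p α (x + T * e θ)) 0 with h1 | h1 | h1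
    · exact ⟨_, Or.inl (Reach.bounce T x θ p α ε hT hc hx hxb hTb h1)⟩
    · have h2 : side p α (x + T * e θ) = 0 := by
        rcases mul_eq_zero.mp h1 with h | h
        · exact absurd h ha0
        · exact h
      obtain ⟨_, ε', hc', _⟩ := sub_chart hc hTb h2
      have hT0 : 0 < T := by
        rcases hT.lt_or_eq with h | h
        · exact h
        · exfalso
          rw [← h] at h2
          simp at h2
          exact ha0 h2
      refine ⟨Mo.one, Or.inr ⟨⟨α, ε', ?_⟩, 0, le_refl _, hT0, ?_⟩⟩
      · rw [Mo.one_act]; exact hc'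
      · intro t1 ht1
        have htb : x + t1 * e θ ∈ ball p ε := ball_line hxb hyb ⟨ht1.1, by linarith [ht1.2]⟩
        apply Reach.str t1 x θ ht1.1
        apply seg_mem hU hc ht1.1 hx hxb htb
        rw [side_line] at h2 ⊢
        have h3 : side p α x + t1 * (e (θ - α)).im = side p α x * ((T - t1) / T) := by
          have h4 : (e (θ - α)).im = - side p α x / T := by
            field_simp; linarith
          rw [h4]; field_simp; ring
        rw [h3]
        have h5 : 0 < (T - t1) / T := div_pos (by linarith [ht1.2]) hT0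
        have h6 : 0 < side p α x * side p α x := mul_self_pos.mpr ha0
        have h7 := mul_pos h6 h5
        linarith
    · exact ⟨Mo.one, Or.inl (Reach.str T x θ hT (seg_mem hU hc hT hx hxb hTb h1))⟩
  | trans t t' g g' x θ h1 h2 ih1 ih2 =>
    rcases le_or_gt T t with hle | hgt
    · exact ih1 T hT hle
    · obtain ⟨g2, hg2⟩ := ih2 (T - t) (by linarith) (by linarith)
      have h3 := at_trans h1 hg2
      have : t + (T - t) = T := by ring
      rw [this] at h3
      exact ⟨_, h3⟩

end Pool.H46.Bi
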