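import Pool.Agent.H46.Bi.Dic
import Pool.Agent.H46.Bi.Spl
import Pool.Agent.H46.Bi.Pen

/-!
# [H46 BI LOC] good pencils away from the vertices
-/

set_option autoImplicit false

open MeasureTheory Metric Set Filter Topology

namespace Pool.H46.Bi

/-- two nearby states whose rays meet at time T reach the same motion, away from Vt, or the
meeting point is exceptional -/
def Good (U : Set ℂ) (Vt : Finset ℂ) (r T : ℝ) (q0 : ℂ × Tor) : Prop :=
  ∃ N ∈ 𝓝 q0, ∀ q ∈ N, ∀ q' ∈ N, q.1 + T * e q.2 = q'.1 + T * e q'.2 →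
    ((∃ g, Reach U T g q.1 q.2 ∧ Reach U T g q'.1 q'.2 ∧
      ∀ v ∈ Vt, r ≤ ‖g.act (q.1 + T * e q.2) - v‖) ∨ q.1 + T * e q.2 ∈ Exc U)

private theorem good_of_at {U : Set ℂ} (hU : IsOpen U) (Vt : Finset ℂ) {r0 : ℝ} (hr0 : 0 < r0)
    {T : ℝ} {g : Mo} {x : ℂ} {θ : Tor} (h : At U T g x θ)
    (hfar : ∀ v ∈ Vt, r0 ≤ ‖g.act (x + T * e θ) - v‖) : Good U Vt (r0 / 2) T (x, θ) := by
  obtain ⟨N, hN, hp⟩ := at_pencil hU h (r0 / 2) (by positivity)
  refine ⟨N, hN, fun q hq q' hq' hqq => ?_⟩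
  rcases hp q hq q' hq' hqq with ⟨g', h1, h2, h3⟩ | h1
  · left
    refine ⟨g', h1, h2, fun v hv => ?_⟩
    have h4 := hfar v hv
    have h5 : ‖g.act (x + T * e θ) - v‖ ≤ ‖g'.act (q.1 + T * e q.2) - v‖
        + ‖g'.act (q.1 + T * e q.2) - g.act (x + T * e θ)‖ := by
      have h6 : g.act (x + T * e θ) - v = (g'.act (q.1 + T * e q.2) - v)
          - (g'.act (q.1 + T * e q.2) - g.act (x + T * e θ)) := by ring
      rw [h6]
      exact norm_sub_le _ _
    linarith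
  · right; exact h1

theorem good_local {U : Set ℂ} (hP : Poly U) (Vt : Finset ℂ)
    (r0 : ℝ) (hr0 : 0 < r0) (hcone : ∀ v ∈ Vt, Cone U v (5 * r0))
    (hsep : ∀ v ∈ Vt, ∀ w ∈ Vt, v ≠ w → 4 * r0 ≤ ‖v - w‖)
    {x : ℂ} {θ : Tor} (hx : x ∈ U) (hns : NS U x θ) (T : ℝ) (hT : 0 ≤ T) :
    Good U Vt (r0 / 2) T (x, θ) ∨ Good U Vt (r0 / 2) (T + 2 * r0) (x, θ) := by
  obtain ⟨t, ht, g', hg'⟩ := reach_unbounded hP hx hns T
  obtain ⟨g, hg⟩ := at_exists hP.isOpen hg' T hT ht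
  by_cases hfar : ∀ v ∈ Vt, r0 ≤ ‖g.act (x + T * e θ) - v‖
  · left
    exact good_of_at hP.isOpen Vt hr0 hg hfar
  · right
    obtain ⟨v, hv, hclose⟩ : ∃ v ∈ Vt, ‖g.act (x + T * e θ) - v‖ < r0 := by
      by_contra hcon
      apply hfar
      intro v hv
      by_contra h
      exact hcon ⟨v, hv, not_le.mp h⟩
    set P := g.act (x + T * e θ) with hPdef
    obtain ⟨t1, ht10, ht1T, ht1d, hr1⟩ : ∃ t1 : ℝ, 0 ≤ t1 ∧ t1 ≤ T ∧ T - t1 ≤ r0 / 2 ∧
        Reach U t1 g x θ := by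
      rcases hg with h | ⟨_, t0, ht0, ht0T, h⟩
      · exact ⟨T, hT, le_refl _, by linarith, h⟩
      · refine ⟨max t0 (T - r0 / 2), le_trans ht0 (le_max_left _ _), ?_, ?_, ?_⟩
        · exact max_le ht0T.le (by linarith)
        · have := le_max_right t0 (T - r0 / 2)
          linarith
        · exact h _ ⟨le_max_left _ _, max_lt ht0T (by linarith)⟩
    set y1 := g.act (x + t1 * e θ) with hy1
    set u1 := g.dir θ with hu1
    have hPy : y1 + ((T - t1 : ℝ) : ℂ) * e u1 = P := by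
      rw [hy1, hu1, ← Mo.act_line, hPdef]
      congr 1
      push_cast; ring
    have hy1U : y1 ∈ U := Reach.end_mem hP.isOpen hr1
    have hns1 : NS U y1 u1 := ns_trans hns hr1
    obtain ⟨t2, ht2, g2', hg2'⟩ := reach_unbounded hP hy1U hns1 (T - t1 + 2 * r0)
    obtain ⟨g2, hg2⟩ := at_exists hP.isOpen hg2' (T - t1 + 2 * r0) (by linarith) ht2
    have hy1v : ‖y1 - v‖ < r0 + r0 / 2 := by
      have h1 : y1 - v = (P - v) - ((T - t1 : ℝ) : ℂ) * e u1 := by
        rw [← hPy]; ring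
      have h2 : ‖((T - t1 : ℝ) : ℂ) * e u1‖ = T - t1 := by
        rw [norm_mul, norm_e, mul_one, Complex.norm_real, Real.norm_eq_abs,
          abs_of_nonneg (by linarith)]
      have h3 := norm_sub_le (P - v) (((T - t1 : ℝ) : ℂ) * e u1)
      rw [h2] at h3
      rw [h1]
      linarith
    have hfix : g2.act v = v := by
      apply at_fix hP.isOpen (hcone v hv) hg2
      linarith
    have hpos : g2.act (y1 + ((T - t1 + 2 * r0 : ℝ) : ℂ) * e u1)
        = g2.act (P + ((2 * r0 : ℝ) : ℂ) * e u1) := by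
      congr 1
      rw [← hPy]
      push_cast; ring
    have hnorm2 : ‖((2 * r0 : ℝ) : ℂ) * e u1‖ = 2 * r0 := by
      rw [norm_mul, norm_e, mul_one, Complex.norm_real, Real.norm_eq_abs,
        abs_of_nonneg (by linarith)]
    have hdist : ‖g2.act (P + ((2 * r0 : ℝ) : ℂ) * e u1) - v‖
        = ‖(P - v) + ((2 * r0 : ℝ) : ℂ) * e u1‖ := by
      have h1 : g2.act (P + ((2 * r0 : ℝ) : ℂ) * e u1) - v
          = g2.act (P + ((2 * r0 : ℝ) : ℂ) * e u1) - g2.act v := by rw [hfix]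
      rw [h1, Mo.norm_act_sub]
      congr 1
      ring
    have hlow : r0 ≤ ‖g2.act (P + ((2 * r0 : ℝ) : ℂ) * e u1) - v‖ := by
      rw [hdist]
      have h1 := norm_sub_le ((P - v) + ((2 * r0 : ℝ) : ℂ) * e u1) (P - v)
      have h2 : (P - v) + ((2 * r0 : ℝ) : ℂ) * e u1 - (P - v) = ((2 * r0 : ℝ) : ℂ) * e u1 := by ring
      rw [h2, hnorm2] at h1
      linarith
    have hup : ‖g2.act (P + ((2 * r0 : ℝ) : ℂ) * e u1) - v‖ < 3 * r0 := by
      rw [hdist]
      have h1 := norm_add_le (P - v) (((2 * r0 : ℝ) : ℂ) * e u1)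
      rw [hnorm2] at h1
      linarith
    have hat : At U (T + 2 * r0) (Mo.mul g2 g) x θ := by
      have h1 := at_trans hr1 hg2
      have h2 : t1 + (T - t1 + 2 * r0) = T + 2 * r0 := by ring
      rwa [h2] at h1
    apply good_of_at hP.isOpen Vt hr0 hat
    have hend : (Mo.mul g2 g).act (x + ((T + 2 * r0 : ℝ) : ℂ) * e θ)
        = g2.act (P + ((2 * r0 : ℝ) : ℂ) * e u1) := by
      rw [Mo.mul_act, hPdef, hu1, ← Mo.act_line]
      congr 2
      push_cast; ring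
    intro w hw
    rw [hend]
    by_cases hvw : w = v
    · rw [hvw]; exact hlow
    · have h1 := hsep w hw v hv hvw
      have h2 : ‖w - v‖ ≤ ‖g2.act (P + ((2 * r0 : ℝ) : ℂ) * e u1) - v‖
          + ‖g2.act (P + ((2 * r0 : ℝ) : ℂ) * e u1) - w‖ := by
        have h3 : w - v = (g2.act (P + ((2 * r0 : ℝ) : ℂ) * e u1) - v)
            - (g2.act (P + ((2 * r0 : ℝ) : ℂ) * e u1) - w) := by ring
        rw [h3]
        exact norm_sub_le _ _
      linarith

end Pool.H46.Bi
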