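import Pool.Agent.H46.Bi.Mdef
import Pool.Agent.H46.Bi.Loc
import Pool.Agent.H46.Bi.Cnt

/-!
# [H46 BI COV] a uniform size of the pencils
-/

set_option autoImplicit false

open MeasureTheory Metric Set Filter Topology

namespace Pool.H46.Bi

theorem good_mono {U : Set ℂ} {Vt : Finset ℂ} {r r' T : ℝ} {q0 : ℂ × Tor} (h : Good U Vt r T q0)
    (hr : r' ≤ r) : Good U Vt r' T q0 := by
  obtain ⟨N, hN, hp⟩ := h
  refine ⟨N, hN, fun q hq q' hq' hqq => ?_⟩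
  rcases hp q hq q' hq' hqq with ⟨g', h1, h2, h3⟩ | h1
  · exact Or.inl ⟨g', h1, h2, fun v hv => hr.trans (h3 v hv)⟩
  · exact Or.inr h1

private theorem coe_cont : Continuous (fun η : ℝ => (η : Tor)) :=
  AddCircle.continuous_mk' _

theorem conds_local {U : Set ℂ} (hU : IsOpen U) {V : Finset ℂ} {r T : ℝ} {q0 : ℂ × Tor}
    (h : Good U V r T q0) (hq : q0.1 ∈ U) (hr : ∀ v ∈ V, r < ‖q0.1 - v‖) :
    ∃ N ∈ 𝓝 q0, ∃ η0 : ℝ, 0 < η0 ∧ ∀ η : ℝ, |η| < η0 → ∀ q ∈ N,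
      q.1 + T * e q.2 ∈ Exc U ∨ Conds U V r T η q := by
  obtain ⟨N0, hN0, hp⟩ := h
  obtain ⟨ρ, hρ, hρU⟩ := Metric.isOpen_iff.mp hU q0.1 hq
  -- the shifted state
  have hA : Continuous (fun z : (ℂ × Tor) × ℝ => shp T z.2 z.1.1 z.1.2) := by
    unfold shp
    have h1 : Continuous (fun z : (ℂ × Tor) × ℝ => e z.1.2) :=
      e_continuous.comp (continuous_snd.comp continuous_fst)
    have h2 : Continuous (fun z : (ℂ × Tor) × ℝ => e (z.1.2 - ((z.2 : ℝ) : Tor))) :=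
      e_continuous.comp ((continuous_snd.comp continuous_fst).sub (coe_cont.comp continuous_snd))
    exact (continuous_fst.comp continuous_fst).add (continuous_const.mul (h1.sub h2))
  have hB : Continuous (fun z : (ℂ × Tor) × ℝ => z.1.2 - ((z.2 : ℝ) : Tor)) :=
    (continuous_snd.comp continuous_fst).sub (coe_cont.comp continuous_snd)
  have hC : Continuous (fun z : (ℂ × Tor) × ℝ =>
      z.1.1 + ((T * Real.sin z.2 : ℝ) : ℂ) * nrm z.1.2) := by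
    unfold nrm
    have h1 : Continuous (fun z : (ℂ × Tor) × ℝ => Complex.I * e z.1.2) :=
      continuous_const.mul (e_continuous.comp (continuous_snd.comp continuous_fst))
    have h2 : Continuous (fun z : (ℂ × Tor) × ℝ => ((T * Real.sin z.2 : ℝ) : ℂ)) :=
      Complex.continuous_ofReal.comp (continuous_const.mul (Real.continuous_sin.comp continuous_snd))
    exact (continuous_fst.comp continuous_fst).add (h2.mul h1)
  have hA0 : shp T 0 q0.1 q0.2 = q0.1 := by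
    unfold shp
    simp
  have hB0 : q0.2 - ((0 : ℝ) : Tor) = q0.2 := by simp
  have hC0 : q0.1 + ((T * Real.sin 0 : ℝ) : ℂ) * nrm q0.2 = q0.1 := by simp
  have e1 : ∀ᶠ z : (ℂ × Tor) × ℝ in 𝓝 (q0, (0 : ℝ)),
      (shp T z.2 z.1.1 z.1.2, z.1.2 - ((z.2 : ℝ) : Tor)) ∈ N0 := by
    have h1 : Continuous (fun z : (ℂ × Tor) × ℝ =>
        (shp T z.2 z.1.1 z.1.2, z.1.2 - ((z.2 : ℝ) : Tor))) := hA.prodMk hB
    apply h1.continuousAt.eventually_mem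
    simp only [hA0, hB0]
    exact hN0
  have e2 : ∀ᶠ z : (ℂ × Tor) × ℝ in 𝓝 (q0, (0 : ℝ)), z.1 ∈ N0 := by
    apply continuous_fst.continuousAt.eventually_mem
    exact hN0
  have e3 : ∀ᶠ z : (ℂ × Tor) × ℝ in 𝓝 (q0, (0 : ℝ)), shp T z.2 z.1.1 z.1.2 ∈ ball q0.1 ρ := by
    apply hA.continuousAt.eventually_mem
    simp only [hA0]
    exact ball_mem_nhds _ hρ
  have e4 : ∀ᶠ z : (ℂ × Tor) × ℝ in 𝓝 (q0, (0 : ℝ)),
      z.1.1 + ((T * Real.sin z.2 : ℝ) : ℂ) * nrm z.1.2 ∈ ball q0.1 ρ := by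
    apply hC.continuousAt.eventually_mem
    simp only [hC0]
    exact ball_mem_nhds _ hρ
  have e5 : ∀ᶠ z : (ℂ × Tor) × ℝ in 𝓝 (q0, (0 : ℝ)),
      ∀ v ∈ V, r < ‖shp T z.2 z.1.1 z.1.2 - v‖ := by
    rw [Filter.eventually_all_finset]
    intro v hv
    have h1 : Continuous (fun z : (ℂ × Tor) × ℝ => ‖shp T z.2 z.1.1 z.1.2 - v‖) :=
      (hA.sub continuous_const).norm
    have h2 : ∀ᶠ z : (ℂ × Tor) × ℝ in 𝓝 (q0, (0 : ℝ)), ‖shp T z.2 z.1.1 z.1.2 - v‖ ∈ Ioi r := by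
      apply h1.continuousAt.eventually_mem
      simp only [hA0]
      exact Ioi_mem_nhds (hr v hv)
    exact h2
  have hall := e1.and (e2.and (e3.and (e4.and e5)))
  rw [nhds_prod_eq] at hall
  obtain ⟨pa, ha, pb, hb, hab⟩ := Filter.eventually_prod_iff.mp hall
  obtain ⟨η0, hη0, hball⟩ := Metric.eventually_nhds_iff.mp hb
  refine ⟨{q | pa q}, ha, η0, hη0, fun η hη q hq => ?_⟩
  have h0 := hab hq (hball (y := η) (by simpa [Real.dist_eq] using hη))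
  obtain ⟨h1, h2, h3, h4, h5⟩ := h0
  simp only at h1 h2 h3 h4 h5
  rcases hp q h2 _ h1 (shp_meet T η q.1 q.2).symm with ⟨g, hg1, hg2, hg3⟩ | hexc
  · right
    refine ⟨⟨g, hg1, hg2, hg3⟩, ⟨hρU h3, fun v hv => (h5 v hv).le⟩, ?_⟩
    intro z hz
    exact hρU ((convex_ball q0.1 ρ).segment_subset h4 h3 hz)
  · left; exact hexc

private theorem nhds_shift {x0 : ℂ} {θ0 : Tor} {N : Set (ℂ × Tor)}
    (hN : N ∈ 𝓝 (x0, θ0 + ((Real.pi : ℝ) : Tor))) :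
    {q : ℂ × Tor | (q.1, q.2 + ((Real.pi : ℝ) : Tor)) ∈ N} ∈ 𝓝 (x0, θ0) := by
  have hcont : Continuous (fun q : ℂ × Tor => (q.1, q.2 + ((Real.pi : ℝ) : Tor))) :=
    continuous_fst.prodMk (continuous_snd.add continuous_const)
  exact hcont.continuousAt.preimage_mem_nhds hN

theorem cover_cond {U : Set ℂ} (hP : Poly U) {V : Finset ℂ}
    {r0 : ℝ} (hr0 : 0 < r0) (hcone : ∀ v ∈ V, Cone U v (5 * r0))
    (hsep : ∀ v ∈ V, ∀ w ∈ V, v ≠ w → 4 * r0 ≤ ‖v - w‖)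
    {r : ℝ} (hr : r ≤ r0 / 2) {K : Set ℂ} (hK : IsCompact K) (hKU : K ⊆ U)
    (hKV : ∀ x ∈ K, ∀ v ∈ V, r < ‖x - v‖) {J : Set Tor} (hJ : IsCompact J)
    (hJT : ∀ θ ∈ J, θ ∉ Thet U) {T : ℝ} (hT : 0 ≤ T) :
    ∃ η1 : ℝ, 0 < η1 ∧ ∀ q ∈ K ×ˢ J,
      (∃ T' : ℝ, (T' = T ∨ T' = T + 2 * r0) ∧ ∀ η : ℝ, |η| < η1 →
        (q.1 + T' * e q.2 ∈ Exc U ∨ Conds U V r T' η q)) ∨
      (∃ T' : ℝ, (T' = T ∨ T' = T + 2 * r0) ∧ ∀ η : ℝ, |η| < η1 →
        (q.1 + T' * e (q.2 + ((Real.pi : ℝ) : Tor)) ∈ Exc U ∨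
          Conds U V r T' η (q.1, q.2 + ((Real.pi : ℝ) : Tor)))) := by
  have hKJ : IsCompact (K ×ˢ J) := hK.prod hJ
  -- the property of a set S
  let Pr : Set (ℂ × Tor) → Prop := fun S => ∃ η1 : ℝ, 0 < η1 ∧ ∀ q ∈ S,
      (∃ T' : ℝ, (T' = T ∨ T' = T + 2 * r0) ∧ ∀ η : ℝ, |η| < η1 →
        (q.1 + T' * e q.2 ∈ Exc U ∨ Conds U V r T' η q)) ∨
      (∃ T' : ℝ, (T' = T ∨ T' = T + 2 * r0) ∧ ∀ η : ℝ, |η| < η1 →
        (q.1 + T' * e (q.2 + ((Real.pi : ℝ) : Tor)) ∈ Exc U ∨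
          Conds U V r T' η (q.1, q.2 + ((Real.pi : ℝ) : Tor))))
  have : Pr (K ×ˢ J) := by
    refine hKJ.induction_on (p := Pr) ?_ ?_ ?_ ?_
    · exact ⟨1, one_pos, fun q hq => absurd hq (notMem_empty q)⟩
    · rintro s t hst ⟨η1, h1, h2⟩
      exact ⟨η1, h1, fun q hq => h2 q (hst hq)⟩
    · rintro s t ⟨η1, h1, h2⟩ ⟨η2, h3, h4⟩
      refine ⟨min η1 η2, lt_min h1 h3, fun q hq => ?_⟩
      rcases hq with hq | hq
      · rcases h2 q hq with ⟨T', hT', h5⟩ | ⟨T', hT', h5⟩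
        · exact Or.inl ⟨T', hT', fun η hη => h5 η (lt_of_lt_of_le hη (min_le_left _ _))⟩
        · exact Or.inr ⟨T', hT', fun η hη => h5 η (lt_of_lt_of_le hη (min_le_left _ _))⟩
      · rcases h4 q hq with ⟨T', hT', h5⟩ | ⟨T', hT', h5⟩
        · exact Or.inl ⟨T', hT', fun η hη => h5 η (lt_of_lt_of_le hη (min_le_right _ _))⟩
        · exact Or.inr ⟨T', hT', fun η hη => h5 η (lt_of_lt_of_le hη (min_le_right _ _))⟩
    · rintro ⟨x0, θ0⟩ hq0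
      have hx0U : x0 ∈ U := hKU hq0.1
      have hfar : ∀ v ∈ V, r < ‖x0 - v‖ := hKV x0 hq0.1
      rcases thet_split (hJT θ0 hq0.2) x0 with hns | hns
      · obtain ⟨T', hT', hgood⟩ : ∃ T' : ℝ, (T' = T ∨ T' = T + 2 * r0) ∧
            Good U V (r0 / 2) T' (x0, θ0) := by
          rcases good_local hP V r0 hr0 hcone hsep hx0U hns T hT with h | h
          · exact ⟨T, Or.inl rfl, h⟩
          · exact ⟨T + 2 * r0, Or.inr rfl, h⟩
        obtain ⟨N, hN, η0, hη0, hc⟩ := conds_local hP.isOpen (good_mono hgood hr) hx0U hfar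
        refine ⟨N, mem_nhdsWithin_of_mem_nhds hN, η0, hη0, fun q hq => ?_⟩
        exact Or.inl ⟨T', hT', fun η hη => hc η hη q hq⟩
      · obtain ⟨T', hT', hgood⟩ : ∃ T' : ℝ, (T' = T ∨ T' = T + 2 * r0) ∧
            Good U V (r0 / 2) T' (x0, θ0 + ((Real.pi : ℝ) : Tor)) := by
          rcases good_local hP V r0 hr0 hcone hsep hx0U hns T hT with h | h
          · exact ⟨T, Or.inl rfl, h⟩
          · exact ⟨T + 2 * r0, Or.inr rfl, h⟩
        obtain ⟨N, hN, η0, hη0, hc⟩ := conds_local hP.isOpen (good_mono hgood hr) hx0U hfar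
        refine ⟨{q : ℂ × Tor | (q.1, q.2 + ((Real.pi : ℝ) : Tor)) ∈ N},
          mem_nhdsWithin_of_mem_nhds (nhds_shift hN), η0, hη0, ?_⟩
        intro q hq
        right
        refine ⟨T', hT', ?_⟩
        intro η hη
        exact hc η hη (q.1, q.2 + ((Real.pi : ℝ) : Tor)) hq
  exact this

end Pool.H46.Bi
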