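import Pool.Agent.H46.Bi.Half

/-!
# [H46 BI DET] determinism
-/

set_option autoImplicit false

open MeasureTheory Metric Set

namespace Pool.H46.Bi

/-- two charts at the same centre have the same double direction -/
theorem chart_unique {U : Set ℂ} {p : ℂ} {α α' : Tor} {ε ε' : ℝ} (h : Chart U p α ε)
    (h' : Chart U p α' ε') : α + α = α' + α' := by
  set r := min ε ε' / 2 with hr
  have hr0 : 0 < r := by
    have := h.1
    have := h'.1
    positivity
  have hz : ‖((r : ℝ) : ℂ) * e α‖ = r := by
    rw [norm_mul, norm_e, mul_one, Complex.norm_real, Real.norm_eq_abs, abs_of_pos hr0]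
  have hlt : r < ε ∧ r < ε' := by
    have h1 := min_le_left ε ε'
    have h2 := min_le_right ε ε'
    have h3 := h.1
    have h4 := h'.1
    have h5 : 0 < min ε ε' := lt_min h3 h4
    constructor <;> linarith
  have hm1 : p + ((r : ℝ) : ℂ) * e α ∈ ball p ε := by
    rw [mem_ball_iff_norm, add_sub_cancel_left, hz]; exact hlt.1
  have hm2 : p + ((r : ℝ) : ℂ) * e α ∈ ball p ε' := by
    rw [mem_ball_iff_norm, add_sub_cancel_left, hz]; exact hlt.2
  have hs : side p α (p + ((r : ℝ) : ℂ) * e α) = 0 := by
    rw [side_line, side_self, sub_self, e_zero]; simp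
  have hs' := (h'.2 _ hm2).mp ((h.2 _ hm1).mpr hs)
  rw [side_line, side_self, zero_add] at hs'
  have him : (e (α - α')).im = 0 := by
    rcases mul_eq_zero.mp hs' with h0 | h0
    · exact absurd h0 hr0.ne'
    · exact h0
  have hsq : e ((α - α') + (α - α')) = 1 := by
    rw [e_add]
    have h1 : e (α - α') = (starRingEnd ℂ) (e (α - α')) := (Complex.conj_eq_iff_im.mpr him).symm
    calc e (α - α') * e (α - α') = e (α - α') * (starRingEnd ℂ) (e (α - α')) := by rw [← h1]
      _ = 1 := e_mul_conj _
  have h0 : (α - α') + (α - α') = 0 := e_injective (by rw [hsq, e_zero])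
  have : α + α - (α' + α') = 0 := by rw [← h0]; abel
  exact sub_eq_zero.mp this

/-- trajectories described by their successive collisions -/
private inductive Path (U : Set ℂ) : ℝ → Mo → ℂ → Tor → Prop
  | base (t : ℝ) (x : ℂ) (θ : Tor) : 0 ≤ t → x + t * e θ ∈ U →
      (∀ s ∈ Ioc (0 : ℝ) t, x + s * e θ ∈ U) → Path U t Mo.one x θ
  | step (τ t : ℝ) (g : Mo) (x p : ℂ) (θ α : Tor) (ε : ℝ) : 0 < τ → p = x + τ * e θ →
      (∀ s ∈ Ioo (0 : ℝ) τ, x + s * e θ ∈ U) →
      Chart U p α ε → 0 < t → Path U t g p (α + α - θ) →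
      Path U (τ + t) (Mo.mul g (Mo.refl p α)) x θ

private theorem Path.nonneg {U : Set ℂ} {t : ℝ} {g : Mo} {x : ℂ} {θ : Tor}
    (h : Path U t g x θ) : 0 ≤ t := by
  induction h with
  | base t x θ ht _ _ => exact ht
  | step τ t g x p θ α ε hτ _ _ _ ht _ _ => linarith

private theorem path_prefix {U : Set ℂ} {r t : ℝ} {g : Mo} {x : ℂ} {θ : Tor} (hr : 0 ≤ r)
    (hs : ∀ s ∈ Ioc (0 : ℝ) r, x + s * e θ ∈ U) {y : ℂ} (hy : y = x + r * e θ)
    (h : Path U t g y θ) : Path U (r + t) g x θ := by
  cases h with
  | base _ _ _ ht h1 h2 =>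
    refine Path.base _ _ _ (by linarith) ?_ ?_
    · have : x + ((r + t : ℝ) : ℂ) * e θ = y + t * e θ := by
        rw [hy]; push_cast; ring
      rw [this]; exact h1
    · intro s hs'
      rcases le_or_gt s r with hsr | hsr
      · exact hs s ⟨hs'.1, hsr⟩
      · have : x + (s : ℂ) * e θ = y + ((s - r : ℝ) : ℂ) * e θ := by
          rw [hy]; push_cast; ring
        rw [this]
        exact h2 _ ⟨by linarith, by linarith [hs'.2]⟩
  | step τ t g _ p _ α ε hτ hp h1 hc ht h2 =>
    have := Path.step (U := U) (r + τ) t g x p θ α ε (by linarith)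
      (by rw [hp, hy]; push_cast; ring) ?_ hc ht h2
    · rw [add_assoc] at this
      exact this
    · intro s hs'
      rcases le_or_gt s r with hsr | hsr
      · exact hs s ⟨hs'.1, hsr⟩
      · have : x + (s : ℂ) * e θ = y + ((s - r : ℝ) : ℂ) * e θ := by
          rw [hy]; push_cast; ring
        rw [this]
        exact h1 _ ⟨by linarith, by linarith [hs'.2]⟩

private theorem path_trans {U : Set ℂ} {t t' : ℝ} {g g' : Mo} {x : ℂ} {θ : Tor}
    (h : Path U t g x θ) (h' : Path U t' g' (g.act (x + t * e θ)) (g.dir θ)) :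
    Path U (t + t') (Mo.mul g' g) x θ := by
  induction h with
  | base t x θ ht h1 h2 =>
    rw [Mo.one_act, Mo.one_dir] at h'
    rw [Mo.mul_one']
    exact path_prefix ht h2 rfl h'
  | step τ t g x p θ α ε hτ hp h1 hc ht h2 ih =>
    have ht' := h'.nonneg
    have e1 : (Mo.mul g (Mo.refl p α)).act (x + ((τ + t : ℝ) : ℂ) * e θ)
        = g.act (p + t * e (α + α - θ)) := by
      rw [Mo.mul_act]
      congr 1
      have : x + ((τ + t : ℝ) : ℂ) * e θ = p + t * e θ := by
        rw [hp]; push_cast; ring
      rw [this, Mo.act_line, Mo.refl_self, Mo.refl_dir]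
    have e2 : (Mo.mul g (Mo.refl p α)).dir θ = g.dir (α + α - θ) := by
      rw [Mo.mul_dir, Mo.refl_dir]
    rw [e1, e2] at h'
    have := Path.step (U := U) τ (t + t') (Mo.mul g' g) x p θ α ε hτ hp h1 hc (by linarith) (ih h')
    rw [← Mo.mul_assoc'] at this
    rw [add_assoc]
    exact this

private theorem path_of_reach {U : Set ℂ} (hU : IsOpen U) {t : ℝ} {g : Mo} {x : ℂ} {θ : Tor}
    (h : Reach U t g x θ) : Path U t g x θ := by
  induction h with
  | str t x θ ht hs =>
    exact Path.base t x θ ht (hs t ⟨ht, le_refl _⟩) (fun s hs' => hs s ⟨hs'.1.le, hs'.2⟩)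
  | bounce t x θ p α ε ht hc hx hxb hyb hlt =>
    set a := side p α x with ha
    set b := side p α (x + t * e θ) with hb
    have hslope : b = a + t * (e (θ - α)).im := side_line p α θ x t
    have hab : a - b ≠ 0 := by
      intro h0
      have : b = a := by linarith
      rw [this] at hlt
      nlinarith [mul_self_nonneg a]
    have ht0 : 0 < t := by
      rcases ht.lt_or_eq with h0 | h0
      · exact h0
      · exfalso
        apply hab
        rw [hslope, ← h0]; ring
    set τ := t * (a / (a - b)) with hτ
    have hfrac : 0 < a / (a - b) ∧ a / (a - b) < 1 := by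
      rcases lt_or_gt_of_ne hab with h0 | h0
      · -- a < b : a<0<b
        have hb0 : 0 < b := by
          by_contra hcon
          have : a < 0 := by linarith
          nlinarith
        have ha0 : a < 0 := by
          by_contra hcon
          nlinarith
        constructor
        · exact div_pos_of_neg_of_neg ha0 h0
        · rw [div_lt_one_of_neg h0]; linarith
      · have ha0 : 0 < a := by
          by_contra hcon
          nlinarith
        have hb0 : b < 0 := by
          by_contra hcon
          nlinarith
        constructor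
        · exact div_pos ha0 h0
        · rw [div_lt_one h0]; linarith
    have hτ0 : 0 < τ := mul_pos ht0 hfrac.1
    have hτt : τ < t := by
      have := mul_lt_mul_of_pos_left hfrac.2 ht0
      rw [mul_one] at this
      exact this
    have hside : ∀ s : ℝ, side p α (x + s * e θ) = a * (1 - s / τ) := by
      intro s
      rw [side_line]
      have h1 : t * (e (θ - α)).im = b - a := by linarith
      have h2 : (e (θ - α)).im = (b - a) / t := by
        field_simp; linarith
      have ha0 : a ≠ 0 := by
        intro h0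
        rw [h0] at hlt
        simp at hlt
      rw [h2, ← ha, hτ]
      field_simp
      ring
    have hp0 : side p α (x + τ * e θ) = 0 := by
      rw [hside, div_self hτ0.ne']; ring
    have hpb : x + τ * e θ ∈ ball p ε := ball_line hxb hyb ⟨hτ0.le, hτt.le⟩
    obtain ⟨hsd, ε', hc', hsub⟩ := sub_chart hc hpb hp0
    have hrefl : Mo.refl p α = Mo.refl (x + τ * e θ) α := by
      obtain ⟨r, hr⟩ := (side_eq_zero_iff p α _).mp hp0
      rw [hr]
      ext
      · rfl
      · simp only [Mo.refl]
        rw [map_add, map_mul, Complex.conj_ofReal, mul_add, e_add]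
        have : e α * e α * ((r : ℂ) * (starRingEnd ℂ) (e α))
            = r * e α * (e α * (starRingEnd ℂ) (e α)) := by ring
        rw [this, e_mul_conj]
        ring
      · rfl
    have ha2 : 0 < a * a := by
      have ha0 : a ≠ 0 := by
        intro h0
        rw [h0] at hlt
        simp at hlt
      exact mul_self_pos.mpr ha0
    have hrest : ∀ r ∈ Ioc (0 : ℝ) (t - τ),
        x + τ * e θ + r * e (α + α - θ) ∈ U := by
      intro r hr
      have e1 : x + τ * e θ + r * e (α + α - θ) = (Mo.refl p α).act (x + ((τ + r : ℝ) : ℂ) * e θ) := by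
        have : x + ((τ + r : ℝ) : ℂ) * e θ = (x + τ * e θ) + r * e θ := by push_cast; ring
        rw [this, Mo.act_line, refl_fix p α _ hp0, Mo.refl_dir]
      rw [e1]
      apply half_ball hU hc hx hxb
      · rw [mem_ball_iff_norm, Mo.norm_refl_sub, ← mem_ball_iff_norm]
        exact ball_line hxb hyb ⟨by linarith [hr.1], by linarith [hr.2]⟩
      · rw [side_refl, hside]
        have : 1 - (τ + r) / τ = -(r / τ) := by field_simp; ring
        rw [this, ← ha]
        have h1 : 0 < r / τ := div_pos hr.1 hτ0
        nlinarith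
    have key := Path.step (U := U) τ (t - τ) Mo.one x (x + τ * e θ) θ α ε' hτ0 rfl ?_ hc'
      (by linarith) (Path.base _ _ _ (by linarith) ?_ hrest)
    · rw [Mo.one_mul', ← hrefl] at key
      have : τ + (t - τ) = t := by ring
      rwa [this] at key
    · intro s hs
      apply half_ball hU hc hx hxb
      · exact ball_line hxb hyb ⟨hs.1.le, by linarith [hs.2]⟩
      · rw [hside, ← ha]
        have : s / τ < 1 := by rw [div_lt_one hτ0]; exact hs.2
        nlinarith
    · exact hrest _ ⟨by linarith, le_refl _⟩
  | trans t t' g g' x θ h1 h2 ih1 ih2 =>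
    exact path_trans ih1 ih2

private theorem notin_of_chart {U : Set ℂ} (hU : IsOpen U) {p : ℂ} {α : Tor} {ε : ℝ}
    (hc : Chart U p α ε) : p ∉ U := by
  intro h
  have : p ∈ frontier U := (hc.2 p (mem_ball_self hc.1)).mpr (side_self p α)
  rw [hU.frontier_eq] at this
  exact this.2 h

private theorem path_det {U : Set ℂ} (hU : IsOpen U) {t : ℝ} {g : Mo} {x : ℂ} {θ : Tor}
    (h : Path U t g x θ) : ∀ g', Path U t g' x θ → g = g' := by
  induction h with
  | base t x θ ht h1 h2 =>
    intro g' h'
    cases h' with
    | base _ _ _ _ _ _ => rfl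
    | step τ t' g _ p _ α ε hτ hp h3 hc ht' h4 =>
      exfalso
      apply notin_of_chart hU hc
      rw [hp]
      exact h2 τ ⟨hτ, by linarith⟩
  | step τ t g x p θ α ε hτ hp h1 hc ht h2 ih =>
    intro g' h'
    generalize hT : τ + t = T at h'
    cases h' with
    | base _ _ _ _ h3 h4 =>
      exfalso
      apply notin_of_chart hU hc
      rw [hp]
      exact h4 τ ⟨hτ, by linarith⟩
    | step τ' t' g' _ p' _ α' ε' hτ' hp' h3 hc' ht' h4 =>
      have hττ : τ = τ' := by
        rcases lt_trichotomy τ τ' with hlt | heq | hgt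
        · exfalso
          apply notin_of_chart hU hc
          rw [hp]
          exact h3 τ ⟨hτ, hlt⟩
        · exact heq
        · exfalso
          apply notin_of_chart hU hc'
          rw [hp']
          exact h1 τ' ⟨hτ', hgt⟩
      subst hττ
      have htt : t = t' := by linarith
      subst htt
      have hpp : p = p' := by rw [hp, hp']
      subst hpp
      have hα := chart_unique hc hc'
      have hr : Mo.refl p α = Mo.refl p α' := by
        simp only [Mo.refl, hα]
      have hd : α' + α' - θ = α + α - θ := by rw [hα]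
      rw [hd] at h4
      rw [ih g' h4, hr]

theorem reach_det {U : Set ℂ} (hU : IsOpen U) {t : ℝ} {g g' : Mo} {x : ℂ} {θ : Tor}
    (h : Reach U t g x θ) (h' : Reach U t g' x θ) : g = g' :=
  path_det hU (path_of_reach hU h) g' (path_of_reach hU h')

end Pool.H46.Bi
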