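import Pool.Agent.H46.Bi.Half

/-!
# [H46 BI FIX] near a vertex every motion fixes the vertex
-/

set_option autoImplicit false

open MeasureTheory Metric Set Filter Topology

namespace Pool.H46.Bi

theorem chart_line {U : Set ℂ} {p v z : ℂ} {α : Tor} {ε R : ℝ} (hc : Chart U p α ε)
    (hR : Cone U v R) (hz : z ∈ ball p ε) (hs : side p α z = 0) (hv : z ∈ ball v R) :
    side p α v = 0 := by
  have hcont : Continuous (fun s : ℝ => v + (s : ℂ) * (z - v)) := by fun_prop
  have h1 : v + ((1 : ℝ) : ℂ) * (z - v) = z := by simp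
  have ev1 : ∀ᶠ s : ℝ in 𝓝 1, v + (s : ℂ) * (z - v) ∈ ball p ε := by
    apply hcont.continuousAt.eventually_mem
    rw [h1]; exact isOpen_ball.mem_nhds hz
  have ev2 : ∀ᶠ s : ℝ in 𝓝 1, v + (s : ℂ) * (z - v) ∈ ball v R := by
    apply hcont.continuousAt.eventually_mem
    rw [h1]; exact isOpen_ball.mem_nhds hv
  have ev3 : ∀ᶠ s : ℝ in 𝓝 1, 0 < s := lt_mem_nhds one_pos
  have ev : ∀ᶠ s : ℝ in 𝓝[>] 1, (v + (s : ℂ) * (z - v) ∈ ball p ε ∧
      v + (s : ℂ) * (z - v) ∈ ball v R ∧ 0 < s) ∧ 1 < s :=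
    ((ev1.and (ev2.and ev3)).filter_mono nhdsWithin_le_nhds).and self_mem_nhdsWithin
  obtain ⟨s, ⟨hs1, hs2, hs3⟩, hs4⟩ := ev.exists
  have hfr : v + (s : ℂ) * (z - v) ∈ frontier U :=
    hR.2 z hv s hs3 hs2 ((hc.2 z hz).mpr hs)
  have h0 := (hc.2 _ hs1).mp hfr
  rw [side_comb, hs, mul_zero, add_zero] at h0
  rcases mul_eq_zero.mp h0 with h | h
  · exfalso; linarith
  · exact h

private theorem crossing {p x : ℂ} {α θ : Tor} {t : ℝ} (ht : 0 ≤ t)
    (hlt : side p α x * side p α (x + t * e θ) < 0) :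
    ∃ τ : ℝ, 0 ≤ τ ∧ τ ≤ t ∧ side p α (x + τ * e θ) = 0 := by
  have hcont : ContinuousOn (fun s : ℝ => side p α (x + s * e θ)) (Icc 0 t) := by
    apply Continuous.continuousOn
    exact (side_continuous p α).comp (by fun_prop)
  have h0 : side p α (x + ((0 : ℝ) : ℂ) * e θ) = side p α x := by simp
  rcases lt_or_ge (side p α x) 0 with hneg | hpos
  · have hb : 0 < side p α (x + t * e θ) := by
      by_contra hcon
      have : 0 ≤ side p α x * side p α (x + t * e θ) :=
        mul_nonneg_of_nonpos_of_nonpos hneg.le (not_lt.mp hcon)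
      linarith
    have := intermediate_value_Icc ht hcont
    obtain ⟨τ, hτ, h⟩ := this (show (0 : ℝ) ∈ Icc _ _ from ⟨by rw [h0]; exact hneg.le, hb.le⟩)
    exact ⟨τ, hτ.1, hτ.2, h⟩
  · have hb : side p α (x + t * e θ) < 0 := by
      by_contra hcon
      have : 0 ≤ side p α x * side p α (x + t * e θ) := mul_nonneg hpos (not_lt.mp hcon)
      linarith
    have := intermediate_value_Icc' ht hcont
    obtain ⟨τ, hτ, h⟩ := this (show (0 : ℝ) ∈ Icc _ _ from ⟨hb.le, by rw [h0]; exact hpos⟩)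
    exact ⟨τ, hτ.1, hτ.2, h⟩

private theorem norm_te (t : ℝ) (ht : 0 ≤ t) (θ : Tor) : ‖(t : ℂ) * e θ‖ = t := by
  rw [norm_mul, norm_e, mul_one, Complex.norm_real, Real.norm_eq_abs, abs_of_nonneg ht]

theorem reach_fix {U : Set ℂ} (hU : IsOpen U) {v : ℂ} {R : ℝ} (hR : Cone U v R)
    {t : ℝ} {g : Mo} {x : ℂ} {θ : Tor} (h : Reach U t g x θ) (ht : ‖x - v‖ + t < R) :
    g.act v = v := by
  induction h with
  | str t x θ _ _ => exact Mo.one_act v
  | bounce t x θ p α ε ht0 hc hx hxb hyb hlt =>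
    obtain ⟨τ, hτ0, hτt, hτ⟩ := crossing ht0 hlt
    apply refl_fix
    apply chart_line hc hR (ball_line hxb hyb ⟨hτ0, hτt⟩) hτ
    rw [mem_ball_iff_norm]
    have : x + τ * e θ - v = (x - v) + τ * e θ := by ring
    rw [this]
    refine lt_of_le_of_lt (norm_add_le _ _) ?_
    rw [norm_te τ hτ0]
    linarith
  | trans t t' g g' x θ h1 h2 ih1 ih2 =>
    have hn1 := h1.nonneg
    have hn2 := h2.nonneg
    have hg := ih1 (by linarith)
    have hg' := ih2 (by
      have : ‖g.act (x + t * e θ) - v‖ = ‖x + t * e θ - v‖ := by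
        conv_lhs => rw [← hg]
        exact Mo.norm_act_sub g _ _
      rw [this]
      have e1 : x + t * e θ - v = (x - v) + t * e θ := by ring
      have := norm_add_le (x - v) (t * e θ)
      rw [norm_te t hn1] at this
      rw [e1]
      linarith)
    rw [Mo.mul_act, hg, hg']

theorem at_fix {U : Set ℂ} (hU : IsOpen U) {v : ℂ} {R : ℝ} (hR : Cone U v R)
    {t : ℝ} {g : Mo} {x : ℂ} {θ : Tor} (h : At U t g x θ) (ht : ‖x - v‖ + t < R) :
    g.act v = v := by
  rcases h with h | ⟨_, t0, _, ht0, h⟩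
  · exact reach_fix hU hR h ht
  · exact reach_fix hU hR (h t0 ⟨le_refl _, ht0⟩) (by linarith)

theorem reach_dist {U : Set ℂ} (hU : IsOpen U) {t : ℝ} {g : Mo} {x : ℂ} {θ : Tor}
    (h : Reach U t g x θ) : ‖g.act (x + t * e θ) - x‖ ≤ t := by
  induction h with
  | str t x θ ht _ =>
    rw [Mo.one_act, add_sub_cancel_left, norm_te t ht]
  | bounce t x θ p α ε ht0 hc hx hxb hyb hlt =>
    obtain ⟨τ, hτ0, hτt, hτ⟩ := crossing ht0 hlt
    have hfix := refl_fix p α _ hτ
    have e1 : (Mo.refl p α).act (x + t * e θ) - x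
        = ((Mo.refl p α).act (x + t * e θ) - (Mo.refl p α).act (x + τ * e θ))
          + τ * e θ := by
      rw [hfix]; ring
    rw [e1]
    refine (norm_add_le _ _).trans ?_
    rw [Mo.norm_act_sub, norm_te τ hτ0]
    have e2 : x + t * e θ - (x + τ * e θ) = ((t - τ : ℝ) : ℂ) * e θ := by push_cast; ring
    rw [e2, norm_te _ (by linarith)]
    linarith
  | trans t t' g g' x θ h1 h2 ih1 ih2 =>
    have e1 : (Mo.mul g' g).act (x + ((t + t' : ℝ) : ℂ) * e θ)
        = g'.act (g.act (x + t * e θ) + t' * e (g.dir θ)) := by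
      rw [Mo.mul_act, ← Mo.act_line]
      congr 2
      push_cast; ring
    rw [e1]
    have e2 : g'.act (g.act (x + t * e θ) + t' * e (g.dir θ)) - x
        = (g'.act (g.act (x + t * e θ) + t' * e (g.dir θ)) - g.act (x + t * e θ))
          + (g.act (x + t * e θ) - x) := by ring
    rw [e2]
    refine (norm_add_le _ _).trans ?_
    linarith

end Pool.H46.Bi
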