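import Pool.Agent.H46.Bi.Base

/-!
# [H46 BI GEO] charts of a polygon: finitely many nonregular points (100-140 lines)

V0_finite: let S be the finite set of segments. Put
B := all end points p.1, p.2 (p ∈ S), together with, for p, q ∈ S, the set of the z in both
segments if the directions p.2 - p.1, q.2 - q.1 are real linearly independent (nonzero and not
parallel); such a set has at most one element. B is finite. For z ∈ frontier U outside B there is
a chart: z lies in some segment p ∈ S, not degenerate since z is no end point; let α be the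
direction of p (e_surj applied to (p.2 - p.1)/‖p.2 - p.1‖). Every q ∈ S that contains z has z in
its open segment and is parallel to p, so q is the line {z + r e α} in a ball about z; every
q ∈ S that does not contain z misses a ball about z (closed set). Take ε the minimum over the
finite set S.  (side_eq_zero_iff describes the line.)

refl_finite: for every chart (p, α, ε) some nondegenerate segment q ∈ S contains two points (in
fact infinitely many) of the line {p + r e α} ∩ ball p ε, because this infinite set (r in an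
interval) is covered by the finitely many segments (pigeonhole: Set.Infinite / Finite.biUnion);
so the line is the line through q.1 and q.2: q.1 = p + r1 e α, q.2 = p + r2 e α with r1 ≠ r2. Then
refl p α = refl q.1 (direction of q) (both directions agree up to pi, and refl p α only depends
on the line: refl_act; or compare the fields a = α + α and b). So the set of reflections is
contained in the image of the finite set S.

Lset_null: similarly Lset U is contained in the union over the nondegenerate q ∈ S of the lines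
{q.1 + r (q.2 - q.1)}, each of measure 0 in ℂ (for instance
MeasureTheory.Measure.addHaar_affineSubspace: a line is a proper affine subspace; or the
preimage of {0} under the real linear nonzero functional z ↦ side q.1 α z, or the countable-free
argument by Fubini).
-/

set_option autoImplicit false

open MeasureTheory Metric Set

namespace Pool.H46.Bi

private def gdet (u w : ℂ) : ℝ := u.re * w.im - u.im * w.re

private theorem gdet_real (c : ℝ) (u w : ℂ) : gdet (c * u) w = c * gdet u w := by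
  unfold gdet
  simp only [Complex.mul_re, Complex.mul_im, Complex.ofReal_re, Complex.ofReal_im]
  ring

private theorem gdet_real' (c : ℝ) (u w : ℂ) : gdet u (c * w) = c * gdet u w := by
  unfold gdet
  simp only [Complex.mul_re, Complex.mul_im, Complex.ofReal_re, Complex.ofReal_im]
  ring

private theorem gdet_self (u : ℂ) : gdet u u = 0 := by
  unfold gdet
  ring

private theorem seg_iff (a b z : ℂ) :
    z ∈ segment ℝ a b ↔ ∃ s : ℝ, 0 ≤ s ∧ s ≤ 1 ∧ z = a + s * (b - a) := by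
  rw [segment_eq_image']
  constructor
  · rintro ⟨s, hs, rfl⟩
    refine ⟨s, hs.1, hs.2, ?_⟩
    simp [Complex.real_smul]
  · rintro ⟨s, h0, h1, rfl⟩
    refine ⟨s, ⟨h0, h1⟩, ?_⟩
    simp [Complex.real_smul]

private theorem exists_dir (u : ℂ) (hu : u ≠ 0) : ∃ α : Tor, u = (‖u‖ : ℂ) * e α := by
  obtain ⟨α, hα⟩ := e_surj (u / (‖u‖ : ℂ)) (by
    rw [norm_div, Complex.norm_real, norm_norm, div_self (norm_ne_zero_iff.2 hu)])
  refine ⟨α, ?_⟩
  rw [hα]
  have : (‖u‖ : ℂ) ≠ 0 := by exact_mod_cast norm_ne_zero_iff.2 hu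
  field_simp

/-- parallel vectors -/
private theorem par_dir (α : Tor) (w : ℂ) (h : gdet (e α) w = 0) : ∃ c : ℝ, w = c * e α := by
  refine ⟨(w * (starRingEnd ℂ) (e α)).re, ?_⟩
  have h1 : (w * (starRingEnd ℂ) (e α)) = (((w * (starRingEnd ℂ) (e α)).re : ℝ) : ℂ) := by
    apply Complex.ext
    · simp only [Complex.ofReal_re]
    · simp only [Complex.ofReal_im]
      unfold gdet at h
      simp only [Complex.mul_im, Complex.conj_re, Complex.conj_im]
      linarith
  rw [← h1, mul_assoc, conj_mul_e, mul_one]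

private theorem cross_sub (p q : ℂ × ℂ) (h : gdet (p.2 - p.1) (q.2 - q.1) ≠ 0) :
    (segment ℝ p.1 p.2 ∩ segment ℝ q.1 q.2).Subsingleton := by
  intro z hz z' hz'
  obtain ⟨s, _, _, hs⟩ := (seg_iff _ _ _).1 hz.1
  obtain ⟨s', _, _, hs'⟩ := (seg_iff _ _ _).1 hz'.1
  obtain ⟨t, _, _, ht⟩ := (seg_iff _ _ _).1 hz.2
  obtain ⟨t', _, _, ht'⟩ := (seg_iff _ _ _).1 hz'.2
  have h1 : z - z' = ((s - s' : ℝ) : ℂ) * (p.2 - p.1) := by
    rw [hs, hs']; push_cast; ring
  have h2 : z - z' = ((t - t' : ℝ) : ℂ) * (q.2 - q.1) := by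
    rw [ht, ht']; push_cast; ring
  have h3 : gdet (z - z') (z - z') = (s - s') * ((t - t') * gdet (p.2 - p.1) (q.2 - q.1)) := by
    nth_rw 1 [h1]
    rw [h2, gdet_real, gdet_real']
  rw [gdet_self] at h3
  have h4 : (s - s') * (t - t') = 0 := by
    by_contra h5
    apply h
    have h6 : (s - s') * (t - t') * gdet (p.2 - p.1) (q.2 - q.1) = 0 := by linarith
    rcases mul_eq_zero.1 h6 with h7 | h7
    · exact absurd h7 h5
    · exact h7
  rcases mul_eq_zero.1 h4 with h5 | h5
  · rw [h5] at h1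
    simp at h1
    exact sub_eq_zero.1 h1
  · rw [h5] at h2
    simp at h2
    exact sub_eq_zero.1 h2

private theorem bad_finite (S : Finset (ℂ × ℂ)) :
    ({z : ℂ | ∃ p ∈ S, z = p.1 ∨ z = p.2} ∪ {z : ℂ | ∃ p ∈ S, ∃ q ∈ S,
      gdet (p.2 - p.1) (q.2 - q.1) ≠ 0 ∧ z ∈ segment ℝ p.1 p.2 ∩ segment ℝ q.1 q.2}).Finite := by
  apply Set.Finite.union
  · have h1 : {z : ℂ | ∃ p ∈ S, z = p.1 ∨ z = p.2} ⊆
        ((S.image Prod.fst ∪ S.image Prod.snd : Finset ℂ) : Set ℂ) := by
      rintro z ⟨p, hp, h | h⟩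
      · simp only [Finset.coe_union, Finset.coe_image, mem_union, mem_image, Finset.mem_coe]
        exact Or.inl ⟨p, hp, h.symm⟩
      · simp only [Finset.coe_union, Finset.coe_image, mem_union, mem_image, Finset.mem_coe]
        exact Or.inr ⟨p, hp, h.symm⟩
    exact Set.Finite.subset (Finset.finite_toSet _) h1
  · have h1 : {z : ℂ | ∃ p ∈ S, ∃ q ∈ S,
        gdet (p.2 - p.1) (q.2 - q.1) ≠ 0 ∧ z ∈ segment ℝ p.1 p.2 ∩ segment ℝ q.1 q.2} =
        ⋃ p ∈ (S : Set (ℂ × ℂ)), ⋃ q ∈ (S : Set (ℂ × ℂ)), {z : ℂ |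
          gdet (p.2 - p.1) (q.2 - q.1) ≠ 0 ∧ z ∈ segment ℝ p.1 p.2 ∩ segment ℝ q.1 q.2} := by
      ext z
      simp only [mem_iUnion, mem_ofPred_eq, Finset.mem_coe, exists_prop]
    rw [h1]
    refine Set.Finite.biUnion (Finset.finite_toSet _) fun p _ => ?_
    refine Set.Finite.biUnion (Finset.finite_toSet _) fun q _ => ?_
    apply Set.Subsingleton.finite
    intro z hz z' hz'
    exact cross_sub p q hz.1 hz.2 hz'.2

private theorem local_seg (z : ℂ) (α : Tor) (q : ℂ × ℂ)
    (h1 : z ≠ q.1) (h2 : z ≠ q.2)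
    (h3 : z ∈ segment ℝ q.1 q.2 → gdet (e α) (q.2 - q.1) = 0) :
    ∀ᶠ w in nhds z, (w ∈ segment ℝ q.1 q.2 → side z α w = 0) ∧
      (z ∈ segment ℝ q.1 q.2 → side z α w = 0 → w ∈ segment ℝ q.1 q.2) := by
  by_cases hz : z ∈ segment ℝ q.1 q.2
  · obtain ⟨c, hc⟩ := par_dir α _ (h3 hz)
    obtain ⟨s, hs0, hs1, hs⟩ := (seg_iff _ _ _).1 hz
    have hc0 : c ≠ 0 := by
      intro h
      apply h1
      rw [hs, hc, h]
      simp
    have hs0' : 0 < s := by
      rcases hs0.lt_or_eq with h | h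
      · exact h
      · exfalso; apply h1; rw [hs, ← h]; simp
    have hs1' : s < 1 := by
      rcases hs1.lt_or_eq with h | h
      · exact h
      · exfalso; apply h2; rw [hs, h]; simp
    rw [Metric.eventually_nhds_iff_ball]
    refine ⟨|c| * min s (1 - s), mul_pos (abs_pos.2 hc0) (lt_min hs0' (by linarith)), ?_⟩
    intro w hw
    constructor
    · intro hwq
      obtain ⟨s', _, _, hs'⟩ := (seg_iff _ _ _).1 hwq
      rw [side_eq_zero_iff]
      refine ⟨(s' - s) * c, ?_⟩
      rw [hs', hs, hc]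
      push_cast
      ring
    · intro _ hside
      obtain ⟨r, hr⟩ := (side_eq_zero_iff z α w).1 hside
      have hn : |r| < |c| * min s (1 - s) := by
        have h5 : dist w z = |r| := by
          rw [hr, dist_eq_norm, add_sub_cancel_left, norm_mul, norm_e, mul_one,
            Complex.norm_real, Real.norm_eq_abs]
        rw [← h5]
        exact mem_ball.1 hw
      have hn2 : |r / c| < min s (1 - s) := by
        rw [abs_div, div_lt_iff₀ (abs_pos.2 hc0)]
        linarith
      rw [abs_lt] at hn2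
      have h6 := min_le_left s (1 - s)
      have h7 := min_le_right s (1 - s)
      rw [seg_iff]
      refine ⟨s + r / c, by linarith [hn2.1], by linarith [hn2.2], ?_⟩
      rw [hr, hs]
      have hcC : (c : ℂ) ≠ 0 := by exact_mod_cast hc0
      have h8 : (r : ℂ) * e α = ((r / c : ℝ) : ℂ) * (q.2 - q.1) := by
        rw [hc]
        push_cast
        field_simp
      rw [h8]
      push_cast
      ring
  · have hcl : IsClosed (segment ℝ q.1 q.2) := by
      have : IsCompact (segment ℝ q.1 q.2) := by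
        rw [segment_eq_image']
        exact isCompact_Icc.image (by fun_prop)
      exact this.isClosed
    have h4 : ∀ᶠ w in nhds z, w ∉ segment ℝ q.1 q.2 := hcl.isOpen_compl.mem_nhds hz
    filter_upwards [h4] with w hw
    exact ⟨fun h => absurd h hw, fun h => absurd h hz⟩

theorem V0_finite {U : Set ℂ} (hP : Poly U) : (V0 U).Finite := by
  obtain ⟨S, hS⟩ := hP.seg
  refine (bad_finite S).subset ?_
  rintro z ⟨hz, hno⟩
  by_contra hB
  apply hno
  rw [mem_union, not_or] at hB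
  obtain ⟨hB1, hB2⟩ := hB
  have hB1' : ∀ p ∈ S, z ≠ p.1 ∧ z ≠ p.2 := by
    intro p hp
    constructor
    · intro h; exact hB1 ⟨p, hp, Or.inl h⟩
    · intro h; exact hB1 ⟨p, hp, Or.inr h⟩
  have hz' : z ∈ ⋃ p ∈ S, segment ℝ p.1 p.2 := hS ▸ hz
  simp only [mem_iUnion, exists_prop] at hz'
  obtain ⟨p, hp, hzp⟩ := hz'
  have hp12 : p.2 - p.1 ≠ 0 := by
    intro h
    have h5 : p.2 = p.1 := sub_eq_zero.1 h
    obtain ⟨s, _, _, hs⟩ := (seg_iff _ _ _).1 hzp
    apply (hB1' p hp).1
    rw [hs, h5]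
    simp
  obtain ⟨α, hα⟩ := exists_dir _ hp12
  have hloc : ∀ q ∈ S, ∀ᶠ w in nhds z, (w ∈ segment ℝ q.1 q.2 → side z α w = 0) ∧
      (z ∈ segment ℝ q.1 q.2 → side z α w = 0 → w ∈ segment ℝ q.1 q.2) := by
    intro q hq
    refine local_seg z α q (hB1' q hq).1 (hB1' q hq).2 ?_
    intro hzq
    by_contra hdet
    apply hB2
    refine ⟨p, hp, q, hq, ?_, hzp, hzq⟩
    rw [hα, gdet_real]
    exact mul_ne_zero (norm_ne_zero_iff.2 hp12) hdet
  have hall := (Filter.eventually_all_finset S).2 hloc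
  rw [Metric.eventually_nhds_iff_ball] at hall
  obtain ⟨ε, hε, hall⟩ := hall
  refine ⟨α, ε, hε, ?_⟩
  intro w hw
  rw [hS]
  simp only [mem_iUnion, exists_prop]
  constructor
  · rintro ⟨q, hq, hwq⟩
    exact (hall w hw q hq).1 hwq
  · intro hside
    exact ⟨p, hp, (hall w hw p hp).2 hzp hside⟩

/-- the line of a chart is the line of a segment -/
private theorem chart_seg {U : Set ℂ} {S : Finset (ℂ × ℂ)}
    (hS : frontier U = ⋃ p ∈ S, segment ℝ p.1 p.2) {p : ℂ} {α : Tor} {ε : ℝ}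
    (hc : Chart U p α ε) :
    ∃ q ∈ S, q.1 ≠ q.2 ∧ side p α q.1 = 0 ∧ side p α q.2 = 0 := by
  set A : Set ℂ := (fun r : ℝ => p + (r : ℂ) * e α) '' (Ioo (-ε) ε) with hA
  have hAinf : A.Infinite := by
    apply Set.Infinite.image
    · intro r _ r' _ h
      have h1 : (r : ℂ) * e α = (r' : ℂ) * e α := add_left_cancel h
      have h2 := mul_right_cancel₀ (e_ne_zero α) h1
      exact_mod_cast h2
    · exact Set.Ioo_infinite (by linarith [hc.1])
  have hAsub : A ⊆ ⋃ q ∈ (S : Set (ℂ × ℂ)), (A ∩ segment ℝ q.1 q.2) := by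
    intro z hz
    have hz2 := hz
    obtain ⟨r, hr, rfl⟩ := hz2
    have h1 : p + (r : ℂ) * e α ∈ ball p ε := by
      rw [mem_ball, dist_eq_norm, add_sub_cancel_left, norm_mul, norm_e, mul_one,
        Complex.norm_real, Real.norm_eq_abs, abs_lt]
      exact hr
    have h2 : p + (r : ℂ) * e α ∈ frontier U :=
      (hc.2 _ h1).2 ((side_eq_zero_iff _ _ _).2 ⟨r, rfl⟩)
    rw [hS] at h2
    simp only [mem_iUnion, exists_prop] at h2
    obtain ⟨q, hq, h3⟩ := h2
    simp only [mem_iUnion, exists_prop, Finset.mem_coe]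
    exact ⟨q, hq, hz, h3⟩
  have h1 : ∃ q ∈ S, ¬ (A ∩ segment ℝ q.1 q.2).Subsingleton := by
    by_contra hno
    push Not at hno
    apply hAinf
    refine Set.Finite.subset ?_ hAsub
    exact Set.Finite.biUnion (Finset.finite_toSet _) fun q hq => (hno q hq).finite
  obtain ⟨q, hq, h2⟩ := h1
  rw [Set.not_subsingleton_iff] at h2
  obtain ⟨z, hz, z', hz', hne⟩ := h2
  obtain ⟨⟨r, _, hr⟩, hzq⟩ := hz
  obtain ⟨⟨r', _, hr'⟩, hzq'⟩ := hz'
  obtain ⟨s, _, _, hs⟩ := (seg_iff _ _ _).1 hzq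
  obtain ⟨s', _, _, hs'⟩ := (seg_iff _ _ _).1 hzq'
  simp only at hr hr'
  have h3 : ((s - s' : ℝ) : ℂ) * (q.2 - q.1) = ((r - r' : ℝ) : ℂ) * e α := by
    have h4 : z - z' = ((s - s' : ℝ) : ℂ) * (q.2 - q.1) := by rw [hs, hs']; push_cast; ring
    have h5 : z - z' = ((r - r' : ℝ) : ℂ) * e α := by rw [← hr, ← hr']; push_cast; ring
    rw [← h4, h5]
  have hss : s - s' ≠ 0 := by
    intro h
    apply hne
    have : s = s' := sub_eq_zero.1 h
    rw [hs, hs', this]
  have hssC : ((s - s' : ℝ) : ℂ) ≠ 0 := by exact_mod_cast hss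
  have hd : q.2 - q.1 = (((r - r') / (s - s') : ℝ) : ℂ) * e α := by
    have h6 : (((r - r') / (s - s') : ℝ) : ℂ) = ((r - r' : ℝ) : ℂ) / ((s - s' : ℝ) : ℂ) := by
      push_cast
      ring
    rw [h6, div_mul_eq_mul_div, ← h3]
    field_simp
  have hq1 : q.1 = p + ((r - s * ((r - r') / (s - s')) : ℝ) : ℂ) * e α := by
    have h7 : q.1 = z - (s : ℂ) * (q.2 - q.1) := by rw [hs]; ring
    rw [h7, hd, ← hr]
    push_cast
    ring
  refine ⟨q, hq, ?_, ?_, ?_⟩
  · intro h
    apply hne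
    rw [hs, hs', ← h]
    simp
  · exact (side_eq_zero_iff _ _ _).2 ⟨_, hq1⟩
  · refine (side_eq_zero_iff _ _ _).2
      ⟨(r - s * ((r - r') / (s - s'))) + (r - r') / (s - s'), ?_⟩
    have h8 : q.2 = q.1 + (q.2 - q.1) := by ring
    rw [h8, hd, hq1]
    push_cast
    ring

private theorem refl_eq {p a b : ℂ} {α β : Tor} (hab : a ≠ b)
    (h1 : side p α a = 0) (h2 : side p α b = 0) (hβ : b - a = (‖b - a‖ : ℂ) * e β) :
    Mo.refl p α = Mo.refl a β := by
  obtain ⟨r, hr⟩ := (side_eq_zero_iff _ _ _).1 h1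
  obtain ⟨r', hr'⟩ := (side_eq_zero_iff _ _ _).1 h2
  have hba : b - a = ((r' - r : ℝ) : ℂ) * e α := by rw [hr, hr']; push_cast; ring
  have hn : (‖b - a‖ : ℂ) ≠ 0 := by
    exact_mod_cast norm_ne_zero_iff.2 (sub_ne_zero.2 hab.symm)
  have hnn : (‖b - a‖ : ℂ) ^ 2 = ((r' - r : ℝ) : ℂ) ^ 2 := by
    have h3 : ‖b - a‖ = |r' - r| := by
      rw [hba, norm_mul, norm_e, mul_one, Complex.norm_real, Real.norm_eq_abs]
    rw [h3]
    have := sq_abs (r' - r)
    exact_mod_cast this
  have h4 : (‖b - a‖ : ℂ) * e β = ((r' - r : ℝ) : ℂ) * e α := by rw [← hβ, hba]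
  have hαβ : α + α = β + β := by
    apply e_injective
    rw [e_add, e_add]
    have h5 : (‖b - a‖ : ℂ) ^ 2 * (e β * e β) = ((r' - r : ℝ) : ℂ) ^ 2 * (e α * e α) := by
      calc (‖b - a‖ : ℂ) ^ 2 * (e β * e β) = ((‖b - a‖ : ℂ) * e β) ^ 2 := by ring
        _ = (((r' - r : ℝ) : ℂ) * e α) ^ 2 := by rw [h4]
        _ = ((r' - r : ℝ) : ℂ) ^ 2 * (e α * e α) := by ring
    rw [← hnn] at h5
    exact (mul_left_cancel₀ (pow_ne_zero 2 hn) h5).symm
  unfold Mo.refl
  rw [← hαβ]
  congr 1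
  rw [hr, map_add, map_mul, Complex.conj_ofReal, e_add]
  have h6 : e α * e α * ((starRingEnd ℂ) p + (r : ℂ) * (starRingEnd ℂ) (e α)) =
      e α * e α * (starRingEnd ℂ) p + (r : ℂ) * e α * (e α * (starRingEnd ℂ) (e α)) := by ring
  rw [h6, e_mul_conj]
  ring

theorem refl_finite {U : Set ℂ} (hP : Poly U) :
    {g : Mo | ∃ p α ε, Chart U p α ε ∧ g = Mo.refl p α}.Finite := by
  classical
  obtain ⟨S, hS⟩ := hP.seg
  have hdir : ∀ q : ℂ × ℂ, ∃ β : Tor, q.1 ≠ q.2 → q.2 - q.1 = (‖q.2 - q.1‖ : ℂ) * e β := by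
    intro q
    by_cases h : q.1 = q.2
    · exact ⟨0, fun h' => absurd h h'⟩
    · obtain ⟨β, hβ⟩ := exists_dir (q.2 - q.1) (sub_ne_zero.2 (Ne.symm h))
      exact ⟨β, fun _ => hβ⟩
  choose β hβ using hdir
  refine Set.Finite.subset (Finset.finite_toSet S |>.image (fun q => Mo.refl q.1 (β q))) ?_
  rintro g ⟨p, α, ε, hc, rfl⟩
  obtain ⟨q, hq, h1, h2, h3⟩ := chart_seg hS hc
  exact ⟨q, hq, (refl_eq h1 h2 h3 (hβ q h1)).symm⟩

private theorem line_null (a b : ℂ) : (volume : Measure ℂ) {z | ∃ r : ℝ, z = a + r * (b - a)} = 0 := by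
  have h1 : {z : ℂ | ∃ r : ℝ, z = a + r * (b - a)} ⊆ (affineSpan ℝ {a, b} : AffineSubspace ℝ ℂ) := by
    rintro z ⟨r, rfl⟩
    have : a + (r : ℂ) * (b - a) = AffineMap.lineMap a b r := by
      rw [AffineMap.lineMap_apply]
      simp [Complex.real_smul]
      ring
    rw [this]
    exact AffineMap.lineMap_mem_affineSpan_pair r a b
  refine measure_mono_null h1 ?_
  apply Measure.addHaar_affineSubspace
  intro htop
  have h2 : (affineSpan ℝ {a, b} : AffineSubspace ℝ ℂ).direction = ⊤ := by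
    rw [htop, AffineSubspace.direction_top]
  rw [direction_affineSpan] at h2
  have h3 : Module.finrank ℝ (vectorSpan ℝ ({a, b} : Set ℂ)) = 2 := by
    rw [h2, finrank_top, Complex.finrank_real_complex]
  have h4 : Module.finrank ℝ (vectorSpan ℝ ({a, b} : Set ℂ)) ≤ 1 :=
    (collinear_iff_finrank_le_one).1 (collinear_pair ℝ a b)
  omega

theorem Lset_null {U : Set ℂ} (hP : Poly U) : (volume : Measure ℂ) (Lset U) = 0 := by
  obtain ⟨S, hS⟩ := hP.seg
  have hsub : Lset U ⊆ ⋃ q ∈ S, {z : ℂ | ∃ r : ℝ, z = q.1 + r * (q.2 - q.1)} := by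
    rintro z ⟨p, α, ε, hc, hz⟩
    obtain ⟨q, hq, h1, h2, h3⟩ := chart_seg hS hc
    obtain ⟨r1, hr1⟩ := (side_eq_zero_iff _ _ _).1 h2
    obtain ⟨r2, hr2⟩ := (side_eq_zero_iff _ _ _).1 h3
    obtain ⟨r3, hr3⟩ := (side_eq_zero_iff _ _ _).1 hz
    simp only [mem_iUnion, exists_prop]
    refine ⟨q, hq, (r3 - r1) / (r2 - r1), ?_⟩
    have hne : r2 - r1 ≠ 0 := by
      intro h
      apply h1
      have : r2 = r1 := sub_eq_zero.1 h
      rw [hr1, hr2, this]
    have hneC : ((r2 - r1 : ℝ) : ℂ) ≠ 0 := by exact_mod_cast hne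
    have h4 : q.2 - q.1 = ((r2 - r1 : ℝ) : ℂ) * e α := by rw [hr1, hr2]; push_cast; ring
    rw [h4, hr1, hr3]
    push_cast at hneC ⊢
    field_simp
    ring
  refine measure_mono_null hsub ?_
  refine le_antisymm ((measure_biUnion_finset_le S _).trans ?_) zero_le
  refine le_of_eq (Finset.sum_eq_zero ?_)
  intro q _
  exact line_null q.1 q.2

end Pool.H46.Bi
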