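import Pool.Agent.H46.Bi.Half
import Pool.Agent.H46.Bi.Geo
import Pool.Agent.H46.Bi.Cne
import Pool.Agent.H46.Bi.Fix

/-!
# [H46 BI DIC] a nonsingular trajectory is defined for all times
-/

set_option autoImplicit false

open MeasureTheory Metric Set Filter Topology

namespace Pool.H46.Bi

private theorem zero_mem_D {U : Set ℂ} {x : ℂ} {θ : Tor} (hx : x ∈ U) :
    (0 : ℝ) ∈ {t : ℝ | ∃ g, Reach U t g x θ} := by
  refine ⟨Mo.one, Reach.str 0 x θ (le_refl _) ?_⟩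
  intro s hs
  have : s = 0 := le_antisymm hs.2 hs.1
  rw [this]
  simpa using hx

theorem sup_vertex {U : Set ℂ} (hP : Poly U) {x : ℂ} {θ : Tor} (hx : x ∈ U)
    (hb : BddAbove {t : ℝ | ∃ g, Reach U t g x θ}) :
    ∃ v ∈ V0 U, ∀ κ : ℝ, 0 < κ → ∃ (t : ℝ) (g : Mo), Reach U t g x θ ∧
      sSup {t : ℝ | ∃ g, Reach U t g x θ} - κ < t ∧ ‖g.act (x + t * e θ) - v‖ < κ := by
  set D := {t : ℝ | ∃ g, Reach U t g x θ} with hD
  have hne : D.Nonempty := ⟨0, zero_mem_D hx⟩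
  have hchoice : ∀ n : ℕ, ∃ t : ℝ, ∃ g : Mo, Reach U t g x θ ∧ sSup D - 1 / ((n : ℝ) + 1) < t := by
    intro n
    have hpos : 0 < 1 / ((n : ℝ) + 1) := by positivity
    obtain ⟨t, ⟨g, hg⟩, ht⟩ := exists_lt_of_lt_csSup hne (show sSup D - 1 / ((n : ℝ) + 1) < sSup D by
      linarith)
    exact ⟨t, g, hg, ht⟩
  choose t g hr ht using hchoice
  have hcomp : IsCompact (closure U) := hP.bdd.isCompact_closure
  obtain ⟨v, hv, φ, hφ, hlim⟩ := hcomp.tendsto_subseq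
    (x := fun n => (g n).act (x + t n * e θ))
    (fun n => subset_closure (Reach.end_mem hP.isOpen (hr n)))
  have hlim' : ∀ κ : ℝ, 0 < κ → ∀ᶠ n in atTop, ‖(g (φ n)).act (x + t (φ n) * e θ) - v‖ < κ := by
    intro κ hκ
    have := Metric.tendsto_nhds.mp hlim κ hκ
    simpa [dist_eq_norm] using this
  have htim : ∀ κ : ℝ, 0 < κ → ∀ᶠ n in atTop, sSup D - κ < t (φ n) := by
    intro κ hκ
    have h1 : Tendsto (fun n : ℕ => 1 / ((n : ℝ) + 1)) atTop (𝓝 0) :=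
      tendsto_one_div_add_atTop_nhds_zero_nat
    have h2 := (h1.comp hφ.tendsto_atTop).eventually (gt_mem_nhds hκ)
    filter_upwards [h2] with n hn
    have h3 := ht (φ n)
    simp only [Function.comp_apply] at hn
    linarith
  have hboth : ∀ κ : ℝ, 0 < κ → ∃ n, ‖(g (φ n)).act (x + t (φ n) * e θ) - v‖ < κ ∧
      sSup D - κ < t (φ n) := fun κ hκ => ((hlim' κ hκ).and (htim κ hκ)).exists
  have hV : v ∈ V0 U := by
    have hnot : ¬ (v ∈ U ∨ ∃ α ε, Chart U v α ε) := by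
      intro hgood
      obtain ⟨ρ, hρ, hext⟩ := extend hP.isOpen hgood
      obtain ⟨n, hn1, hn2⟩ := hboth ρ hρ
      have hy : (g (φ n)).act (x + t (φ n) * e θ) ∈ U := Reach.end_mem hP.isOpen (hr (φ n))
      obtain ⟨s, hs, g', hg'⟩ := hext _ hy (mem_ball_iff_norm.mpr hn1) ((g (φ n)).dir θ)
      have h5 := Reach.trans _ _ _ _ _ _ (hr (φ n)) hg'
      have hle := le_csSup hb (show t (φ n) + s ∈ D from ⟨_, h5⟩)
      linarith
    have hvU : v ∉ U := fun h => hnot (Or.inl h)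
    refine ⟨?_, fun h => hnot (Or.inr h)⟩
    rw [hP.isOpen.frontier_eq]
    exact ⟨hv, hvU⟩
  refine ⟨v, hV, ?_⟩
  intro κ hκ
  obtain ⟨n, hn1, hn2⟩ := hboth κ hκ
  exact ⟨_, _, hr (φ n), hn2, hn1⟩

theorem ns_trans {U : Set ℂ} {x : ℂ} {θ : Tor} (h : NS U x θ) {t : ℝ} {g : Mo}
    (hr : Reach U t g x θ) : NS U (g.act (x + t * e θ)) (g.dir θ) := by
  intro τ hτ hmem
  obtain ⟨g', hg', hv⟩ := hmem
  have e1 : g.act (x + t * e θ) + τ * e (g.dir θ) = g.act (x + ((t + τ : ℝ) : ℂ) * e θ) := by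
    rw [← Mo.act_line]
    congr 1
    push_cast; ring
  rw [e1, ← Mo.mul_act] at hv
  exact h (t + τ) (by linarith [hr.nonneg]) ⟨Mo.mul g' g, Gen.mul _ _ hg' hr.gen, hv⟩

theorem reach_unbounded {U : Set ℂ} (hP : Poly U) {x : ℂ} {θ : Tor} (hx : x ∈ U)
    (h : NS U x θ) (T : ℝ) : ∃ t : ℝ, T ≤ t ∧ ∃ g, Reach U t g x θ := by
  by_contra hcon
  have hb : BddAbove {t : ℝ | ∃ g, Reach U t g x θ} := by
    refine ⟨T, ?_⟩
    rintro t ⟨g, hg⟩
    by_contra hlt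
    exact hcon ⟨t, (not_le.mp hlt).le, g, hg⟩
  obtain ⟨v, hv, hap⟩ := sup_vertex hP hx hb
  obtain ⟨r0, hr0, hcone, hsep⟩ := common_radius hP (V0_finite hP).toFinset
  have hvm : v ∈ (V0_finite hP).toFinset := by simpa using hv
  obtain ⟨t1, g1, hr1, ht1, hd1⟩ := hap (r0 / 4) (by positivity)
  set y1 := g1.act (x + t1 * e θ) with hy1
  set u1 := g1.dir θ with hu1
  have hy1U : y1 ∈ U := Reach.end_mem hP.isOpen hr1
  have hns1 : NS U y1 u1 := ns_trans h hr1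
  have hD1le : ∀ t ∈ {t : ℝ | ∃ g, Reach U t g y1 u1},
      t1 + t ≤ sSup {t : ℝ | ∃ g, Reach U t g x θ} := by
    rintro t ⟨g, hg⟩
    exact le_csSup hb ⟨_, Reach.trans _ _ _ _ _ _ hr1 hg⟩
  have hb1 : BddAbove {t : ℝ | ∃ g, Reach U t g y1 u1} :=
    ⟨sSup {t : ℝ | ∃ g, Reach U t g x θ} - t1, fun t ht => by linarith [hD1le t ht]⟩
  obtain ⟨v2, hv2, hap2⟩ := sup_vertex hP hy1U hb1
  have hvv : v2 = v := by
    by_contra hne
    have h4 := hsep v2 (by simpa using hv2) v hvm hne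
    obtain ⟨t, g, hr, ht, hd⟩ := hap2 (r0 / 4) (by positivity)
    have h1 := reach_dist hP.isOpen hr
    have h2 := hD1le t ⟨g, hr⟩
    have h3 : ‖v2 - v‖ ≤ ‖g.act (y1 + t * e u1) - v2‖ + ‖g.act (y1 + t * e u1) - y1‖
        + ‖y1 - v‖ := by
      have h5 : v2 - v = -(g.act (y1 + t * e u1) - v2) + (g.act (y1 + t * e u1) - y1)
          + (y1 - v) := by ring
      rw [h5]
      refine (norm_add_le _ _).trans ?_
      have h6 := norm_add_le (-(g.act (y1 + t * e u1) - v2)) (g.act (y1 + t * e u1) - y1)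
      rw [norm_neg] at h6
      linarith
    linarith
  rw [hvv] at hap2 hv2
  set T1 := sSup {t : ℝ | ∃ g, Reach U t g y1 u1} with hT1def
  have hT1 : y1 + T1 * e u1 = v := by
    have hsmall : ∀ κ : ℝ, 0 < κ → ‖y1 + T1 * e u1 - v‖ < κ := by
      intro κ hκ
      obtain ⟨t, g, hr, ht, hd⟩ := hap2 (κ / 2) (by positivity)
      have h2 := hD1le t ⟨g, hr⟩
      have h3 : t ≤ T1 := le_csSup hb1 ⟨g, hr⟩
      have hfix : g.act v = v := by
        apply reach_fix hP.isOpen (hcone v hvm) hr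
        linarith
      have h4 : ‖y1 + t * e u1 - v‖ = ‖g.act (y1 + t * e u1) - v‖ := by
        rw [← Mo.norm_act_sub g, hfix]
      have h5 : y1 + T1 * e u1 - v = ((T1 - t : ℝ) : ℂ) * e u1 + (y1 + t * e u1 - v) := by
        push_cast; ring
      have h6 : ‖((T1 - t : ℝ) : ℂ) * e u1‖ = T1 - t := by
        rw [norm_mul, norm_e, mul_one, Complex.norm_real, Real.norm_eq_abs,
          abs_of_nonneg (by linarith)]
      rw [h5]
      refine lt_of_le_of_lt (norm_add_le _ _) ?_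
      rw [h6, h4]
      linarith
    by_contra hne
    have hpos : 0 < ‖y1 + T1 * e u1 - v‖ := norm_pos_iff.mpr (sub_ne_zero.mpr hne)
    exact lt_irrefl _ (hsmall _ hpos)
  have hT1nn : 0 ≤ T1 := le_csSup hb1 (zero_mem_D hy1U)
  have hvU : v ∉ U := by
    intro hvU
    have := hv.1
    rw [hP.isOpen.frontier_eq] at this
    exact this.2 hvU
  have hT1pos : 0 < T1 := by
    rcases hT1nn.lt_or_eq with h0 | h0
    · exact h0
    · exfalso
      apply hvU
      rw [← hT1, ← h0]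
      simpa using hy1U
  apply hns1 T1 hT1pos
  rw [hT1]
  exact ⟨Mo.one, Gen.one, by rw [Mo.one_act]; exact hv⟩

end Pool.H46.Bi
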