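import Pool.Agent.H46.Bi.Mdef

/-!
# [H46 BI ERG] irrational rotation (20-40 lines)

h_const: with ρ = α + α - (β + β): h (ρ + θ) = h (α + α - (β + β - θ)) = h (β + β - θ) = h θ for a.e. θ
(the first a.e. statement pulled back under θ ↦ β + β - θ, which preserves the measure:
Measure.measurePreserving_sub_left or composition of negation and translation). The rotation
θ ↦ ρ + θ is ergodic by AddCircle.ergodic_add_left (Mathlib.Dynamics.Ergodic.AddCircleAdd:
Ergodic (ρ + ·) ↔ addOrderOf ρ = 0, for the volume), and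
an ergodic map has only constant invariant functions a.e.: Ergodic.ae_eq_const_of_ae_eq_comp₀ /
QuasiErgodic.ae_eq_const_of_ae_eq_comp (Mathlib.Dynamics.Ergodic.Function).
-/

set_option autoImplicit false

open MeasureTheory Metric Set

namespace Pool.H46.Bi

theorem h_const {h : Tor → ℝ} (hh : Measurable h) {α β : Tor}
    (hα : ∀ᵐ θ : Tor, h (α + α - θ) = h θ) (hβ : ∀ᵐ θ : Tor, h (β + β - θ) = h θ)
    (hord : addOrderOf (α + α - (β + β)) = 0) : ∃ c : ℝ, ∀ᵐ θ : Tor, h θ = c := by
  have h1 : ∀ᵐ θ : Tor, h (β + β - (β + β - θ)) = h (β + β - θ) := by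
    have := (Measure.measurePreserving_sub_left (volume : Measure Tor) (β + β)).quasiMeasurePreserving.ae hβ
    exact this
  have h2 : ∀ᵐ θ : Tor, h (α + α - (β + β - θ)) = h (β + β - θ) := by
    have := (Measure.measurePreserving_sub_left (volume : Measure Tor) (β + β)).quasiMeasurePreserving.ae hα
    exact this
  have herg : Ergodic ((α + α - (β + β)) + · : Tor → Tor) := AddCircle.ergodic_add_left.2 hord
  have hinv : h ∘ ((α + α - (β + β)) + · : Tor → Tor) =ᵐ[volume] h := by
    filter_upwards [h1, h2] with θ hθ1 hθ2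
    have e1 : α + α - (β + β) + θ = α + α - (β + β - θ) := by abel
    have e2 : β + β - (β + β - θ) = θ := by abel
    rw [Function.comp_apply, e1, hθ2, ← hθ1, e2]
  obtain ⟨c, hc⟩ := herg.ae_eq_const_of_ae_eq_comp_ae hh.aestronglyMeasurable hinv
  exact ⟨c, hc⟩

end Pool.H46.Bi
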