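import Pool.Agent.H46.Bi.Half

/-!
# [H46 BI REV] reversibility (60-90 lines)

reach_rev: induction on Reach. Notation y = g.act (x + t e θ), φ = g.dir θ.
 - str: y = x + t e θ (one_act, one_dir), e (θ + π) = - e θ (e_add_pi), so
   y + s e (θ + π) = x + (t - s) e θ ∈ U for s ∈ [0,t]; Mo.inv_one.
 - bounce: g = refl p α, y = refl (x + t e θ) lies in the ball (Mo.norm_refl_sub), on the side of
   x (side_refl), in U (Reach.end_mem or half_ball). y + t e (φ + π) = g.act (x + t e θ) - t e φ
   = g.act x by Mo.act_line; it is in the ball and on the other side (side_refl). So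
   Reach.bounce gives it with refl p α = inv (refl p α) (Mo.inv_refl).
 - trans: Mo.inv_mul_rev; first the reversed second part, from the end state: its end is
   (g'.inv).act (y' + t' e (φ' + π)) where y' = g'.act (z + t' e ψ), z = g.act (x + t e θ),
   ψ = g.dir θ, φ' = g'.dir ψ: y' + t' e(φ'+π) = g'.act (z + t' e ψ) - t' e (g'.dir ψ) = g'.act z by
   Mo.act_line, so the end is z, with direction g'.inv.dir (φ' + π) = ψ + π (Mo.dir_add_pi,
   Mo.inv_dir_dir). Then the reversed first part. Times: t' + t = t + t' (add_comm).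
   Mo.mul_act, Mo.mul_dir rewrite the end state of the composition; note
   (mul g' g).act (x + (t+t') e θ) = g'.act (g.act (x + t e θ) + t' e (g.dir θ)).
inv_rev: for F (x, θ) := f (x, θ + π): if Reach U t g x θ then by reach_rev
Reach U t g.inv y (φ + π), and Inv U f applied to it gives f (x', θ') = f (y, φ + π) with
x' = g.inv.act (y + t e (φ + π)) = g.inv.act (g.act x) = x and
θ' = g.inv.dir (φ + π) = θ + π.
-/

set_option autoImplicit false

open MeasureTheory Metric Set

namespace Pool.H46.Bi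

private theorem rev_end (g : Mo) (x : ℂ) (t : ℝ) (θ : Tor) :
    g.act (x + t * e θ) + t * e (g.dir θ + ((Real.pi : ℝ) : Tor)) = g.act x := by
  rw [Mo.act_line, e_add_pi]
  ring

theorem reach_rev {U : Set ℂ} (hU : IsOpen U) {t : ℝ} {g : Mo} {x : ℂ} {θ : Tor}
    (h : Reach U t g x θ) :
    Reach U t g.inv (g.act (x + t * e θ)) (g.dir θ + ((Real.pi : ℝ) : Tor)) := by
  induction h with
  | str t x θ ht hs =>
    rw [Mo.inv_one, Mo.one_act, Mo.one_dir]
    refine Reach.str t _ _ ht ?_
    intro s hs'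
    have h1 : x + (t : ℂ) * e θ + (s : ℂ) * e (θ + ((Real.pi : ℝ) : Tor)) =
        x + ((t - s : ℝ) : ℂ) * e θ := by
      rw [e_add_pi]
      push_cast
      ring
    rw [h1]
    exact hs (t - s) ⟨by linarith [hs'.2], by linarith [hs'.1]⟩
  | bounce t x θ p α ε ht hc hx hxb hyb hside =>
    rw [Mo.inv_refl]
    have hend : (Mo.refl p α).act (x + t * e θ) ∈ U :=
      Reach.end_mem hU (Reach.bounce t x θ p α ε ht hc hx hxb hyb hside)
    refine Reach.bounce t _ _ p α ε ht hc hend ?_ ?_ ?_
    · rw [mem_ball, dist_eq_norm, Mo.norm_refl_sub]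
      rwa [mem_ball, dist_eq_norm] at hyb
    · rw [rev_end, mem_ball, dist_eq_norm, Mo.norm_refl_sub]
      rwa [mem_ball, dist_eq_norm] at hxb
    · rw [rev_end, side_refl, side_refl]
      nlinarith
  | trans t t' g g' x θ _ _ ih1 ih2 =>
    have h1 : (Mo.mul g' g).act (x + ((t + t' : ℝ) : ℂ) * e θ) =
        g'.act (g.act (x + t * e θ) + t' * e (g.dir θ)) := by
      rw [Mo.mul_act]
      have h2 : x + ((t + t' : ℝ) : ℂ) * e θ = (x + t * e θ) + t' * e θ := by
        push_cast
        ring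
      rw [h2, Mo.act_line g (x + t * e θ) t' θ]
    rw [h1, Mo.mul_dir, Mo.inv_mul_rev, add_comm t t']
    refine Reach.trans t' t g'.inv g.inv _ _ ih2 ?_
    rw [rev_end, Mo.inv_act_act, Mo.dir_add_pi, Mo.inv_dir_dir]
    exact ih1

theorem inv_rev {U : Set ℂ} (hU : IsOpen U) {f : ℂ × Tor → ℝ} (hf : Inv U f) :
    Inv U (fun q => f (q.1, q.2 + ((Real.pi : ℝ) : Tor))) := by
  intro t g x θ h
  have h1 := hf _ _ _ _ (reach_rev hU h)
  unfold Phi at h1 ⊢
  simp only at h1 ⊢
  rw [rev_end, Mo.inv_act_act, Mo.dir_add_pi, Mo.inv_dir_dir] at h1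
  exact h1.symm

end Pool.H46.Bi
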