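import Pool.Agent.H46.Bi.Opn
import Pool.Agent.H46.Bi.Det
import Pool.Agent.H46.Bi.Rev
import Pool.Agent.H46.Bi.Cnt

/-!
# [H46 BI MEA] the billiard map at time T preserves the measure (100-140 lines)

phi_mp: Phi g T is the composition of (x, θ) ↦ (x + T e θ, θ), of g.act on the first and of
g.dir on the second factor. The first is a skew product of translations over the second factor
(MeasurePreserving.skew_product on the swapped space; or MeasurePreserving via
measurePreserving_prod_... ; ℂ is an additive group: for each θ the translation by T e θ preserves
volume: measurePreserving_add_right). g.act z = e a * z + b or e a * conj z + b: linear isometry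
equivalences of ℂ preserve volume (LinearIsometryEquiv.measurePreserving; rotation a,
Complex.conjLIE) and translations do. g.dir: θ ↦ a + θ or a - θ preserves the Haar measure of the
circle (measurePreserving_add_left, Measure.measurePreserving_neg / IsNegInvariant).

push_le: let R g = {q | Reach U T g q.1 q.2} (open, reach_isOpen). Phi g T maps R g into
U ×ˢ univ (Reach.end_mem). The images Phi g T '' (R g) are pairwise disjoint and Phi g T is
injective: if Reach U T g q and Reach U T g' q' have the same end state w = (y, φ), then by
reach_rev Reach U T g.inv y (φ + π) and Reach U T g'.inv y (φ + π), so g.inv = g'.inv by reach_det,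
so g = g' (Mo.inv_injective), and then q = q' (Mo.act_injective, Mo.dir_injective). So
∑' g, ∫ indicator (R g) (F ∘ Phi g T) = ∑' g, ∫ over Phi '' (R g) of F (the map Phi g T is a
measurable embedding that preserves the measure:
MeasurePreserving.setLIntegral_comp_preimage_emb with s = Phi '' R g, whose preimage is R g;
MeasurableEmbedding of a continuous injective map between standard Borel spaces:
Continuous.measurableEmbedding, or build the inverse from g.inv) = ∫ over the union (lintegral_iUnion
for pairwise disjoint measurable sets, countable index type by gen_countable) ≤ ∫ over U ×ˢ univ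
(lintegral_mono_set).
-/

set_option autoImplicit false

open MeasureTheory Metric Set

namespace Pool.H46.Bi

/-- rotations preserve the area -/
theorem rot_mp (α : Tor) : MeasurePreserving (fun z : ℂ => e α * z)
    (volume : Measure ℂ) volume := by
  have h := (rotation (AddCircle.toCircle α)).measurePreserving
  exact h

/-- motions preserve the area -/
theorem act_mp (g : Mo) : MeasurePreserving g.act (volume : Measure ℂ) volume := by
  rcases g with ⟨a, b, c⟩
  cases c
  · have h : (Mo.mk a b false).act = (fun z => z + b) ∘ (fun z => e a * z) := by
      funext z; simp [Mo.act]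
    rw [h]
    exact (measurePreserving_add_right volume b).comp (rot_mp a)
  · have h : (Mo.mk a b true).act
        = (fun z => z + b) ∘ ((fun z => e a * z) ∘ (fun z => Complex.conjLIE z)) := by
      funext z; simp [Mo.act]
    rw [h]
    exact (measurePreserving_add_right volume b).comp
      ((rot_mp a).comp Complex.conjLIE.measurePreserving)

/-- the action on directions preserves the length -/
theorem dir_mp (g : Mo) : MeasurePreserving g.dir (volume : Measure Tor) volume := by
  rcases g with ⟨a, b, c⟩
  cases c
  · have h : (Mo.mk a b false).dir = fun θ => a + θ := by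
      funext z; simp [Mo.dir]
    rw [h]
    exact measurePreserving_add_left volume a
  · have h : (Mo.mk a b true).dir = (fun θ => a + θ) ∘ (fun θ => -θ) := by
      funext z; simp [Mo.dir]
    rw [h]
    exact (measurePreserving_add_left volume a).comp (Measure.measurePreserving_neg volume)

theorem phi_mp (g : Mo) (T : ℝ) :
    MeasurePreserving (Phi g T) (volume : Measure (ℂ × Tor)) volume := by
  have hsk : MeasurePreserving (fun p : Tor × ℂ => (g.dir p.1, g.act (p.2 + T * e p.1)))
      ((volume : Measure Tor).prod (volume : Measure ℂ))
      ((volume : Measure Tor).prod (volume : Measure ℂ)) := by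
    refine MeasurePreserving.skew_product (g := fun (θ : Tor) (x : ℂ) => g.act (x + T * e θ))
      (dir_mp g) ?_ ?_
    · have hc : Continuous (fun p : Tor × ℂ => g.act (p.2 + T * e p.1)) :=
        g.act_continuous.comp (continuous_snd.add
          (continuous_const.mul (e_continuous.comp continuous_fst)))
      exact hc.measurable
    · refine Filter.Eventually.of_forall fun θ => ?_
      exact ((act_mp g).comp (measurePreserving_add_right volume ((T : ℂ) * e θ))).map_eq
  have hcomp := (Measure.measurePreserving_swap (μ := (volume : Measure Tor))
    (ν := (volume : Measure ℂ))).comp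
      (hsk.comp (Measure.measurePreserving_swap (μ := (volume : Measure ℂ))
        (ν := (volume : Measure Tor))))
  exact hcomp

theorem phi_injective (g : Mo) (T : ℝ) : Function.Injective (Phi g T) := by
  rintro ⟨x, θ⟩ ⟨y, φ⟩ h
  unfold Phi at h
  simp only [Prod.mk.injEq] at h
  have h2 : θ = φ := g.dir_injective h.2
  subst h2
  have h1 := g.act_injective h.1
  have h3 : x = y := by
    have := add_right_cancel h1
    exact this
  rw [h3]

theorem push_le {U : Set ℂ} (hP : Poly U) (T : ℝ) (F : ℂ × Tor → ENNReal) (hF : Measurable F) :
    ∑' g : {g : Mo // Gen U g}, ∫⁻ q : ℂ × Tor,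
      ({q : ℂ × Tor | Reach U T g.1 q.1 q.2}).indicator (fun q => F (Phi g.1 T q)) q
      ≤ ∫⁻ q in U ×ˢ (univ : Set Tor), F q := by
  classical
  have hU := hP.isOpen
  haveI : Countable {g : Mo // Gen U g} := (gen_countable hP).to_subtype
  have hemb : ∀ g : Mo, MeasurableEmbedding (Phi g T) := fun g =>
    (Phi_continuous g T).measurableEmbedding (phi_injective g T)
  have h1 : ∀ g : {g : Mo // Gen U g}, ∫⁻ q : ℂ × Tor,
      ({q : ℂ × Tor | Reach U T g.1 q.1 q.2}).indicator (fun q => F (Phi g.1 T q)) q
      = ∫⁻ q in Phi g.1 T '' {q : ℂ × Tor | Reach U T g.1 q.1 q.2}, F q := by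
    intro g
    rw [lintegral_indicator (reach_isOpen hU T g.1).measurableSet]
    exact (phi_mp g.1 T).setLIntegral_comp_emb (hemb g.1) F _
  simp_rw [h1]
  rw [← lintegral_iUnion]
  · refine lintegral_mono_set (iUnion_subset fun g => ?_)
    rintro _ ⟨⟨x, θ⟩, hq, rfl⟩
    refine ⟨?_, mem_univ _⟩
    exact Reach.end_mem hU hq
  · intro g
    exact (hemb g.1).measurableSet_image' (reach_isOpen hU T g.1).measurableSet
  · intro g g' hne
    rw [Function.onFun, Set.disjoint_left]
    rintro w ⟨⟨x, θ⟩, hq, rfl⟩ ⟨⟨y, φ⟩, hq', hw⟩
    apply hne
    have hr := reach_rev hU hq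
    have hr' := reach_rev hU hq'
    unfold Phi at hw
    simp only [Prod.mk.injEq] at hw
    simp only at hr hr'
    rw [hw.1, hw.2] at hr'
    exact Subtype.ext (Mo.inv_injective (reach_det hU hr hr'))

end Pool.H46.Bi
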