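import Pool.Agent.H46.Bi.Mdef
import Pool.Agent.H46.Bi.Mea

/-!
# [H46 BI ES1] the estimate for one pencil (80-120 lines)

Let W = Wset U V r (measurable: U open), D q = W.indicator (‖f (q.1, q.2 + η) - f q‖ₑ +
‖f (q.1, q.2 - η) - f q‖ₑ), ∫ D ≤ 2 ofReal (C |η|) (BVd for η and for -η; q.2 - η = q.2 + (-η)).
S1 q = ∑' g : {g // Gen U g}, indicator {Reach U T g} (D ∘ Phi g T) q; by lintegral_tsum (countable
index: gen_countable; measurable: reach_isOpen, Phi_continuous) and push_le
∫ S1 ≤ ∫ over U ×ˢ univ of D ≤ ∫ D.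
S2 q = (W.indicator (fun q => ‖f (q.1, q.2 - η) - f q‖ₑ)) (shp T η q.1 q.2, q.2); the map
q ↦ (shp T η q.1 q.2, q.2) preserves the measure (a translation of the first coordinate that
depends on the second one; for instance lintegral_prod_symm and lintegral_add_right_eq_self, or
MeasurePreserving.skew_product), so ∫ S2 ≤ ofReal (C |η|). S = S1 + S2.
Pointwise, q = (x, θ) with Conds, x' = shp T η x θ, Y = g.act (x + T e θ), φ = g.dir θ: Inv gives
f (Y, φ) = f (x, θ); by shp_meet Phi g T (x', θ - η) = (Y, g.dir (θ - η)), and g.dir (θ - η) is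
φ - η or φ + η (Mo.dir_add), so Inv gives f (x', θ - η) = f (Y, φ ∓ η), and (Y, φ) ∈ W (Reach.end_mem
and the condition). Hence ‖f (x', θ - η) - f (x, θ)‖ₑ ≤ D (Y, φ) ≤ S1 q (the term of g; Reach.gen;
ENNReal.le_tsum). Also ‖f (x', θ) - f (x', θ - η)‖ₑ ≤ S2 q. Finally with
z1 = x + T sin η nrm θ: f (z1, θ) = f (x', θ) by Inv and Reach.str for the time T (1 - cos η) ≥ 0
(shp_eq; the points z1 + s e θ lie in the segment). Triangle inequality (enorm_add_le).
-/

set_option autoImplicit false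

open MeasureTheory Metric Set

namespace Pool.H46.Bi

private theorem Es1_W_meas {U : Set ℂ} (hU : IsOpen U) (V : Finset ℂ) (r : ℝ) :
    MeasurableSet (Wset U V r) := by
  have h1 : Wset U V r = (Prod.fst ⁻¹' U) ∩ ⋂ v ∈ V, {q : ℂ × Tor | r ≤ ‖q.1 - v‖} := by
    ext q
    simp [Wset]
  rw [h1]
  refine (hU.preimage continuous_fst).measurableSet.inter ?_
  refine Finset.measurableSet_biInter _ fun v _ => ?_
  refine (isClosed_le continuous_const ?_).measurableSet
  fun_prop

/-- the shift of the point preserves the measure -/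
private theorem Es1_shp_mp (T η : ℝ) :
    MeasurePreserving (fun q : ℂ × Tor => (shp T η q.1 q.2, q.2))
      (volume : Measure (ℂ × Tor)) volume := by
  have hsk : MeasurePreserving
      (fun p : Tor × ℂ => (p.1, p.2 + T * (e p.1 - e (p.1 - (η : Tor)))))
      ((volume : Measure Tor).prod (volume : Measure ℂ))
      ((volume : Measure Tor).prod (volume : Measure ℂ)) := by
    refine MeasurePreserving.skew_product
      (g := fun (θ : Tor) (x : ℂ) => x + T * (e θ - e (θ - (η : Tor))))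
      (MeasurePreserving.id _) ?_ ?_
    · have hc : Continuous (fun p : Tor × ℂ => p.2 + T * (e p.1 - e (p.1 - (η : Tor)))) := by
        refine continuous_snd.add (continuous_const.mul ?_)
        exact (e_continuous.comp continuous_fst).sub
          (e_continuous.comp (continuous_fst.sub continuous_const))
      exact hc.measurable
    · refine Filter.Eventually.of_forall fun θ => ?_
      exact (measurePreserving_add_right volume ((T : ℂ) * (e θ - e (θ - (η : Tor))))).map_eq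
  have hcomp := (Measure.measurePreserving_swap (μ := (volume : Measure Tor))
    (ν := (volume : Measure ℂ))).comp
      (hsk.comp (Measure.measurePreserving_swap (μ := (volume : Measure ℂ))
        (ν := (volume : Measure Tor))))
  exact hcomp

private theorem Es1_str {U : Set ℂ} {f : ℂ × Tor → ℝ} (hinv : Inv U f) {z : ℂ} {θ : Tor}
    {t : ℝ} (ht : 0 ≤ t) (hseg : ∀ w ∈ segment ℝ z (z + t * e θ), w ∈ U) :
    f (z + t * e θ, θ) = f (z, θ) := by
  have h1 : Reach U t Mo.one z θ := by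
    refine Reach.str t z θ ht fun s hs => hseg _ ?_
    rw [segment_eq_image']
    rcases eq_or_lt_of_le ht with h | h
    · have hs0 : s = 0 := le_antisymm (by rw [h]; exact hs.2) hs.1
      refine ⟨0, ⟨le_rfl, zero_le_one⟩, ?_⟩
      simp [hs0]
    · refine ⟨s / t, ⟨div_nonneg hs.1 ht, (div_le_one h).2 hs.2⟩, ?_⟩
      have h2 : (t : ℂ) ≠ 0 := Complex.ofReal_ne_zero.2 h.ne'
      simp only [add_sub_cancel_left, Complex.real_smul]
      push_cast
      field_simp
  have h2 := hinv t Mo.one z θ h1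
  unfold Phi at h2
  simp only [Mo.one_act, Mo.one_dir] at h2
  exact h2

theorem est_single {U : Set ℂ} (hP : Poly U) {f : ℂ × Tor → ℝ} (hf : Measurable f)
    (hinv : Inv U f) {V : Finset ℂ} {r C : ℝ} (hbv : BVd U V r C f) {T : ℝ} (hT : 0 ≤ T)
    {η : ℝ} (hη : |η| < 1) :
    ∃ S : ℂ × Tor → ENNReal, Measurable S ∧ ∫⁻ q, S q ≤ 3 * ENNReal.ofReal (C * |η|) ∧
      ∀ q : ℂ × Tor, Conds U V r T η q →
        ‖f (q.1 + ((T * Real.sin η : ℝ) : ℂ) * nrm q.2, q.2) - f q‖ₑ ≤ S q := by
  classical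
  have hU := hP.isOpen
  have : Countable {g : Mo // Gen U g} := (gen_countable hP).to_subtype
  have hW := Es1_W_meas hU V r
  have hsh : ∀ a : Tor, Measurable fun q : ℂ × Tor => ‖f (q.1, q.2 + a) - f q‖ₑ := by
    intro a
    have h1 : Measurable fun q : ℂ × Tor => f (q.1, q.2 + a) :=
      hf.comp (measurable_fst.prodMk (measurable_snd.add_const a))
    exact (h1.sub hf).enorm
  obtain ⟨A, hA⟩ : ∃ A : ℂ × Tor → ENNReal, A = fun q => ‖f (q.1, q.2 + (η : Tor)) - f q‖ₑ :=
    ⟨_, rfl⟩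
  obtain ⟨B, hB⟩ : ∃ B : ℂ × Tor → ENNReal, B = fun q => ‖f (q.1, q.2 + (-η : Tor)) - f q‖ₑ :=
    ⟨_, rfl⟩
  have hAm : Measurable A := by rw [hA]; exact hsh _
  have hBm : Measurable B := by rw [hB]; exact hsh _
  have hAi : ∫⁻ q in Wset U V r, A q ≤ ENNReal.ofReal (C * |η|) := by
    rw [hA]
    exact hbv η hη
  have hBi : ∫⁻ q in Wset U V r, B q ≤ ENNReal.ofReal (C * |η|) := by
    rw [hB]
    have h1 := hbv (-η) (by rwa [abs_neg])
    rw [abs_neg, AddCircle.coe_neg] at h1
    exact h1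
  obtain ⟨D, hD⟩ : ∃ D : ℂ × Tor → ENNReal, D = (Wset U V r).indicator (fun q => A q + B q) :=
    ⟨_, rfl⟩
  have hDm : Measurable D := by
    rw [hD]
    exact (hAm.add hBm).indicator hW
  have hDi : ∫⁻ q, D q ≤ 2 * ENNReal.ofReal (C * |η|) := by
    rw [hD, lintegral_indicator hW, lintegral_add_left hAm]
    refine (add_le_add hAi hBi).trans (le_of_eq ?_)
    exact (two_mul _).symm
  obtain ⟨S1, hS1⟩ : ∃ S1 : ℂ × Tor → ENNReal, S1 = fun q => ∑' g : {g : Mo // Gen U g},
      ({q : ℂ × Tor | Reach U T g.1 q.1 q.2}).indicator (fun q => D (Phi g.1 T q)) q := ⟨_, rfl⟩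
  have hterm : ∀ g : {g : Mo // Gen U g}, Measurable fun q : ℂ × Tor =>
      ({q : ℂ × Tor | Reach U T g.1 q.1 q.2}).indicator (fun q => D (Phi g.1 T q)) q := by
    intro g
    exact (hDm.comp (Phi_continuous g.1 T).measurable).indicator
      (reach_isOpen hU T g.1).measurableSet
  have hS1m : Measurable S1 := by
    rw [hS1]
    exact Measurable.tsum hterm
  have hS1i : ∫⁻ q, S1 q ≤ 2 * ENNReal.ofReal (C * |η|) := by
    rw [hS1, lintegral_tsum fun g => (hterm g).aemeasurable]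
    exact (push_le hP T D hDm).trans ((setLIntegral_le_lintegral _ _).trans hDi)
  obtain ⟨E, hE⟩ : ∃ E : ℂ × Tor → ENNReal, E = (Wset U V r).indicator B := ⟨_, rfl⟩
  have hEm : Measurable E := by
    rw [hE]
    exact hBm.indicator hW
  have hEi : ∫⁻ q, E q ≤ ENNReal.ofReal (C * |η|) := by
    rw [hE, lintegral_indicator hW]
    exact hBi
  obtain ⟨S2, hS2⟩ : ∃ S2 : ℂ × Tor → ENNReal, S2 = fun q => E (shp T η q.1 q.2, q.2) :=
    ⟨_, rfl⟩
  have hmp := Es1_shp_mp T η
  have hS2m : Measurable S2 := by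
    rw [hS2]
    exact hEm.comp hmp.measurable
  have hS2i : ∫⁻ q, S2 q ≤ ENNReal.ofReal (C * |η|) := by
    rw [hS2, hmp.lintegral_comp hEm]
    exact hEi
  refine ⟨fun q => S1 q + S2 q, hS1m.add hS2m, ?_, ?_⟩
  · rw [lintegral_add_left hS1m]
    refine (add_le_add hS1i hS2i).trans (le_of_eq ?_)
    rw [show (3 : ENNReal) = 2 + 1 by norm_num, add_mul, one_mul]
  · rintro ⟨x, θ⟩ ⟨⟨g, hr1, hr2, hgV⟩, ⟨hx'U, hx'V⟩, hseg⟩
    simp only at hr1 hr2 hgV hx'U hx'V hseg ⊢
    obtain ⟨x', hx'⟩ : ∃ x', x' = shp T η x θ := ⟨_, rfl⟩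
    rw [← hx'] at hr2 hx'U hx'V hseg
    -- the common point
    have hY : g.act (x' + T * e (θ - (η : Tor))) = g.act (x + T * e θ) := by
      rw [hx', shp_meet]
    have e1 : f (g.act (x + T * e θ), g.dir θ) = f (x, θ) := hinv T g x θ hr1
    have e2 : f (g.act (x + T * e θ), g.dir (θ - (η : Tor))) = f (x', θ - (η : Tor)) := by
      have h1 := hinv T g x' (θ - (η : Tor)) hr2
      unfold Phi at h1
      simp only at h1
      rwa [hY] at h1
    have hmem : (g.act (x + T * e θ), g.dir θ) ∈ Wset U V r := ⟨Reach.end_mem hU hr1, hgV⟩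
    have hb1 : ‖f (x', θ - (η : Tor)) - f (x, θ)‖ₑ ≤ S1 (x, θ) := by
      rw [← e1, ← e2]
      have h1 : ‖f (g.act (x + T * e θ), g.dir (θ - (η : Tor))) -
          f (g.act (x + T * e θ), g.dir θ)‖ₑ ≤ D (g.act (x + T * e θ), g.dir θ) := by
        rw [hD, indicator_of_mem hmem, hA, hB]
        rw [sub_eq_add_neg θ (η : Tor), Mo.dir_add]
        cases g.c
        · simp only [Bool.false_eq_true, if_false]
          exact le_add_self
        · simp only [if_true, neg_neg]
          exact le_self_add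
      refine h1.trans ?_
      rw [hS1]
      have h2 := ENNReal.le_tsum (f := fun g : {g : Mo // Gen U g} =>
        ({q : ℂ × Tor | Reach U T g.1 q.1 q.2}).indicator (fun q => D (Phi g.1 T q)) (x, θ))
        ⟨g, Reach.gen hr1⟩
      refine le_trans ?_ h2
      rw [indicator_of_mem (show (x, θ) ∈ {q : ℂ × Tor | Reach U T g q.1 q.2} from hr1)]
      exact le_rfl
    have hb2 : ‖f (x', θ) - f (x', θ - (η : Tor))‖ₑ ≤ S2 (x, θ) := by
      rw [hS2]
      simp only
      rw [← hx', hE, indicator_of_mem (show (x', θ) ∈ Wset U V r from ⟨hx'U, hx'V⟩), hB]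
      simp only
      rw [enorm_sub_rev, sub_eq_add_neg θ (η : Tor)]
    have e3 : f (x', θ) = f (x + ((T * Real.sin η : ℝ) : ℂ) * nrm θ, θ) := by
      have ht : 0 ≤ T * (1 - Real.cos η) := mul_nonneg hT (by linarith [Real.cos_le_one η])
      have h1 : x' = (x + ((T * Real.sin η : ℝ) : ℂ) * nrm θ) +
          ((T * (1 - Real.cos η) : ℝ) : ℂ) * e θ := by
        rw [hx', shp_eq]
      rw [h1] at hseg ⊢
      exact Es1_str hinv ht hseg
    rw [← e3]
    calc ‖f (x', θ) - f (x, θ)‖ₑ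
        = ‖(f (x', θ - (η : Tor)) - f (x, θ)) + (f (x', θ) - f (x', θ - (η : Tor)))‖ₑ := by
          congr 1
          ring
      _ ≤ ‖f (x', θ - (η : Tor)) - f (x, θ)‖ₑ + ‖f (x', θ) - f (x', θ - (η : Tor))‖ₑ :=
          enorm_add_le _ _
      _ ≤ S1 (x, θ) + S2 (x, θ) := add_le_add hb1 hb2

end Pool.H46.Bi
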