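import Pool.Agent.H46.Bi.Es1
import Pool.Agent.H46.Bi.Cov
import Pool.Agent.H46.Bi.Rev

/-!
# [H46 BI ES2] the main estimate (100-140 lines)

bvd_rev: substitution θ → θ + π, which preserves the measure of ℂ × Tor
(MeasurePreserving.prod of id and measurePreserving_add_right) and the set Wset.

est_main. r0 from common_radius hP V. r := min (r0/2) (d/2), where d > 0 is a lower bound for the
distances of the points of K to the v ∈ V (v ∉ K, K compact; if V or K is empty d = 1), so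
0 < r ≤ r0/2 and r < ‖x - v‖ on K. C0 ≥ 0 with BVd U V r C0 f (replace C0 by max C0 0). Answer:
C = 24 C0. Let f' q = f (q.1, q.2 + π): Inv U f' (inv_rev), BVd U V r C0 f' (bvd_rev), measurable.
Given T ≥ 1: η1 from cover_cond. T1 = T, T2 = T + 2 r0. For 0 < δ < δ0 := min (1/4) (η1/4)
let ηi = arcsin (δ/Ti): Ti sin ηi = δ (Real.sin_arcsin), 0 ≤ ηi ≤ 2 δ/Ti ≤ 2 δ/T < η1, < 1
(Real.mul_le_sin: 2/π ηi ≤ sin ηi = δ/Ti, π ≤ 4). est_single for f, Ti, ηi gives Si, and for f',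
Ti, -ηi gives Si'. Put H q = ‖f (q.1 + δ nrm q.2, q.2) - f q‖ₑ. For q ∈ K ×ˢ J outside the null
sets {q.1 + Ti e q.2 ∈ Exc U} and {q.1 + Ti e (q.2 + π) ∈ Exc U} (exc_null_phase, and the
substitution θ → θ + π) cover_cond gives: either Conds U V r Ti ηi q for an i, so
H q ≤ Si q; or Conds U V r Ti (-ηi) (q.1, q.2 + π), and then, because nrm (θ + π) = - nrm θ
(e_add_pi), Ti sin (-ηi) = -δ and θ + π + π = θ in Tor, H q ≤ Si' (q.1, q.2 + π). So a.e. on K ×ˢ J
H q ≤ S1 q + S2 q + S1' (q.1, q.2 + π) + S2' (q.1, q.2 + π), and the integral is at most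
4 * 3 ofReal (C0 2 δ/T) = ofReal (24 C0 δ/T).
-/

set_option autoImplicit false

open MeasureTheory Metric Set

namespace Pool.H46.Bi

private theorem Es2_W_meas {U : Set ℂ} (hU : IsOpen U) (V : Finset ℂ) (r : ℝ) :
    MeasurableSet (Wset U V r) := by
  have h1 : Wset U V r = (Prod.fst ⁻¹' U) ∩ ⋂ v ∈ V, {q : ℂ × Tor | r ≤ ‖q.1 - v‖} := by
    ext q
    simp [Wset]
  rw [h1]
  refine (hU.preimage continuous_fst).measurableSet.inter ?_
  refine Finset.measurableSet_biInter _ fun v _ => ?_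
  refine (isClosed_le continuous_const ?_).measurableSet
  fun_prop

/-- turning the direction by pi preserves the measure -/
private theorem Es2_rho : MeasurePreserving
    (fun q : ℂ × Tor => (q.1, q.2 + ((Real.pi : ℝ) : Tor)))
    (volume : Measure (ℂ × Tor)) volume := by
  have h := (MeasurePreserving.id (volume : Measure ℂ)).prod
    (measurePreserving_add_right (volume : Measure Tor) ((Real.pi : ℝ) : Tor))
  exact h

theorem bvd_rev {U : Set ℂ} {V : Finset ℂ} {r C : ℝ} {f : ℂ × Tor → ℝ} (hU : IsOpen U)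
    (hf : Measurable f) (h : BVd U V r C f) :
    BVd U V r C (fun q => f (q.1, q.2 + ((Real.pi : ℝ) : Tor))) := by
  intro η hη
  have hG : Measurable fun q : ℂ × Tor => ‖f (q.1, q.2 + (η : Tor)) - f q‖ₑ := by
    have h1 : Measurable fun q : ℂ × Tor => f (q.1, q.2 + (η : Tor)) :=
      hf.comp (measurable_fst.prodMk (measurable_snd.add_const _))
    exact (h1.sub hf).enorm
  have h1 := Es2_rho.setLIntegral_comp_preimage (Es2_W_meas hU V r) hG
  have h2 : (fun q : ℂ × Tor => (q.1, q.2 + ((Real.pi : ℝ) : Tor))) ⁻¹' (Wset U V r) =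
      Wset U V r := rfl
  rw [h2] at h1
  have h3 : ∀ q : ℂ × Tor, ‖f (q.1, q.2 + (η : Tor) + ((Real.pi : ℝ) : Tor)) -
      f (q.1, q.2 + ((Real.pi : ℝ) : Tor))‖ₑ =
      ‖f (q.1, q.2 + ((Real.pi : ℝ) : Tor) + (η : Tor)) -
      f (q.1, q.2 + ((Real.pi : ℝ) : Tor))‖ₑ := by
    intro q
    rw [add_right_comm]
  simp only [h3]
  exact h1.le.trans (h η hη)

private theorem Es2_low {α : Type} (T : Finset α) (f : α → ℝ) (hf : ∀ a ∈ T, 0 < f a) :
    ∃ r : ℝ, 0 < r ∧ ∀ a ∈ T, r ≤ f a := by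
  classical
  induction T using Finset.induction_on with
  | empty => exact ⟨1, one_pos, fun a ha => absurd ha (Finset.notMem_empty a)⟩
  | insert a T _ ih =>
    obtain ⟨r, hr, h⟩ := ih fun b hb => hf b (Finset.mem_insert_of_mem hb)
    refine ⟨min r (f a), lt_min hr (hf a (Finset.mem_insert_self a T)), fun b hb => ?_⟩
    rcases Finset.mem_insert.1 hb with hb | hb
    · rw [hb]
      exact min_le_right _ _
    · exact (min_le_left _ _).trans (h b hb)

private theorem Es2_dist {K : Set ℂ} (hK : IsCompact K) (V : Finset ℂ) (hKV : ∀ v ∈ V, v ∉ K) :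
    ∃ d : ℝ, 0 < d ∧ ∀ x ∈ K, ∀ v ∈ V, d ≤ ‖x - v‖ := by
  have h1 : ∀ v : ℂ, ∃ d : ℝ, 0 < d ∧ (v ∉ K → ∀ x ∈ K, d ≤ ‖x - v‖) := by
    intro v
    by_cases hv : v ∈ K
    · exact ⟨1, one_pos, fun h => absurd hv h⟩
    · obtain ⟨d, hd, hball⟩ := Metric.isOpen_iff.1 hK.isClosed.isOpen_compl v hv
      refine ⟨d, hd, fun _ x hx => ?_⟩
      by_contra h
      have h2 : x ∈ ball v d := by
        rw [mem_ball, dist_eq_norm]
        exact not_le.1 h
      exact hball h2 hx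
  choose g hg0 hg using h1
  obtain ⟨d, hd, h2⟩ := Es2_low V g fun v _ => hg0 v
  exact ⟨d, hd, fun x hx v hv => (h2 v hv).trans (hg v (hKV v hv) x hx)⟩

/-- the two estimates for one time -/
private theorem Es2_pair {U : Set ℂ} (hP : Poly U) {f : ℂ × Tor → ℝ} (hf : Measurable f)
    (hinv : Inv U f) {V : Finset ℂ} {r C : ℝ} (hC : 0 ≤ C) (hbv : BVd U V r C f) {T T' δ : ℝ}
    (hT : 1 ≤ T) (hTT' : T ≤ T') (hδ : 0 < δ) (hδ1 : δ < 1 / 4) :
    ∃ (η : ℝ) (S : ℂ × Tor → ENNReal), |η| ≤ 2 * δ ∧ Measurable S ∧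
      ∫⁻ q, S q ≤ 6 * ENNReal.ofReal (C * (2 * δ / T)) ∧
      ∀ q : ℂ × Tor, (Conds U V r T' η q ∨
        Conds U V r T' (-η) (q.1, q.2 + ((Real.pi : ℝ) : Tor))) →
        ‖f (q.1 + (δ : ℂ) * nrm q.2, q.2) - f q‖ₑ ≤ S q := by
  have hT'1 : 1 ≤ T' := hT.trans hTT'
  have hT'0 : 0 < T' := by linarith
  have hT0 : 0 < T := by linarith
  obtain ⟨u, hu⟩ : ∃ u, u = δ / T' := ⟨_, rfl⟩
  have hu0 : 0 < u := by
    rw [hu]
    positivity
  have huδ : u ≤ δ := by
    rw [hu]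
    exact div_le_self hδ.le hT'1
  have huT : u ≤ δ / T := by
    rw [hu]
    exact div_le_div_of_nonneg_left hδ.le hT0 hTT'
  obtain ⟨η, hη⟩ : ∃ η, η = Real.arcsin u := ⟨_, rfl⟩
  have hsin : Real.sin η = u := by
    rw [hη, Real.sin_arcsin (by linarith) (by linarith)]
  have hη0 : 0 ≤ η := by
    rw [hη]
    exact Real.arcsin_nonneg.2 hu0.le
  have hηu : η ≤ 2 * u := by
    have h1 := Real.mul_le_sin hη0 (by rw [hη]; exact Real.arcsin_le_pi_div_two u)
    rw [hsin] at h1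
    have h2 := Real.pi_le_four
    have h3 := Real.pi_pos
    rw [div_mul_eq_mul_div, div_le_iff₀ h3] at h1
    nlinarith
  have habs : |η| = η := abs_of_nonneg hη0
  have hT'sin : T' * Real.sin η = δ := by
    rw [hsin, hu]
    field_simp
  have hbnd : ENNReal.ofReal (C * |η|) ≤ ENNReal.ofReal (C * (2 * δ / T)) := by
    refine ENNReal.ofReal_le_ofReal (mul_le_mul_of_nonneg_left ?_ hC)
    rw [habs]
    have h1 : 2 * δ / T = 2 * (δ / T) := by ring
    rw [h1]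
    linarith
  obtain ⟨S, hSm, hSi, hS⟩ := est_single hP hf hinv hbv (T := T') hT'0.le (η := η)
    (by rw [habs]; linarith)
  have hf' : Measurable fun q : ℂ × Tor => f (q.1, q.2 + ((Real.pi : ℝ) : Tor)) :=
    hf.comp Es2_rho.measurable
  obtain ⟨S', hS'm, hS'i, hS'⟩ := est_single hP hf' (inv_rev hP.isOpen hinv)
    (bvd_rev hP.isOpen hf hbv) (T := T') hT'0.le (η := -η)
    (by rw [abs_neg, habs]; linarith)
  rw [abs_neg] at hS'i
  refine ⟨η, fun q => S q + S' (q.1, q.2 + ((Real.pi : ℝ) : Tor)), ?_, ?_, ?_, ?_⟩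
  · rw [habs]
    linarith
  · exact hSm.add (hS'm.comp Es2_rho.measurable)
  · rw [lintegral_add_left hSm, Es2_rho.lintegral_comp hS'm]
    refine (add_le_add hSi hS'i).trans ?_
    rw [← add_mul]
    refine (mul_le_mul_right hbnd _).trans (le_of_eq ?_)
    norm_num
  · rintro ⟨x, θ⟩ (h | h)
    · have h1 := hS (x, θ) h
      rw [hT'sin] at h1
      exact h1.trans le_self_add
    · have h1 := hS' (x, θ + ((Real.pi : ℝ) : Tor)) h
      simp only at h1
      have h2 : θ + ((Real.pi : ℝ) : Tor) + ((Real.pi : ℝ) : Tor) = θ := by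
        rw [add_assoc, ← AddCircle.coe_add, ← two_mul, AddCircle.coe_period, add_zero]
      have h3 : x + ((T' * Real.sin (-η) : ℝ) : ℂ) * nrm (θ + ((Real.pi : ℝ) : Tor)) =
          x + (δ : ℂ) * nrm θ := by
        rw [Real.sin_neg, mul_neg, hT'sin]
        unfold nrm
        rw [e_add_pi]
        push_cast
        ring
      rw [h2, h3] at h1
      exact h1.trans le_add_self

theorem est_main {U : Set ℂ} (hP : Poly U) {f : ℂ × Tor → ℝ} (hf : Measurable f)
    (hinv : Inv U f) {V : Finset ℂ} (hbv : ∀ r : ℝ, 0 < r → ∃ C : ℝ, BVd U V r C f)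
    {K : Set ℂ} (hK : IsCompact K) (hKU : K ⊆ U) (hKV : ∀ v ∈ V, v ∉ K)
    {J : Set Tor} (hJ : IsCompact J) (hJT : ∀ θ ∈ J, θ ∉ Thet U) :
    ∃ C : ℝ, ∀ T : ℝ, 1 ≤ T → ∃ δ0 : ℝ, 0 < δ0 ∧ ∀ δ ∈ Ioo (0 : ℝ) δ0,
      ∫⁻ q in K ×ˢ J, ‖f (q.1 + (δ : ℂ) * nrm q.2, q.2) - f q‖ₑ
        ≤ ENNReal.ofReal (C * δ / T) := by
  obtain ⟨r0, hr0, hcone, hsep⟩ := common_radius hP V
  obtain ⟨d, hd, hdK⟩ := Es2_dist hK V hKV
  obtain ⟨r, hr⟩ : ∃ r, r = min (r0 / 2) (d / 2) := ⟨_, rfl⟩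
  have hrpos : 0 < r := by
    rw [hr]
    exact lt_min (by linarith) (by linarith)
  have hr1 : r ≤ r0 / 2 := by
    rw [hr]
    exact min_le_left _ _
  have hr2 : r ≤ d / 2 := by
    rw [hr]
    exact min_le_right _ _
  obtain ⟨C0, hC0⟩ := hbv r hrpos
  obtain ⟨C1, hC1⟩ : ∃ C1, C1 = max C0 0 := ⟨_, rfl⟩
  have hC1pos : 0 ≤ C1 := by
    rw [hC1]
    exact le_max_right _ _
  have hbv1 : BVd U V r C1 f := by
    intro η hη
    refine (hC0 η hη).trans (ENNReal.ofReal_le_ofReal ?_)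
    refine mul_le_mul_of_nonneg_right ?_ (abs_nonneg η)
    rw [hC1]
    exact le_max_left _ _
  refine ⟨24 * C1, fun T hT => ?_⟩
  obtain ⟨η1, hη1, hcov⟩ := cover_cond hP hr0 hcone hsep hr1 hK hKU
    (fun x hx v hv => by
      have := hdK x hx v hv
      linarith) hJ hJT (T := T) (by linarith)
  refine ⟨min (1 / 4) (η1 / 4), lt_min (by norm_num) (by linarith), ?_⟩
  rintro δ ⟨hδ0, hδ1⟩
  have hδa : δ < 1 / 4 := hδ1.trans_le (min_le_left _ _)
  have hδb : δ < η1 / 4 := hδ1.trans_le (min_le_right _ _)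
  obtain ⟨ηa, Sa, hηa, hSam, hSai, hSa⟩ := Es2_pair hP hf hinv hC1pos hbv1 hT (le_refl T) hδ0 hδa
  obtain ⟨ηb, Sb, hηb, hSbm, hSbi, hSb⟩ := Es2_pair hP hf hinv hC1pos hbv1 hT
    (T' := T + 2 * r0) (by linarith) hδ0 hδa
  have hnull1 : ∀ T' : ℝ, ∀ᵐ q : ℂ × Tor, q.1 + T' * e q.2 ∉ Exc U := by
    intro T'
    exact measure_eq_zero_iff_ae_notMem.1 (exc_null_phase hP T')
  have hnull2 : ∀ T' : ℝ, ∀ᵐ q : ℂ × Tor,
      q.1 + T' * e (q.2 + ((Real.pi : ℝ) : Tor)) ∉ Exc U := by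
    intro T'
    exact Es2_rho.quasiMeasurePreserving.ae (hnull1 T')
  have hae : ∀ᵐ q : ℂ × Tor, q ∈ K ×ˢ J →
      ‖f (q.1 + (δ : ℂ) * nrm q.2, q.2) - f q‖ₑ ≤ Sa q + Sb q := by
    filter_upwards [hnull1 T, hnull1 (T + 2 * r0), hnull2 T, hnull2 (T + 2 * r0)] with q h1 h2 h3 h4 hq
    rcases hcov q hq with ⟨T', hT', h⟩ | ⟨T', hT', h⟩
    · rcases hT' with hT' | hT'
      · rw [hT'] at h
        have h5 := (h ηa (by linarith)).resolve_left h1
        exact (hSa q (Or.inl h5)).trans le_self_add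
      · rw [hT'] at h
        have h5 := (h ηb (by linarith)).resolve_left h2
        exact (hSb q (Or.inl h5)).trans le_add_self
    · rcases hT' with hT' | hT'
      · rw [hT'] at h
        have h5 := (h (-ηa) (by rw [abs_neg]; linarith)).resolve_left h3
        exact (hSa q (Or.inr h5)).trans le_self_add
      · rw [hT'] at h
        have h5 := (h (-ηb) (by rw [abs_neg]; linarith)).resolve_left h4
        exact (hSb q (Or.inr h5)).trans le_add_self
  have hms : MeasurableSet (K ×ˢ J) := hK.measurableSet.prod hJ.measurableSet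
  refine (setLIntegral_mono_ae' hms hae).trans ((setLIntegral_le_lintegral _ _).trans ?_)
  rw [lintegral_add_left hSam]
  refine (add_le_add hSai hSbi).trans (le_of_eq ?_)
  have h1 : 24 * C1 * δ / T = 12 * (C1 * (2 * δ / T)) := by ring
  rw [h1, ENNReal.ofReal_mul (p := 12) (by norm_num), ← add_mul]
  norm_num

end Pool.H46.Bi
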