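import Pool.Agent.H46.Bi.Gl1

/-!
# [H46 BI GL2] f is a function of the direction (70-100 lines)

punct: the punctured ball ball v ρ \ {v} is preconnected: it is the union of the four
convex sets {z ∈ ball v ρ | 0 < re (z - v)}, {... 0 < im}, {... re < 0}, {... im < 0}; consecutive ones
meet (IsPreconnected.union'), so are the unions of two, etc. (All are convex, hence preconnected:
Convex.isPreconnected.) Or use a Mathlib lemma on the connectedness of a punctured ball / of the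
complement of a countable set in a suitable set.
rel_point: v ∈ U ∩ V: choose ρ > 0 with ball v ρ ⊆ U and ball v ρ ∩ V = {v} (V finite). O =
ball v ρ \ {v} is open and preconnected, Rel f x x on O, so by rel_connected and rel_global the
equality holds a.e. on (O ×ˢ O) ×ˢ univ; {v} is null, so it holds a.e. on
(ball v ρ ×ˢ ball v ρ) ×ˢ univ: Rel f v v.
global_h: so Rel f x x for all x ∈ U; rel_connected (U connected) and rel_global give it a.e. on
(U ×ˢ U) ×ˢ univ; U is open and nonempty, so of positive measure; by Fubini there is a point x1 ∈ U with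
f (x1, θ) = f (y, θ) for a.e. (y, θ) ∈ U ×ˢ univ; h θ = f (x1, θ).
-/

set_option autoImplicit false

open MeasureTheory Metric Set

namespace Pool.H46.Bi

theorem gl2_half (v : ℂ) (ρ : ℝ) (g : ℂ →ₗ[ℝ] ℝ) :
    Convex ℝ (ball v ρ ∩ {z | 0 < g (z - v)}) := by
  refine (convex_ball v ρ).inter ?_
  intro z hz w hw a b ha hb hab
  simp only [mem_ofPred_eq, map_sub] at hz hw ⊢
  rw [map_add, map_smul, map_smul]
  simp only [smul_eq_mul]
  have hv : g v = a * g v + b * g v := by rw [← add_mul, hab, one_mul]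
  rcases ha.eq_or_lt with h0 | h0
  · subst h0
    have : b = 1 := by linarith
    subst this
    linarith
  · nlinarith [mul_nonneg hb hw.le, mul_pos h0 hz]

theorem punct (v : ℂ) (ρ : ℝ) : IsPreconnected (ball v ρ \ {v}) := by
  rcases le_or_gt ρ 0 with hρ | hρ
  · rw [ball_eq_empty.2 hρ, empty_sdiff]
    exact isPreconnected_empty
  have h1 : IsPreconnected (ball v ρ ∩ {z | 0 < Complex.reLm (z - v)}) :=
    (gl2_half v ρ Complex.reLm).isPreconnected
  have h2 : IsPreconnected (ball v ρ ∩ {z | 0 < Complex.imLm (z - v)}) :=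
    (gl2_half v ρ Complex.imLm).isPreconnected
  have h3 : IsPreconnected (ball v ρ ∩ {z | 0 < (-Complex.reLm) (z - v)}) :=
    (gl2_half v ρ (-Complex.reLm)).isPreconnected
  have h4 : IsPreconnected (ball v ρ ∩ {z | 0 < (-Complex.imLm) (z - v)}) :=
    (gl2_half v ρ (-Complex.imLm)).isPreconnected
  have hpt : ∀ a b : ℝ, |a| ≤ 1 → |b| ≤ 1 → v + ((ρ / 4 : ℝ) : ℂ) * (a + b * Complex.I) ∈ ball v ρ := by
    intro a b ha hb
    rw [mem_ball, dist_eq_norm, add_sub_cancel_left, norm_mul, Complex.norm_real,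
      Real.norm_of_nonneg (by positivity)]
    have : ‖(a : ℂ) + b * Complex.I‖ ≤ 2 := by
      calc ‖(a : ℂ) + b * Complex.I‖ ≤ ‖(a : ℂ)‖ + ‖(b : ℂ) * Complex.I‖ := norm_add_le _ _
        _ = |a| + |b| := by
              rw [norm_mul, Complex.norm_I, Complex.norm_real, Complex.norm_real, mul_one,
                Real.norm_eq_abs, Real.norm_eq_abs]
        _ ≤ 2 := by linarith
    nlinarith
  have e12 : (v + ((ρ / 4 : ℝ) : ℂ) * (((1 : ℝ) : ℂ) + ((1 : ℝ) : ℂ) * Complex.I)) ∈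
      (ball v ρ ∩ {z | 0 < Complex.reLm (z - v)}) ∩ (ball v ρ ∩ {z | 0 < Complex.imLm (z - v)}) := by
    have := hpt 1 1 (by simp) (by simp)
    refine ⟨⟨this, ?_⟩, ⟨this, ?_⟩⟩ <;> simp <;> positivity
  have e23 : (v + ((ρ / 4 : ℝ) : ℂ) * (((-1 : ℝ) : ℂ) + ((1 : ℝ) : ℂ) * Complex.I)) ∈
      ((ball v ρ ∩ {z | 0 < Complex.imLm (z - v)}) ∩ (ball v ρ ∩ {z | 0 < (-Complex.reLm) (z - v)})) := by
    have := hpt (-1) 1 (by simp) (by simp)
    refine ⟨⟨this, ?_⟩, ⟨this, ?_⟩⟩ <;> simp <;> positivity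
  have e34 : (v + ((ρ / 4 : ℝ) : ℂ) * (((-1 : ℝ) : ℂ) + ((-1 : ℝ) : ℂ) * Complex.I)) ∈
      ((ball v ρ ∩ {z | 0 < (-Complex.reLm) (z - v)}) ∩ (ball v ρ ∩ {z | 0 < (-Complex.imLm) (z - v)})) := by
    have := hpt (-1) (-1) (by simp) (by simp)
    refine ⟨⟨this, ?_⟩, ⟨this, ?_⟩⟩ <;> simp <;> positivity
  have c12 := IsPreconnected.union' ⟨_, e12⟩ h1 h2
  have c34 := IsPreconnected.union' ⟨_, e34⟩ h3 h4
  have hne : ((ball v ρ ∩ {z | 0 < Complex.reLm (z - v)} ∪
      ball v ρ ∩ {z | 0 < Complex.imLm (z - v)}) ∩ (ball v ρ ∩ {z | 0 < (-Complex.reLm) (z - v)} ∪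
      ball v ρ ∩ {z | 0 < (-Complex.imLm) (z - v)})).Nonempty := ⟨_, Or.inr e23.1, Or.inl e23.2⟩
  have c := IsPreconnected.union' hne c12 c34
  have he : ball v ρ \ {v} = (ball v ρ ∩ {z | 0 < Complex.reLm (z - v)} ∪
      ball v ρ ∩ {z | 0 < Complex.imLm (z - v)}) ∪ (ball v ρ ∩ {z | 0 < (-Complex.reLm) (z - v)} ∪
      ball v ρ ∩ {z | 0 < (-Complex.imLm) (z - v)}) := by
    ext z
    simp only [mem_sdiff, mem_singleton_iff, mem_union, mem_inter_iff, mem_ofPred_eq,
      LinearMap.neg_apply, Complex.reLm_coe, Complex.imLm_coe, Complex.sub_re, Complex.sub_im]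
    constructor
    · rintro ⟨hz, hne⟩
      have : z.re ≠ v.re ∨ z.im ≠ v.im := by
        by_contra hcon
        push Not at hcon
        exact hne (Complex.ext hcon.1 hcon.2)
      rcases this with h | h
      · rcases lt_or_gt_of_ne h with h | h
        · right; left; exact ⟨hz, by linarith⟩
        · left; left; exact ⟨hz, by linarith⟩
      · rcases lt_or_gt_of_ne h with h | h
        · right; right; exact ⟨hz, by linarith⟩
        · left; right; exact ⟨hz, by linarith⟩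
    · rintro ((⟨hz, h⟩ | ⟨hz, h⟩) | (⟨hz, h⟩ | ⟨hz, h⟩)) <;> refine ⟨hz, ?_⟩ <;> rintro rfl <;>
        simp at h
  rw [he]
  exact c

theorem rel_point {U : Set ℂ} (hU : IsOpen U) {f : ℂ × Tor → ℝ} (hf : Measurable f)
    {V : Finset ℂ} (h : ∀ x ∈ U, x ∉ V → Rel f x x) {v : ℂ} (hv : v ∈ U) : Rel f v v := by
  classical
  obtain ⟨ρ, hρ, h1⟩ : ∃ ρ > 0, ball v ρ ⊆ U ∩ ((V.erase v : Finset ℂ) : Set ℂ)ᶜ := by
    apply Metric.isOpen_iff.1 (hU.inter (V.erase v).finite_toSet.isClosed.isOpen_compl)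
    exact ⟨hv, by simp⟩
  have hO : IsOpen (ball v ρ \ {v}) := isOpen_ball.sdiff isClosed_singleton
  have h2 : ∀ x ∈ ball v ρ \ {v}, Rel f x x := by
    rintro x ⟨hx, hne⟩
    refine h x (h1 hx).1 ?_
    intro hV
    apply (h1 hx).2
    simp only [Finset.coe_erase, mem_sdiff, Finset.mem_coe, mem_singleton_iff]
    exact ⟨hV, hne⟩
  have h3 := rel_global hf hO (rel_connected hf hO (punct v ρ) h2)
  refine ⟨ρ, hρ, ?_⟩
  rw [gl1_iff hf] at h3 ⊢
  have h4 : (volume : Measure ℂ).restrict (ball v ρ) = (volume : Measure ℂ).restrict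
      (ball v ρ \ {v}) := by
    apply Measure.restrict_congr_set
    exact (sdiff_null_ae_eq_self (measure_singleton v)).symm
  rw [h4]
  exact h3

theorem global_h {U : Set ℂ} (hP : Poly U) {f : ℂ × Tor → ℝ} (hf : Measurable f)
    {V : Finset ℂ} (h : ∀ x ∈ U, x ∉ V → Rel f x x) :
    ∃ h : Tor → ℝ, Measurable h ∧
      ∀ᵐ q : ℂ × Tor ∂((volume : Measure (ℂ × Tor)).restrict (U ×ˢ univ)), f q = h q.2 := by
  have h1 := rel_global hf hP.isOpen (rel_connected hf hP.isOpen hP.conn.isPreconnected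
    (fun x hx => rel_point hP.isOpen hf h hx))
  rw [gl1_iff hf] at h1
  have h2 : ((volume : Measure ℂ).restrict U) ≠ 0 := by
    rw [Ne, Measure.restrict_eq_zero]
    exact (hP.isOpen.measure_pos volume hP.conn.nonempty).ne'
  have : (ae ((volume : Measure ℂ).restrict U)).NeBot := ae_neBot.2 h2
  obtain ⟨x1, hx1⟩ := h1.exists
  refine ⟨fun θ => f (x1, θ), hf.comp (by fun_prop), ?_⟩
  have h3 : (volume : Measure (ℂ × Tor)).restrict (U ×ˢ univ)
      = ((volume : Measure ℂ).restrict U).prod (volume : Measure Tor) := by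
    rw [← Measure.restrict_univ (μ := (volume : Measure Tor)), Measure.prod_restrict]
    rfl
  rw [h3, Measure.ae_prod_iff_ae_ae]
  · filter_upwards [hx1] with x hx
    filter_upwards [hx] with θ hθ
    exact hθ.symm
  · exact measurableSet_eq_fun hf (hf.comp (by fun_prop))

end Pool.H46.Bi
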