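import Pool.Agent.H46.Bi.Half

/-!
# [H46 BI INV] invariance under Reach (40-60 lines)

inv_of: induction on Reach. str: hstr (Mo.one_act, Mo.one_dir). bounce: let
a = side p α x, b = side p α (x + t e θ), a b < 0; τ = t a / (a - b) ∈ (0, t), p' = x + τ e θ has side 0
(side_line) and is in the ball (ball_line); sub_chart gives a chart (p', α, ε'). For r ∈ [0, τ)
the point x + r e θ is on the side of x, in the ball: in U (half_ball). For r ∈ (0, t - τ] the point
p' + r e (α + α - θ) is the mirror image of x + (τ + r) e θ (Mo.act_line, refl_fix for p',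
Mo.refl_dir): in the ball (Mo.norm_refl_sub), with side = - side (x + (τ + r) e θ) of the sign of a
(side_refl): in U. hrfl with t := τ, s := t - τ gives the claim, the end point being
p' + (t - τ) e (α + α - θ) = (refl p α).act (x + t e θ). trans: both hypotheses;
(mul g' g).act (x + (t + t') e θ) = g'.act (g.act (x + t e θ) + t' e (g.dir θ)).
-/

set_option autoImplicit false

open MeasureTheory Metric Set

namespace Pool.H46.Bi

theorem inv_of {U : Set ℂ} (hU : IsOpen U) {F : ℂ × Tor → ℝ}
    (hstr : ∀ (x : ℂ) (θ : Tor) (t : ℝ), 0 ≤ t → (∀ s ∈ Icc (0 : ℝ) t, x + s * e θ ∈ U) →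
      F (x, θ) = F (x + t * e θ, θ))
    (hrfl : ∀ (x : ℂ) (θ α : Tor) (t ε s : ℝ), 0 < t → 0 < s →
      (∀ r ∈ Ico (0 : ℝ) t, x + r * e θ ∈ U) → Chart U (x + t * e θ) α ε →
      (∀ r ∈ Ioc (0 : ℝ) s, x + t * e θ + r * e (α + α - θ) ∈ U) →
      F (x, θ) = F (x + t * e θ + s * e (α + α - θ), α + α - θ)) :
    Inv U F := by
  intro t g x θ h
  induction h with
  | str t x θ ht h =>
    unfold Phi
    simp only [Mo.one_act, Mo.one_dir]
    exact (hstr x θ t ht h).symm
  | bounce t x θ p α ε ht hc hx hxb hyb hs =>
    unfold Phi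
    simp only [Mo.refl_dir]
    have hline := side_line p α θ x
    have hside := hline t
    rw [hside] at hs
    set a := side p α x with ha
    set c := (e (θ - α)).im with hcc
    have ha0 : a ≠ 0 := by
      intro h0
      rw [h0, zero_mul] at hs
      exact lt_irrefl _ hs
    have haa : 0 < a * a := mul_self_pos.2 ha0
    have h1 : a * a + t * (a * c) < 0 := by nlinarith
    have hac : a * c < 0 := by
      by_contra hcon
      have := mul_nonneg ht (not_lt.1 hcon)
      linarith
    have hc0 : c ≠ 0 := by
      intro h0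
      rw [h0, mul_zero] at hac
      exact lt_irrefl _ hac
    set τ : ℝ := - (a / c) with hτ
    have hτc : a + τ * c = 0 := by
      rw [hτ]
      field_simp
      ring
    have hτac : τ * (a * c) = - (a * a) := by
      have : a * (a + τ * c) = 0 := by rw [hτc, mul_zero]
      linarith [this, mul_comm a (a + τ * c)]
    have hτ0 : 0 < τ := by
      by_contra hcon
      have := mul_nonneg_of_nonpos_of_nonpos (not_lt.1 hcon) hac.le
      linarith
    have hτt : τ < t := by
      by_contra hcon
      have := mul_le_mul_of_nonpos_right (not_lt.1 hcon) hac.le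
      linarith
    have hτm : x + (τ : ℂ) * e θ ∈ ball p ε := ball_line hxb hyb ⟨hτ0.le, hτt.le⟩
    have hτs : side p α (x + (τ : ℂ) * e θ) = 0 := by rw [hline τ, hτc]
    obtain ⟨_, ε', hc', _⟩ := sub_chart hc hτm hτs
    have hrefl : ∀ r : ℝ, x + (τ : ℂ) * e θ + (r : ℂ) * e (α + α - θ) =
        (Mo.refl p α).act (x + ((τ + r : ℝ) : ℂ) * e θ) := by
      intro r
      have h2 : x + ((τ + r : ℝ) : ℂ) * e θ = (x + (τ : ℂ) * e θ) + (r : ℂ) * e θ := by
        push_cast
        ring
      rw [h2, Mo.act_line, refl_fix p α _ hτs, Mo.refl_dir]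
    have hgo := hrfl x θ α τ ε' (t - τ) hτ0 (sub_pos.2 hτt)
      (by
        intro r hr
        refine half_ball hU hc hx hxb (ball_line hxb hyb ⟨hr.1, hr.2.le.trans hτt.le⟩) ?_
        rw [hline r, ← ha]
        have h3 : a * (a + r * c) = (r - τ) * (a * c) := by
          have : a * (a + r * c) = a * a + r * (a * c) := by ring
          rw [this]
          linarith [hτac, sub_mul r τ (a * c)]
        rw [h3]
        exact mul_pos_of_neg_of_neg (sub_neg.2 hr.2) hac)
      hc'
      (by
        intro r hr
        have hmem : x + ((τ + r : ℝ) : ℂ) * e θ ∈ ball p ε :=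
          ball_line hxb hyb ⟨by linarith [hr.1], by linarith [hr.2]⟩
        rw [hrefl r]
        refine half_ball hU hc hx hxb ?_ ?_
        · rw [mem_ball, dist_eq_norm] at hmem ⊢
          rw [Mo.norm_refl_sub]
          exact hmem
        · rw [side_refl, hline (τ + r), ← ha]
          have h3 : a * -(a + (τ + r) * c) = - (r * (a * c)) := by
            have : a * -(a + (τ + r) * c) = - (a * a) - τ * (a * c) - r * (a * c) := by ring
            rw [this, hτac]
            ring
          rw [h3]
          have := mul_neg_of_pos_of_neg hr.1 hac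
          linarith)
    have h4 := hrefl (t - τ)
    rw [add_sub_cancel] at h4
    rw [← h4]
    exact hgo.symm
  | trans t t' g g' x θ _ _ h1 h2 =>
    unfold Phi at h1 h2 ⊢
    simp only at h1 h2 ⊢
    have h3 : x + ((t + t' : ℝ) : ℂ) * e θ = (x + t * e θ) + t' * e θ := by
      push_cast
      ring
    rw [Mo.mul_act, h3, Mo.act_line, Mo.mul_dir, h2, h1]

end Pool.H46.Bi
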