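import Pool.Agent.H46.Bi.Geo

/-!
# [H46 BI IRR] an irrational angle gives two charts (60-90 lines)

seg_chart: the segment [a, b] with a ≠ b is infinite, V0 U is finite, so some z of the open
segment (openSegment ℝ a b, also infinite) is not in V0 U; z ∈ frontier U, so there is a chart
(z, α, ε). The points z + s (b - a), |s| small, are in the segment, hence in frontier U and in
the ball, so side z α (z + s (b - a)) = 0 for some s ≠ 0: by side_eq_zero_iff s (b - a) = r e α, so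
b - a = r' e α with r' ≠ 0 real.

irr_charts: b - a = r e α, d - c = r' e β: (b - a)/(d - c) = (r/r') e (α - β). Suppose
addOrderOf (α + α - (β + β)) = n ≠ 0: then n • (α - β + (α - β)) = 0, so e (α - β)^(2 n) = 1 (e_add;
addOrderOf_nsmul_eq_zero), hence w = (b - a)/(d - c) satisfies (w/‖w‖)^(2 n) = 1 (the sign of r/r'
disappears in the even power), w/‖w‖ = exp (i arg w) (Complex.norm_mul_exp_arg_mul_I), so
exp (i 2 n arg w) = 1, 2 n arg w = 2 π m (Complex.exp_eq_one_iff), arg w = (m/n) π: contradiction.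
-/

set_option autoImplicit false

open MeasureTheory Metric Set

namespace Pool.H46.Bi

private theorem seg_infinite {a b : ℂ} (hab : a ≠ b) : (segment ℝ a b).Infinite := by
  rw [segment_eq_image']
  refine Set.Infinite.image ?_ (Set.Icc_infinite (by norm_num : (0 : ℝ) < 1))
  intro s _ s' _ h
  simp only [Complex.real_smul] at h
  have h1 := add_left_cancel h
  have h2 := mul_right_cancel₀ (sub_ne_zero.2 hab.symm) h1
  exact_mod_cast h2

theorem seg_chart {U : Set ℂ} (hP : Poly U) {a b : ℂ} (hab : a ≠ b)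
    (h : segment ℝ a b ⊆ frontier U) :
    ∃ (z : ℂ) (α : Tor) (ε r : ℝ), Chart U z α ε ∧ r ≠ 0 ∧ b - a = r * e α := by
  have hfin := V0_finite hP
  obtain ⟨z, hz, hzn⟩ := (seg_infinite hab).exists_notMem_finset
    (hfin.toFinset)
  rw [Set.Finite.mem_toFinset] at hzn
  have hzf := h hz
  have hch : ∃ α ε, Chart U z α ε := by
    by_contra hno
    exact hzn ⟨hzf, hno⟩
  obtain ⟨α, ε, hc⟩ := hch
  have hε := hc.1
  rw [segment_eq_image'] at hz
  obtain ⟨s, ⟨hs0, hs1⟩, hs⟩ := hz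
  simp only [Complex.real_smul] at hs
  -- a small step inside the segment
  have hn : 0 < ‖b - a‖ := norm_pos_iff.2 (sub_ne_zero.2 hab.symm)
  set δ : ℝ := min (1 / 2) (ε / (2 * ‖b - a‖)) with hδ
  have hδ0 : 0 < δ := lt_min (by norm_num) (by positivity)
  have hδ1 : δ ≤ 1 / 2 := min_le_left _ _
  have hδ2 : δ * ‖b - a‖ < ε := by
    have h1 : δ ≤ ε / (2 * ‖b - a‖) := min_le_right _ _
    have h2 : δ * ‖b - a‖ ≤ ε / (2 * ‖b - a‖) * ‖b - a‖ :=
      mul_le_mul_of_nonneg_right h1 hn.le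
    have h3 : ε / (2 * ‖b - a‖) * ‖b - a‖ = ε / 2 := by
      field_simp
    linarith
  have key : ∃ d : ℝ, |d| = δ ∧ 0 ≤ s + d ∧ s + d ≤ 1 := by
    rcases le_or_gt s (1 / 2) with h1 | h1
    · exact ⟨δ, abs_of_pos hδ0, by linarith, by linarith⟩
    · exact ⟨-δ, by rw [abs_neg, abs_of_pos hδ0], by linarith, by linarith⟩
  obtain ⟨d, hd, hd0, hd1⟩ := key
  have hdne : d ≠ 0 := by
    intro h0
    rw [h0, abs_zero] at hd
    linarith
  have hw : z + (d : ℂ) * (b - a) ∈ segment ℝ a b := by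
    rw [segment_eq_image']
    refine ⟨s + d, ⟨hd0, hd1⟩, ?_⟩
    simp only [Complex.real_smul]
    rw [← hs]
    push_cast
    ring
  have hwb : z + (d : ℂ) * (b - a) ∈ ball z ε := by
    rw [mem_ball, dist_eq_norm, add_sub_cancel_left, norm_mul, Complex.norm_real,
      Real.norm_eq_abs, hd]
    exact hδ2
  have hside := (hc.2 _ hwb).1 (h hw)
  obtain ⟨r, hr⟩ := (side_eq_zero_iff z α _).1 hside
  have hr' : (d : ℂ) * (b - a) = r * e α := add_left_cancel hr
  have hdC : (d : ℂ) ≠ 0 := by exact_mod_cast hdne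
  refine ⟨z, α, ε, r / d, hc, ?_, ?_⟩
  · intro h0
    rcases div_eq_zero_iff.1 h0 with h1 | h1
    · rw [h1] at hr'
      simp only [Complex.ofReal_zero, zero_mul, mul_eq_zero] at hr'
      rcases hr' with h2 | h2
      · exact hdC h2
      · exact hab (sub_eq_zero.1 h2).symm
    · exact hdne h1
  · push_cast
    rw [div_mul_eq_mul_div, ← hr']
    field_simp

private theorem e_nsmul (n : ℕ) (θ : Tor) : e (n • θ) = e θ ^ n := by
  induction n with
  | zero => simp [e_zero]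
  | succ n ih => rw [succ_nsmul, e_add, ih, pow_succ]

theorem irr_charts {U : Set ℂ} (hP : Poly U)
    (h : ∃ a b c d : ℂ, a ≠ b ∧ c ≠ d ∧ segment ℝ a b ⊆ frontier U ∧
      segment ℝ c d ⊆ frontier U ∧
      ¬ ∃ q : ℚ, Complex.arg ((b - a) / (d - c)) = (q : ℝ) * Real.pi) :
    ∃ (p : ℂ) (α : Tor) (ε : ℝ) (p' : ℂ) (β : Tor) (ε' : ℝ), Chart U p α ε ∧
      Chart U p' β ε' ∧ addOrderOf (α + α - (β + β)) = 0 := by
  obtain ⟨a, b, c, d, hab, hcd, h1, h2, hirr⟩ := h
  obtain ⟨z, α, ε, r, hc, hr, hba⟩ := seg_chart hP hab h1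
  obtain ⟨z', β, ε', r', hc', hr', hdc⟩ := seg_chart hP hcd h2
  refine ⟨z, α, ε, z', β, ε', hc, hc', ?_⟩
  by_contra hn
  set n := addOrderOf (α + α - (β + β)) with hnn
  have hpos : 0 < n := Nat.pos_of_ne_zero hn
  have hzero : n • (α + α - (β + β)) = 0 := addOrderOf_nsmul_eq_zero _
  have h3 : (e (α - β) ^ 2) ^ n = 1 := by
    have h4 : α + α - (β + β) = (α - β) + (α - β) := by abel
    rw [h4] at hzero
    have h5 := congrArg e hzero
    rw [e_nsmul, e_add, e_zero, ← pow_two] at h5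
    exact h5
  apply hirr
  set w := (b - a) / (d - c) with hw
  have hrC : (r : ℂ) ≠ 0 := by exact_mod_cast hr
  have hrC' : (r' : ℂ) ≠ 0 := by exact_mod_cast hr'
  have hwe : w = ((r / r' : ℝ) : ℂ) * e (α - β) := by
    rw [hw, hba, hdc, e_sub]
    have h6 : e α = e α * (starRingEnd ℂ) (e β) * e β := by
      rw [mul_assoc, conj_mul_e, mul_one]
    have h7 := e_ne_zero β
    push_cast
    rw [div_eq_iff (mul_ne_zero hrC' h7)]
    nth_rw 1 [h6]
    field_simp
  have hnorm : ‖w‖ = |r / r'| := by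
    rw [hwe, norm_mul, norm_e, mul_one, Complex.norm_real, Real.norm_eq_abs]
  have hρ : r / r' ≠ 0 := div_ne_zero hr hr'
  have hw2 : (w ^ 2) ^ n = ((‖w‖ : ℂ) ^ 2) ^ n := by
    have h8 : w ^ 2 = (‖w‖ : ℂ) ^ 2 * e (α - β) ^ 2 := by
      rw [hnorm]
      have h9 : ((|r / r'| : ℝ) : ℂ) ^ 2 = ((r / r' : ℝ) : ℂ) ^ 2 := by
        have := sq_abs (r / r')
        exact_mod_cast this
      rw [h9, hwe]
      ring
    rw [h8, mul_pow, h3, mul_one]
  have hexp := Complex.norm_mul_exp_arg_mul_I w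
  have hwn : (‖w‖ : ℂ) ≠ 0 := by
    rw [hnorm]
    exact_mod_cast abs_ne_zero.2 hρ
  have h10 : (Complex.exp (Complex.arg w * Complex.I) ^ 2) ^ n = 1 := by
    have h11 : ((‖w‖ : ℂ) ^ 2) ^ n * (Complex.exp (Complex.arg w * Complex.I) ^ 2) ^ n =
        ((‖w‖ : ℂ) ^ 2) ^ n * 1 := by
      rw [← mul_pow, ← mul_pow, hexp, hw2, mul_one]
    exact mul_left_cancel₀ (pow_ne_zero _ (pow_ne_zero _ hwn)) h11
  rw [← pow_mul, ← Complex.exp_nat_mul, Complex.exp_eq_one_iff] at h10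
  obtain ⟨m, hm⟩ := h10
  refine ⟨(m : ℚ) / (n : ℚ), ?_⟩
  have hnR : (n : ℝ) ≠ 0 := by exact_mod_cast hn
  have hm2 : ((2 * n : ℕ) : ℂ) * (Complex.arg w : ℂ) = (m : ℂ) * (2 * (Real.pi : ℂ)) := by
    have h12 : ((2 * n : ℕ) : ℂ) * (Complex.arg w : ℂ) * Complex.I =
        (m : ℂ) * (2 * (Real.pi : ℂ)) * Complex.I := by
      linear_combination hm
    exact mul_right_cancel₀ Complex.I_ne_zero h12
  have hm3 : ((2 * n : ℕ) : ℝ) * Complex.arg w = (m : ℝ) * (2 * Real.pi) := by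
    exact_mod_cast hm2
  push_cast at hm3 ⊢
  field_simp
  linarith

end Pool.H46.Bi
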