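import Pool.Agent.H46.Bi.Mdef
import Pool.Agent.H46.Bi.Half
import Pool.Agent.H46.Bi.Opn
import Pool.Agent.H46.Bi.Mea

/-!
# [H46 BI RFH] the function of the direction is invariant under the side reflections (80-120 lines)

h_refl. p ∈ frontier U (Chart at the centre, side_self), so U meets ball p ε in a point x0, side
p α x0 ≠ 0 (side_ne); let σ = sign of side p α x0 (±1). By half_ball every point of ball p ε
whose side has the sign σ is in U; in particular the points p + σ κ nrm α for 0 < κ < ε (their side is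
σ κ: (Complex.I * e α) * conj (e α) = Complex.I).
Step 1: for every θ0 with σ * (e (θ0 - α)).im < 0 there is a neighbourhood J' of θ0 with
h (α + α - θ) = h θ for a.e. θ ∈ J'. Take t = ε/2, x1 = p + σ κ nrm α with 0 < κ < ε/4 and
κ < t |(e (θ0 - α)).im| : Reach.bounce gives Reach U t (refl p α) x1 θ0; by reach_nhds there are
a ball B about x1 in U and a neighbourhood J' of θ0 with Reach U t (refl p α) x θ for x ∈ B, θ ∈ J'.
By Inv f (Phi (refl p α) t (x, θ)) = f (x, θ) on B ×ˢ J'. Almost everywhere there f (x, θ) = h θ, and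
f (Phi ..) = h (α + α - θ) because Phi preserves the measure (phi_mp: quasi measure preserving
pullback of the a.e. equality; the end state is in U ×ˢ univ by Reach.end_mem, Mo.refl_dir). So
h (α + α - θ) = h θ for a.e. (x, θ) ∈ B ×ˢ J', and B has positive measure: Fubini (for a.e. x ∈ B
for a.e. θ ∈ J').
Step 2: if σ * (e (θ0 - α)).im > 0 then θ1 = α + α - θ0 satisfies the condition of step 1
(e (θ1 - α) = conj (e (θ0 - α))), and the substitution θ ↦ α + α - θ, which preserves the measure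
and is an involution, gives the claim near θ0.
Step 3: the θ with (e (θ - α)).im = 0 are at most two (e (θ - α) = ±1), null. The bad set
{θ | h (α + α - θ) ≠ h θ} minus these points is locally null, so null
(measure_null_of_locally_null).
-/

set_option autoImplicit false

open MeasureTheory Metric Set

namespace Pool.H46.Bi

private theorem rfh_sing (x : Tor) : (volume : Measure Tor) {x} = 0 := by
  have h1 := AddCircle.volume_closedBall (T := 2 * Real.pi) (x := x) 0
  rw [closedBall_zero, mul_zero, min_eq_right Real.two_pi_pos.le, ENNReal.ofReal_zero] at h1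
  exact h1

private theorem rfh_side (p : ℂ) (α : Tor) (r : ℝ) : side p α (p + (r : ℂ) * nrm α) = r := by
  unfold side nrm
  have h1 : (p + (r : ℂ) * (Complex.I * e α) - p) * (starRingEnd ℂ) (e α) =
      (r : ℂ) * Complex.I * (e α * (starRingEnd ℂ) (e α)) := by ring
  rw [h1, e_mul_conj, mul_one, Complex.im_ofReal_mul, Complex.I_im, mul_one]

private theorem rfh_norm (α : Tor) : ‖nrm α‖ = 1 := by
  unfold nrm
  rw [norm_mul, Complex.norm_I, norm_e, one_mul]

private theorem rfh_step {U : Set ℂ} (hU : IsOpen U) {f : ℂ × Tor → ℝ}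
    (hinv : Inv U f) {h : Tor → ℝ}
    (hae : ∀ᵐ q : ℂ × Tor ∂((volume : Measure (ℂ × Tor)).restrict (U ×ˢ univ)), f q = h q.2)
    {p : ℂ} {α : Tor} {ε : ℝ} (hc : Chart U p α ε) {x0 : ℂ} (hx0 : x0 ∈ U)
    (hx0b : x0 ∈ ball p ε) {σ : ℝ} (hσ : σ * σ = 1) (hσ1 : |σ| = 1)
    (hσ0 : 0 < σ * side p α x0) {θ0 : Tor}
    (hθ0 : σ * (e (θ0 - α)).im < 0) :
    ∃ v : Set Tor, IsOpen v ∧ θ0 ∈ v ∧ ∀ᵐ θ : Tor, θ ∈ v → h (α + α - θ) = h θ := by
  have hε := hc.1
  obtain ⟨s, hs⟩ : ∃ s, s = (e (θ0 - α)).im := ⟨_, rfl⟩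
  rw [← hs] at hθ0
  have hs1 : |s| ≤ 1 := by
    rw [hs]
    exact (Complex.abs_im_le_norm _).trans_eq (norm_e _)
  have hσs : σ * s = -|s| := by
    have h1 : |σ * s| = |s| := by rw [abs_mul, hσ1, one_mul]
    rw [abs_of_neg hθ0] at h1
    linarith
  have hs0 : 0 < |s| := by linarith
  obtain ⟨κ, hκ⟩ : ∃ κ, κ = min (ε / 8) (ε / 2 * |s| / 2) := ⟨_, rfl⟩
  have hκ0 : 0 < κ := by
    rw [hκ]
    exact lt_min (by linarith) (by positivity)
  have hκ1 : κ ≤ ε / 8 := by rw [hκ]; exact min_le_left _ _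
  have hκ2 : κ < ε / 2 * |s| := by
    have h1 : κ ≤ ε / 2 * |s| / 2 := by rw [hκ]; exact min_le_right _ _
    have h2 : 0 < ε / 2 * |s| := by positivity
    linarith
  obtain ⟨x1, hx1⟩ : ∃ x1, x1 = p + ((σ * κ : ℝ) : ℂ) * nrm α := ⟨_, rfl⟩
  have hn : ‖x1 - p‖ = κ := by
    rw [hx1, add_sub_cancel_left, norm_mul, rfh_norm, mul_one, Complex.norm_real,
      Real.norm_eq_abs, abs_mul, hσ1, one_mul, abs_of_pos hκ0]
  have hside1 : side p α x1 = σ * κ := by rw [hx1, rfh_side]
  have hx1b : x1 ∈ ball p ε := by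
    rw [mem_ball, dist_eq_norm, hn]
    linarith
  have hx1U : x1 ∈ U := by
    refine half_ball hU hc hx0 hx0b hx1b ?_
    rw [hside1]
    have h1 : side p α x0 * (σ * κ) = (σ * side p α x0) * κ := by ring
    rw [h1]
    positivity
  have hx1e : x1 + ((ε / 2 : ℝ) : ℂ) * e θ0 ∈ ball p ε := by
    rw [mem_ball, dist_eq_norm]
    have h1 : x1 + ((ε / 2 : ℝ) : ℂ) * e θ0 - p = (x1 - p) + ((ε / 2 : ℝ) : ℂ) * e θ0 := by ring
    rw [h1]
    refine (norm_add_le _ _).trans_lt ?_
    rw [hn, norm_mul, norm_e, mul_one, Complex.norm_real, Real.norm_eq_abs,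
      abs_of_pos (by linarith : (0 : ℝ) < ε / 2)]
    linarith
  have hprod : side p α x1 * side p α (x1 + ((ε / 2 : ℝ) : ℂ) * e θ0) < 0 := by
    rw [side_line, hside1, ← hs]
    have h1 : σ * κ * (σ * κ + ε / 2 * s) = κ * ((σ * σ) * κ + ε / 2 * (σ * s)) := by ring
    rw [h1, hσ, hσs, one_mul]
    refine mul_neg_of_pos_of_neg hκ0 ?_
    have h2 : ε / 2 * -|s| = -(ε / 2 * |s|) := by ring
    rw [h2]
    linarith
  have hreach : Reach U (ε / 2) (Mo.refl p α) x1 θ0 :=
    Reach.bounce _ _ _ _ _ ε (by linarith) hc hx1U hx1b hx1e hprod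
  have hnh := reach_nhds hU hreach
  obtain ⟨u, v, hu, hxu, hv, hθv, huv⟩ := mem_nhds_prod_iff'.1 hnh
  have hreach' : ∀ x ∈ u, ∀ θ ∈ v, Reach U (ε / 2) (Mo.refl p α) x θ := fun x hx θ hθ =>
    huv (show (x, θ) ∈ u ×ˢ v from ⟨hx, hθ⟩)
  refine ⟨v, hv, hθv, ?_⟩
  have hmU : MeasurableSet (U ×ˢ (univ : Set Tor)) := (hU.prod isOpen_univ).measurableSet
  rw [ae_restrict_iff' hmU] at hae
  have hae2 := (phi_mp (Mo.refl p α) (ε / 2)).quasiMeasurePreserving.ae hae
  have h3 : ∀ᵐ q : ℂ × Tor, q.1 ∈ u → q.2 ∈ v → h (α + α - q.2) = h q.2 := by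
    filter_upwards [hae, hae2] with q h4 h5 hq1 hq2
    have hr := hreach' q.1 hq1 q.2 hq2
    have h6 := h4 ⟨hr.start_mem, mem_univ _⟩
    have h7 := h5 ⟨hr.end_mem hU, mem_univ _⟩
    have h8 := hinv _ _ _ _ hr
    have h9 : (Phi (Mo.refl p α) (ε / 2) q).2 = α + α - q.2 := Mo.refl_dir p α q.2
    rw [h9] at h7
    rw [← h7, ← h6]
    exact h8
  have h4 := Measure.ae_ae_of_ae_prod h3
  by_contra hcon
  have h5 : ∀ᵐ x : ℂ, x ∉ u := by
    filter_upwards [h4] with x hx hxu'
    apply hcon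
    filter_upwards [hx] with θ hθ
    exact hθ hxu'
  have h6 : (volume : Measure ℂ) u = 0 := by
    rw [ae_iff] at h5
    simp only [not_not] at h5
    exact h5
  exact (hu.measure_pos volume ⟨x1, hxu⟩).ne' h6

theorem h_refl {U : Set ℂ} (hP : Poly U) {f : ℂ × Tor → ℝ} (hf : Measurable f)
    (hinv : Inv U f) {h : Tor → ℝ} (hh : Measurable h)
    (hae : ∀ᵐ q : ℂ × Tor ∂((volume : Measure (ℂ × Tor)).restrict (U ×ˢ univ)), f q = h q.2)
    {p : ℂ} {α : Tor} {ε : ℝ} (hc : Chart U p α ε) :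
    ∀ᵐ θ : Tor, h (α + α - θ) = h θ := by
  have hU := hP.isOpen
  have hpf : p ∈ frontier U := (hc.2 p (mem_ball_self hc.1)).2 (side_self p α)
  obtain ⟨x0, hx0, hx0d⟩ := Metric.mem_closure_iff.1 hpf.1 ε hc.1
  have hx0b : x0 ∈ ball p ε := by rw [mem_ball, dist_comm]; exact hx0d
  have hs0 := side_ne hU hc hx0 hx0b
  obtain ⟨σ, hσ, hσ1, hσ0⟩ : ∃ σ : ℝ, σ * σ = 1 ∧ |σ| = 1 ∧ 0 < σ * side p α x0 := by
    rcases lt_or_gt_of_ne hs0 with h1 | h1
    · exact ⟨-1, by norm_num, by norm_num, by linarith⟩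
    · exact ⟨1, by norm_num, by norm_num, by linarith⟩
  have hloc : ∀ θ0 : Tor, (e (θ0 - α)).im ≠ 0 →
      ∃ v : Set Tor, IsOpen v ∧ θ0 ∈ v ∧ ∀ᵐ θ : Tor, θ ∈ v → h (α + α - θ) = h θ := by
    intro θ0 hne
    have hσne : σ * (e (θ0 - α)).im ≠ 0 := by
      refine mul_ne_zero ?_ hne
      rintro rfl
      simp at hσ1
    rcases lt_or_gt_of_ne hσne with h1 | h1
    · exact rfh_step hU hinv hae hc hx0 hx0b hσ hσ1 hσ0 h1
    · have h2 : e (α + α - θ0 - α) = (starRingEnd ℂ) (e (θ0 - α)) := by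
        rw [← e_neg]
        congr 1
        abel
      obtain ⟨v, hv, hθv, hv1⟩ := rfh_step hU hinv hae hc hx0 hx0b hσ hσ1 hσ0
        (θ0 := α + α - θ0) (by
          rw [h2, Complex.conj_im]
          linarith)
      have hmp : MeasurePreserving (fun θ : Tor => α + α - θ) (volume : Measure Tor) volume := by
        have h3 := dir_mp (Mo.refl p α)
        have h4 : (Mo.refl p α).dir = fun θ : Tor => α + α - θ := funext fun θ => Mo.refl_dir p α θ
        rwa [h4] at h3
      refine ⟨(fun θ : Tor => α + α - θ) ⁻¹' v, hv.preimage (by fun_prop), hθv, ?_⟩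
      have h5 := hmp.quasiMeasurePreserving.ae hv1
      filter_upwards [h5] with θ hθ hθv'
      have h6 := hθ hθv'
      rw [sub_sub_cancel] at h6
      exact h6.symm
  have hnull : (volume : Measure Tor) {θ | (e (θ - α)).im = 0} = 0 := by
    have hsub : {θ : Tor | (e (θ - α)).im = 0} ⊆ {α} ∪ {α + ((Real.pi : ℝ) : Tor)} := by
      intro θ hθ
      have him : (e (θ - α)).im = 0 := hθ
      have hn := norm_e (θ - α)
      have hre : ((e (θ - α)).re : ℂ) = e (θ - α) := by
        apply Complex.ext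
        · simp
        · rw [Complex.ofReal_im, him]
      rw [← hre, Complex.norm_real, Real.norm_eq_abs] at hn
      rcases (abs_eq (zero_le_one)).1 hn with h1 | h1
      · left
        have h2 : e (θ - α) = e 0 := by rw [← hre, h1, e_zero]; simp
        exact sub_eq_zero.1 (e_injective h2)
      · right
        have h2 : e (θ - α) = e ((Real.pi : ℝ) : Tor) := by rw [← hre, h1, e_pi]; simp
        have h3 := e_injective h2
        rw [sub_eq_iff_eq_add, add_comm] at h3
        exact h3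
    refine measure_mono_null hsub ?_
    rw [measure_union_null_iff]
    exact ⟨rfh_sing _, rfh_sing _⟩
  have hbad : (volume : Measure Tor)
      ({θ | ¬ h (α + α - θ) = h θ} \ {θ | (e (θ - α)).im = 0}) = 0 := by
    refine measure_null_of_locally_null _ fun θ0 hθ0 => ?_
    obtain ⟨v, hv, hθv, hv1⟩ := hloc θ0 hθ0.2
    refine ⟨v ∩ ({θ | ¬ h (α + α - θ) = h θ} \ {θ | (e (θ - α)).im = 0}),
      Filter.inter_mem (mem_nhdsWithin_of_mem_nhds (hv.mem_nhds hθv)) self_mem_nhdsWithin, ?_⟩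
    rw [ae_iff] at hv1
    refine measure_mono_null ?_ hv1
    rintro θ ⟨h1, h2, -⟩
    intro h3
    exact h2 (h3 h1)
  rw [ae_iff]
  refine measure_mono_null (t := ({θ | ¬ h (α + α - θ) = h θ} \ {θ | (e (θ - α)).im = 0}) ∪
    {θ | (e (θ - α)).im = 0}) ?_ (measure_union_null hbad hnull)
  intro θ hθ
  by_cases h1 : (e (θ - α)).im = 0
  · right; exact h1
  · left; exact ⟨hθ, h1⟩

end Pool.H46.Bi
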