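import Pool.Agent.H46.Bi.Bal
import Pool.Agent.H46.Bi.Gl2
import Pool.Agent.H46.Bi.Rfh
import Pool.Agent.H46.Bi.Erg
import Pool.Agent.H46.Bi.Irr
import Pool.Agent.H46.Bi.Inv
import Pool.Agent.H46.Bi.Cnv

/-!
# Assembly
-/

set_option autoImplicit false

open MeasureTheory Metric Set

namespace Pool.H46.Bi

theorem main_tor {U : Set ℂ} (hP : Poly U)
    (hirr : ∃ a b c d : ℂ, a ≠ b ∧ c ≠ d ∧ segment ℝ a b ⊆ frontier U ∧
      segment ℝ c d ⊆ frontier U ∧
      ¬ ∃ q : ℚ, Complex.arg ((b - a) / (d - c)) = (q : ℝ) * Real.pi)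
    {f : ℂ × Tor → ℝ} (hf : Measurable f) (hinv : Inv U f) {V : Finset ℂ}
    (hbv : ∀ r : ℝ, 0 < r → ∃ C : ℝ, BVd U V r C f) :
    ∃ c : ℝ, ∀ᵐ q : ℂ × Tor ∂((volume : Measure (ℂ × Tor)).restrict (U ×ˢ univ)), f q = c := by
  obtain ⟨h, hh, hae⟩ := global_h hP hf (V := V)
    (fun x hx hV => rel_self hP hf hinv hbv hx hV)
  obtain ⟨p, α, ε, p', β, ε', hc, hc', hord⟩ := irr_charts hP hirr
  obtain ⟨c, hcst⟩ := h_const hh (h_refl hP hf hinv hh hae hc) (h_refl hP hf hinv hh hae hc') hord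
  refine ⟨c, ?_⟩
  have h2 : ∀ᵐ q : ℂ × Tor ∂((volume : Measure (ℂ × Tor)).restrict (U ×ˢ univ)), h q.2 = c := by
    apply ae_restrict_of_ae
    exact (Measure.quasiMeasurePreserving_snd (μ := (volume : Measure ℂ))
      (ν := (volume : Measure Tor))).ae hcst
  filter_upwards [hae, h2] with q h1 h2
  rw [h1, h2]

theorem main_real {U : Set ℂ} (hopen : IsOpen U) (hconn : IsConnected U)
    (hbdd : Bornology.IsBounded U)
    (hpoly : ∃ S : Finset (ℂ × ℂ), frontier U = ⋃ p ∈ S, segment ℝ p.1 p.2)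
    (hirr : ∃ a b c d : ℂ, a ≠ b ∧ c ≠ d ∧ segment ℝ a b ⊆ frontier U ∧
      segment ℝ c d ⊆ frontier U ∧
      ¬ ∃ q : ℚ, Complex.arg ((b - a) / (d - c)) = (q : ℝ) * Real.pi)
    (f : ℂ × ℝ → ℝ) (hf : Measurable f)
    (hper : ∀ x : ℂ, ∀ θ : ℝ, f (x, θ) = f (x, θ + 2 * Real.pi))
    (hstr : ∀ x : ℂ, ∀ θ t : ℝ, 0 ≤ t →
        (∀ s ∈ Set.Icc (0:ℝ) t, x + (s : ℂ) * Complex.exp ((θ : ℂ) * Complex.I) ∈ U) →
        f (x, θ) = f (x + (t : ℂ) * Complex.exp ((θ : ℂ) * Complex.I), θ))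
    (hrfl : ∀ x w : ℂ, ∀ θ θ' t ε s : ℝ, 0 < t → 0 < ε → 0 < s → ‖w‖ = 1 →
        (∀ r ∈ Set.Ico (0:ℝ) t, x + (r : ℂ) * Complex.exp ((θ : ℂ) * Complex.I) ∈ U) →
        frontier U ∩ Metric.ball (x + (t : ℂ) * Complex.exp ((θ : ℂ) * Complex.I)) ε =
          {z : ℂ | ∃ r : ℝ, z = x + (t : ℂ) * Complex.exp ((θ : ℂ) * Complex.I) + (r : ℂ) * w} ∩
            Metric.ball (x + (t : ℂ) * Complex.exp ((θ : ℂ) * Complex.I)) ε →
        Complex.exp ((θ' : ℂ) * Complex.I) =
          w ^ 2 * (starRingEnd ℂ) (Complex.exp ((θ : ℂ) * Complex.I)) →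
        (∀ r ∈ Set.Ioc (0:ℝ) s, x + (t : ℂ) * Complex.exp ((θ : ℂ) * Complex.I)
            + (r : ℂ) * Complex.exp ((θ' : ℂ) * Complex.I) ∈ U) →
        f (x, θ) = f (x + (t : ℂ) * Complex.exp ((θ : ℂ) * Complex.I)
            + (s : ℂ) * Complex.exp ((θ' : ℂ) * Complex.I), θ'))
    (V : Finset ℂ)
    (hbv : ∀ r : ℝ, 0 < r → ∃ C : ℝ, ∀ η ∈ Set.Ioo (0 : ℝ) 1,
      ∫⁻ q in {q : ℂ × ℝ | q.1 ∈ U ∧ q.2 ∈ Set.Ico (0 : ℝ) (2 * Real.pi) ∧
          ∀ v ∈ V, r ≤ ‖q.1 - v‖},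
        ‖f (q.1, q.2 + η) - f q‖ₑ ≤ ENNReal.ofReal (C * η)) :
    ∃ c : ℝ, ∀ᵐ q : ℂ × ℝ ∂((volume : Measure (ℂ × ℝ)).restrict
      (U ×ˢ Set.Ico (0:ℝ) (2 * Real.pi))), f q = c := by
  have hP : Poly U := ⟨hopen, hconn, hbdd, hpoly⟩
  obtain ⟨F, hFm, hFf⟩ := descend hf (fun x t => (hper x t).symm)
  have hinv : Inv U F := by
    apply inv_of hopen
    · intro x θ t ht hs
      induction θ using QuotientAddGroup.induction_on with
      | H θ =>
        have h1 := hstr x θ t ht (fun s hs' => by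
          have := hs s hs'
          rw [← e_coe]
          exact this)
        rw [← e_coe] at h1
        have e1 := hFf x θ
        have e2 := hFf (x + t * e (θ : Tor)) θ
        exact (e1.trans h1).trans e2.symm
    · intro x θ α t ε s ht hs0 hr hc hr2
      induction θ using QuotientAddGroup.induction_on with
      | H θ =>
        induction α using QuotientAddGroup.induction_on with
        | H α =>
          have hθ' : (((α + α - θ : ℝ) : Tor)) = ((α : Tor)) + (α : Tor) - (θ : Tor) := by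
            push_cast
            rfl
          have hexp : Complex.exp (((α + α - θ : ℝ) : ℂ) * Complex.I) =
              (e (α : Tor)) ^ 2 * (starRingEnd ℂ) (Complex.exp ((θ : ℂ) * Complex.I)) := by
            rw [← e_coe, ← e_coe, hθ', e_sub, e_add, pow_two]
          have h1 := hrfl x (e (α : Tor)) θ (α + α - θ) t ε s ht hc.1 hs0 (norm_e _)
            (fun r hr' => by
              have := hr r hr'
              rw [← e_coe]
              exact this)
            (by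
              rw [← e_coe]
              ext z
              simp only [mem_inter_iff, mem_setOf_eq]
              constructor
              · rintro ⟨hz1, hz2⟩
                exact ⟨(side_eq_zero_iff _ _ _).mp ((hc.2 z hz2).mp hz1), hz2⟩
              · rintro ⟨hz1, hz2⟩
                exact ⟨(hc.2 z hz2).mpr ((side_eq_zero_iff _ _ _).mpr hz1), hz2⟩)
            hexp
            (fun r hr' => by
              have := hr2 r hr'
              rw [← e_coe, ← e_coe, hθ']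
              exact this)
          rw [← e_coe, ← e_coe, hθ'] at h1
          have e1 := hFf x θ
          have e2 := hFf (x + t * e (θ : Tor) + s * e ((α : Tor) + (α : Tor) - (θ : Tor)))
            (α + α - θ)
          rw [hθ'] at e2
          exact (e1.trans h1).trans e2.symm
  have hbv' : ∀ r : ℝ, 0 < r → ∃ C : ℝ, BVd U V r C F := by
    intro r hr
    obtain ⟨C, hC⟩ := hbv r hr
    exact ⟨C, bvd_of hopen hf hFm hFf hC⟩
  obtain ⟨c, hc⟩ := main_tor hP hirr hFm hinv hbv'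
  exact ⟨c, ae_back hopen hFm hFf hc⟩

end Pool.H46.Bi
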