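import Pool.Agent.H46.Bi.Mdef

/-!
# [H46 BI GL1] the relation Rel on a connected open set (80-110 lines)

rel_mono: if Rel f x y with radius ρ then Rel f x' y' for x' ∈ ball x ρ, y' ∈ ball y ρ (smaller
balls; ae_restrict_of_ae_restrict_of_subset).
rel_symm: swap of the two first coordinates preserves the measure.
rel_trans: Rel f x y (radius ρ), Rel f y z (radius ρ'), r = min ρ ρ'. For almost every w ∈ ball y r:
for a.e. (x', θ) ∈ ball x r ×ˢ univ: f (x', θ) = f (w, θ), and for a.e. (z', θ) ∈ ball z r ×ˢ univ: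
f (w, θ) = f (z', θ) (Fubini: Measure.ae_ae_of_ae_prod after reordering the coordinates with
measure preserving maps). ball y r has positive measure, so there is such a w. Then for a.e.
(x', z', θ) both equalities hold (pull back under the projections (x', z', θ) ↦ (x', θ), (z', θ),
which are quasi measure preserving on bounded sets; simplest: for a.e. θ [∀ᵐ x', ...] and
[∀ᵐ z', ...], and measure_prod_null for the measurable bad set).
rel_connected: fix x ∈ O. A = {y ∈ O | Rel f x y} contains x; A is open and O \ A is open: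
for y ∈ O with radius ρ of Rel f y y and y' ∈ ball y ρ: Rel f y y' (rel_mono). By
rel_trans, rel_symm Rel f x y ↔ Rel f x y'. IsPreconnected.subset_left_of_subset_union or
isPreconnected_iff_subset_of_disjoint or the lemma IsPreconnected.induction₂ /
IsPreconnected.constant.
rel_global: the bad set B = {p | p.1.1 ∈ O, p.1.2 ∈ O, f (p.1.1, p.2) ≠ f (p.1.2, p.2)} is locally
null: every p ∈ B has the neighbourhood (ball p.1.1 ρ ×ˢ ball p.1.2 ρ) ×ˢ univ with null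
intersection with B (measure_null_of_locally_null / Measure.ae_restrict_iff').
-/

set_option autoImplicit false

open MeasureTheory Metric Set

namespace Pool.H46.Bi

theorem gl1_measurable {f : ℂ × Tor → ℝ} (hf : Measurable f) :
    MeasurableSet {p : (ℂ × ℂ) × Tor | f (p.1.1, p.2) = f (p.1.2, p.2)} := by
  refine measurableSet_eq_fun ?_ ?_
  · exact hf.comp (by fun_prop)
  · exact hf.comp (by fun_prop)

theorem gl1_measurable' {f : ℂ × Tor → ℝ} (hf : Measurable f) :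
    MeasurableSet {q : ℂ × ℂ | ∀ᵐ θ : Tor, f (q.1, θ) = f (q.2, θ)} := by
  have h1 := measurable_measure_prodMk_left (ν := (volume : Measure Tor))
    (gl1_measurable hf).compl
  have h2 := h1 (measurableSet_singleton (0 : ENNReal))
  exact h2

theorem gl1_iff {f : ℂ × Tor → ℝ} (hf : Measurable f) (A B : Set ℂ) :
    (∀ᵐ p : (ℂ × ℂ) × Tor ∂((volume : Measure ((ℂ × ℂ) × Tor)).restrict
      ((A ×ˢ B) ×ˢ univ)), f (p.1.1, p.2) = f (p.1.2, p.2)) ↔
    ∀ᵐ x ∂((volume : Measure ℂ).restrict A), ∀ᵐ y ∂((volume : Measure ℂ).restrict B),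
      ∀ᵐ θ : Tor, f (x, θ) = f (y, θ) := by
  have h1 : (volume : Measure ((ℂ × ℂ) × Tor)).restrict ((A ×ˢ B) ×ˢ univ)
      = (((volume : Measure ℂ).restrict A).prod ((volume : Measure ℂ).restrict B)).prod
        (volume : Measure Tor) := by
    rw [Measure.prod_restrict, ← Measure.restrict_univ (μ := (volume : Measure Tor)),
      Measure.prod_restrict]
    rfl
  rw [h1, Measure.ae_prod_iff_ae_ae (gl1_measurable hf),
    Measure.ae_prod_iff_ae_ae (gl1_measurable' hf)]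

theorem gl1_comm {f : ℂ × Tor → ℝ} (hf : Measurable f) (μ ν : Measure ℂ) [SFinite μ] [SFinite ν]
    (h : ∀ᵐ x ∂μ, ∀ᵐ y ∂ν, ∀ᵐ θ : Tor, f (x, θ) = f (y, θ)) :
    ∀ᵐ y ∂ν, ∀ᵐ x ∂μ, ∀ᵐ θ : Tor, f (y, θ) = f (x, θ) := by
  have h1 := (Measure.ae_ae_comm (μ := μ) (ν := ν)
    (p := fun x y => ∀ᵐ θ : Tor, f (x, θ) = f (y, θ)) (gl1_measurable' hf)).1 h
  filter_upwards [h1] with y hy
  filter_upwards [hy] with x hx
  filter_upwards [hx] with θ hθ
  exact hθ.symm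

theorem rel_mono {f : ℂ × Tor → ℝ} {x y x' y' : ℂ} {ρ : ℝ}
    (h : ∀ᵐ p : (ℂ × ℂ) × Tor ∂((volume : Measure ((ℂ × ℂ) × Tor)).restrict
    ((ball x ρ ×ˢ ball y ρ) ×ˢ univ)), f (p.1.1, p.2) = f (p.1.2, p.2))
    (hx : x' ∈ ball x ρ) (hy : y' ∈ ball y ρ) : Rel f x' y' := by
  obtain ⟨r1, hr1, h1⟩ := Metric.isOpen_iff.1 isOpen_ball x' hx
  obtain ⟨r2, hr2, h2⟩ := Metric.isOpen_iff.1 isOpen_ball y' hy
  refine ⟨min r1 r2, lt_min hr1 hr2, ?_⟩
  refine ae_restrict_of_ae_restrict_of_subset ?_ h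
  refine Set.prod_mono (Set.prod_mono ?_ ?_) Subset.rfl
  · exact (ball_subset_ball (min_le_left _ _)).trans h1
  · exact (ball_subset_ball (min_le_right _ _)).trans h2

theorem rel_symm {f : ℂ × Tor → ℝ} (hf : Measurable f) {x y : ℂ} (h : Rel f x y) :
    Rel f y x := by
  obtain ⟨ρ, hρ, h1⟩ := h
  refine ⟨ρ, hρ, ?_⟩
  rw [gl1_iff hf] at h1 ⊢
  exact gl1_comm hf _ _ h1

theorem gl1_trans {f : ℂ × Tor → ℝ} (μ ν κ : Measure ℂ) (hν : ν ≠ 0)
    (h : ∀ᵐ x ∂μ, ∀ᵐ y ∂ν, ∀ᵐ θ : Tor, f (x, θ) = f (y, θ))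
    (h' : ∀ᵐ y ∂ν, ∀ᵐ z ∂κ, ∀ᵐ θ : Tor, f (y, θ) = f (z, θ)) :
    ∀ᵐ x ∂μ, ∀ᵐ z ∂κ, ∀ᵐ θ : Tor, f (x, θ) = f (z, θ) := by
  have : (ae ν).NeBot := ae_neBot.2 hν
  filter_upwards [h] with x hx
  obtain ⟨y, hy1, hy2⟩ := (hx.and h').exists
  filter_upwards [hy2] with z hz
  filter_upwards [hy1, hz] with θ h1 h2
  exact h1.trans h2

theorem rel_trans {f : ℂ × Tor → ℝ} (hf : Measurable f) {x y z : ℂ} (h : Rel f x y)
    (h' : Rel f y z) : Rel f x z := by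
  obtain ⟨ρ, hρ, h1⟩ := h
  obtain ⟨ρ', hρ', h2⟩ := h'
  have hr : 0 < min ρ ρ' := lt_min hρ hρ'
  refine ⟨min ρ ρ', hr, ?_⟩
  have h3 : ∀ᵐ p : (ℂ × ℂ) × Tor ∂((volume : Measure ((ℂ × ℂ) × Tor)).restrict
      ((ball x (min ρ ρ') ×ˢ ball y (min ρ ρ')) ×ˢ univ)), f (p.1.1, p.2) = f (p.1.2, p.2) :=
    ae_restrict_of_ae_restrict_of_subset (Set.prod_mono (Set.prod_mono
      (ball_subset_ball (min_le_left _ _)) (ball_subset_ball (min_le_left _ _))) Subset.rfl) h1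
  have h4 : ∀ᵐ p : (ℂ × ℂ) × Tor ∂((volume : Measure ((ℂ × ℂ) × Tor)).restrict
      ((ball y (min ρ ρ') ×ˢ ball z (min ρ ρ')) ×ˢ univ)), f (p.1.1, p.2) = f (p.1.2, p.2) :=
    ae_restrict_of_ae_restrict_of_subset (Set.prod_mono (Set.prod_mono
      (ball_subset_ball (min_le_right _ _)) (ball_subset_ball (min_le_right _ _))) Subset.rfl) h2
  rw [gl1_iff hf] at h3 h4 ⊢
  refine gl1_trans _ _ _ ?_ h3 h4
  rw [Ne, Measure.restrict_eq_zero]
  exact (measure_ball_pos volume y hr).ne'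

theorem rel_connected {f : ℂ × Tor → ℝ} (hf : Measurable f) {O : Set ℂ} (hO : IsOpen O)
    (hc : IsPreconnected O) (h : ∀ x ∈ O, Rel f x x) : ∀ x ∈ O, ∀ y ∈ O, Rel f x y := by
  intro x hx y hy
  refine hc.induction₂ (Rel f) ?_ ?_ ?_ hx hy
  · intro z hz
    obtain ⟨ρ, hρ, h1⟩ := h z hz
    apply mem_nhdsWithin_of_mem_nhds
    filter_upwards [ball_mem_nhds z hρ] with w hw
    exact rel_mono h1 (mem_ball_self hρ) hw
  · intro a b c _ _ _ h1 h2
    exact rel_trans hf h1 h2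
  · intro a b _ _ h1
    exact rel_symm hf h1

theorem rel_global {f : ℂ × Tor → ℝ} (hf : Measurable f) {O : Set ℂ} (hO : IsOpen O)
    (h : ∀ x ∈ O, ∀ y ∈ O, Rel f x y) :
    ∀ᵐ p : (ℂ × ℂ) × Tor ∂((volume : Measure ((ℂ × ℂ) × Tor)).restrict
      ((O ×ˢ O) ×ˢ univ)), f (p.1.1, p.2) = f (p.1.2, p.2) := by
  have hm : MeasurableSet ((O ×ˢ O) ×ˢ (univ : Set Tor)) :=
    ((hO.measurableSet.prod hO.measurableSet).prod MeasurableSet.univ)
  rw [ae_restrict_iff' hm, ae_iff]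
  apply measure_null_of_locally_null
  intro p hp
  simp only [mem_setOf_eq, Classical.not_imp] at hp
  obtain ⟨⟨⟨h1, h2⟩, -⟩, h3⟩ := hp
  obtain ⟨ρ, hρ, h4⟩ := h _ h1 _ h2
  have hm' : MeasurableSet ((ball p.1.1 ρ ×ˢ ball p.1.2 ρ) ×ˢ (univ : Set Tor)) :=
    ((measurableSet_ball.prod measurableSet_ball).prod MeasurableSet.univ)
  rw [ae_restrict_iff' hm', ae_iff] at h4
  refine ⟨{q | q ∈ (ball p.1.1 ρ ×ˢ ball p.1.2 ρ) ×ˢ (univ : Set Tor) ∧
    ¬ f (q.1.1, q.2) = f (q.1.2, q.2)}, ?_, ?_⟩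
  · have hn : (ball p.1.1 ρ ×ˢ ball p.1.2 ρ) ×ˢ (univ : Set Tor) ∈ nhds p := by
      refine IsOpen.mem_nhds ((isOpen_ball.prod isOpen_ball).prod isOpen_univ) ?_
      exact ⟨⟨mem_ball_self hρ, mem_ball_self hρ⟩, mem_univ _⟩
    refine Filter.mem_of_superset (Filter.inter_mem (mem_nhdsWithin_of_mem_nhds hn)
      self_mem_nhdsWithin) ?_
    rintro q ⟨hq1, hq2⟩
    simp only [mem_setOf_eq, Classical.not_imp] at hq2
    exact ⟨hq1, hq2.2⟩
  · refine measure_mono_null ?_ h4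
    rintro q ⟨hq1, hq2⟩
    simp only [mem_setOf_eq, Classical.not_imp]
    exact ⟨hq1, hq2⟩

end Pool.H46.Bi
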