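import Pool.Agent.H46.Bi.Base

/-!
# Billiards in polygons: definitions for the estimates
-/

set_option autoImplicit false

open MeasureTheory Metric Set

namespace Pool.H46.Bi

/-- states in U at distance at least r from V -/
def Wset (U : Set ℂ) (V : Finset ℂ) (r : ℝ) : Set (ℂ × Tor) :=
  {q | q.1 ∈ U ∧ ∀ v ∈ V, r ≤ ‖q.1 - v‖}

/-- bounded variation in the direction, with constant C, at distance at least r from V -/
def BVd (U : Set ℂ) (V : Finset ℂ) (r C : ℝ) (f : ℂ × Tor → ℝ) : Prop :=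
  ∀ η : ℝ, |η| < 1 →
    ∫⁻ q in Wset U V r, ‖f (q.1, q.2 + (η : Tor)) - f q‖ₑ ≤ ENNReal.ofReal (C * |η|)

/-- the unit normal of the direction theta -/
noncomputable def nrm (θ : Tor) : ℂ := Complex.I * e θ

/-- the point x' with x' + T e(theta - eta) = x + T e(theta) -/
noncomputable def shp (T η : ℝ) (x : ℂ) (θ : Tor) : ℂ := x + T * (e θ - e (θ - (η : Tor)))

theorem shp_meet (T η : ℝ) (x : ℂ) (θ : Tor) :
    shp T η x θ + T * e (θ - (η : Tor)) = x + T * e θ := by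
  unfold shp
  ring

/-- the point x' is x + T sin(eta) n + T (1 - cos(eta)) e(theta) -/
theorem shp_eq (T η : ℝ) (x : ℂ) (θ : Tor) :
    shp T η x θ = (x + ((T * Real.sin η : ℝ) : ℂ) * nrm θ)
      + ((T * (1 - Real.cos η) : ℝ) : ℂ) * e θ := by
  unfold shp nrm
  have h : e (θ - (η : Tor)) = e θ * ((Real.cos η : ℝ) - (Real.sin η : ℝ) * Complex.I) := by
    rw [e_sub, e_coe, Complex.exp_mul_I]
    congr 1
    rw [map_add, map_mul, Complex.conj_I, ← Complex.ofReal_cos, ← Complex.ofReal_sin,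
      Complex.conj_ofReal, Complex.conj_ofReal]
    ring
  rw [h]
  push_cast
  ring

/-- the conditions under which a state and its shift by eta meet at time T -/
def Conds (U : Set ℂ) (V : Finset ℂ) (r T η : ℝ) (q : ℂ × Tor) : Prop :=
  (∃ g, Reach U T g q.1 q.2 ∧ Reach U T g (shp T η q.1 q.2) (q.2 - (η : Tor)) ∧
    ∀ v ∈ V, r ≤ ‖g.act (q.1 + T * e q.2) - v‖) ∧
  (shp T η q.1 q.2 ∈ U ∧ ∀ v ∈ V, r ≤ ‖shp T η q.1 q.2 - v‖) ∧
  ∀ z ∈ segment ℝ (q.1 + ((T * Real.sin η : ℝ) : ℂ) * nrm q.2) (shp T η q.1 q.2), z ∈ U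

/-- f is almost everywhere the same function of the direction near x and near y -/
def Rel (f : ℂ × Tor → ℝ) (x y : ℂ) : Prop :=
  ∃ ρ : ℝ, 0 < ρ ∧ ∀ᵐ p : (ℂ × ℂ) × Tor ∂((volume : Measure ((ℂ × ℂ) × Tor)).restrict
    ((ball x ρ ×ˢ ball y ρ) ×ˢ univ)), f (p.1.1, p.2) = f (p.1.2, p.2)

end Pool.H46.Bi
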