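import Pool.Agent.H46.Bi.Es2

/-!
# [H46 BI STE] invariance under normal shifts (80-120 lines)

shift_ae. Let K' = cthickening D K (compact; inside U, no point of V: a point z of K' has some x ∈ K
with ‖z - x‖ ≤ D by compactness, IsCompact.cthickening_eq_biUnion_closedBall). Let J be compact,
disjoint from Thet U, C from est_main for K', J. For T ≥ 1 take δ0, then N ≥ 1 with
δ = D/N < δ0. For k < N the map Mk (x, θ) = (x + k δ nrm θ, θ) preserves the measure (translation
depending on θ) and sends K ×ˢ J into K' ×ˢ J (‖k δ nrm θ‖ ≤ D). So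
∫ over K ×ˢ J of ‖f (x + (k+1) δ nrm θ, θ) - f (x + k δ nrm θ, θ)‖ₑ ≤ ∫ over K' ×ˢ J of
‖f (x + δ nrm θ, θ) - f (x, θ)‖ₑ ≤ ofReal (C δ/T). Summing over k < N (triangle inequality,
telescoping: induction on the number of steps) the integral over K ×ˢ J of
‖f (x + D nrm θ, θ) - f (x, θ)‖ₑ is at most N ofReal (C δ/T) ≤ ofReal (|C| D/T). T → ∞: it is 0, so
f (x + D nrm θ, θ) = f (x, θ) a.e. on K ×ˢ J (lintegral_eq_zero_iff, enorm_eq_zero, sub_eq_zero).
Finally Thet U is countable, hence null: for every n there is an open O ⊇ Thet U with volume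
< 1/(n+1) (Set.exists_isOpen_lt_of_lt), J n = Oᶜ compact; the complement of the union of the J n is
null; so the equality holds a.e. on K ×ˢ univ (the bad set in K ×ˢ univ is contained in the
union of the bad sets in K ×ˢ J n and of K ×ˢ (null set)).
-/

set_option autoImplicit false

open MeasureTheory Metric Set

namespace Pool.H46.Bi

theorem ste_nrm_measurable : Measurable nrm := measurable_const.mul e_measurable

theorem ste_norm_nrm (θ : Tor) : ‖nrm θ‖ = 1 := by
  unfold nrm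
  rw [norm_mul, norm_e, Complex.norm_I, mul_one]

theorem ste_meas (c : ℂ) : Measurable fun q : ℂ × Tor => (q.1 + c * nrm q.2, q.2) :=
  (measurable_fst.add (measurable_const.mul (ste_nrm_measurable.comp measurable_snd))).prodMk
    measurable_snd

/-- translation along a multiple of the normal -/
theorem ste_mp (c : ℂ) : MeasurePreserving (fun q : ℂ × Tor => (q.1 + c * nrm q.2, q.2))
    volume volume := by
  have h1 : MeasurePreserving (Prod.swap : ℂ × Tor → Tor × ℂ) volume volume :=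
    Measure.measurePreserving_swap
  have h2 : MeasurePreserving (fun q : Tor × ℂ => ((id q.1 : Tor), q.2 + c * nrm q.1))
      ((volume : Measure Tor).prod volume) ((volume : Measure Tor).prod volume) := by
    refine (MeasurePreserving.id (volume : Measure Tor)).skew_product
      (g := fun (θ : Tor) (x : ℂ) => x + c * nrm θ) ?_ ?_
    · exact measurable_snd.add (measurable_const.mul (ste_nrm_measurable.comp measurable_fst))
    · refine Filter.Eventually.of_forall fun θ => ?_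
      exact (measurePreserving_add_right volume (c * nrm θ)).map_eq
  have h3 : MeasurePreserving (Prod.swap : Tor × ℂ → ℂ × Tor) volume volume :=
    Measure.measurePreserving_swap
  exact h3.comp (h2.comp h1)

theorem ste_step {U : Set ℂ} (hP : Poly U) {f : ℂ × Tor → ℝ} (hf : Measurable f)
    (hinv : Inv U f) {V : Finset ℂ} (hbv : ∀ r : ℝ, 0 < r → ∃ C : ℝ, BVd U V r C f)
    {K : Set ℂ} (hK : IsCompact K) {D : ℝ} (hD : 0 < D)
    (hKU : ∀ x ∈ K, ∀ z : ℂ, ‖z - x‖ ≤ D → z ∈ U ∧ z ∉ V)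
    {J : Set Tor} (hJ : IsCompact J) (hJT : ∀ θ ∈ J, θ ∉ Thet U) :
    ∀ᵐ q : ℂ × Tor ∂((volume : Measure (ℂ × Tor)).restrict (K ×ˢ J)),
      f (q.1 + (D : ℂ) * nrm q.2, q.2) = f q := by
  set K' : Set ℂ := cthickening D K with hK'
  have hK'c : IsCompact K' := hK.cthickening
  have hK'm : ∀ z ∈ K', z ∈ U ∧ z ∉ V := by
    intro z hz
    rw [hK', hK.cthickening_eq_biUnion_closedBall hD.le] at hz
    simp only [mem_iUnion, mem_closedBall, dist_eq_norm] at hz
    obtain ⟨x, hx, hzx⟩ := hz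
    exact hKU x hx z hzx
  obtain ⟨C, hC⟩ := est_main hP hf hinv hbv hK'c (fun z hz => (hK'm z hz).1)
    (fun v hv hvK => (hK'm v hvK).2 hv) hJ hJT
  have hm : ∀ c : ℂ, Measurable fun q : ℂ × Tor => f (q.1 + c * nrm q.2, q.2) :=
    fun c => hf.comp (ste_meas c)
  have hKJ : MeasurableSet (K ×ˢ J) := hK.measurableSet.prod hJ.measurableSet
  have hK'J : MeasurableSet (K' ×ˢ J) := hK'c.measurableSet.prod hJ.measurableSet
  have hbound : ∀ T : ℝ, 1 ≤ T →
      ∫⁻ q in K ×ˢ J, ‖f (q.1 + (D : ℂ) * nrm q.2, q.2) - f q‖ₑ ≤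
        ENNReal.ofReal (C * D / T) := by
    intro T hT
    obtain ⟨δ0, hδ0, hest⟩ := hC T hT
    obtain ⟨N, hN⟩ := exists_nat_gt (D / δ0)
    have hNpos : (0 : ℝ) < N := lt_of_le_of_lt (by positivity) hN
    set δ : ℝ := D / N with hδ
    have hδpos : 0 < δ := div_pos hD hNpos
    have hδlt : δ < δ0 := by
      rw [hδ, div_lt_iff₀ hNpos]
      rw [div_lt_iff₀ hδ0] at hN
      linarith
    have h1 := hest δ ⟨hδpos, hδlt⟩
    set g : ℂ × Tor → ENNReal := fun q => ‖f (q.1 + (δ : ℂ) * nrm q.2, q.2) - f q‖ₑ with hg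
    have hgm : Measurable g := ((hm δ).sub hf).enorm
    have hstep : ∀ k : ℕ, k < N →
        ∫⁻ q in K ×ˢ J, ‖f (q.1 + (((k + 1 : ℕ) : ℂ) * δ) * nrm q.2, q.2) -
          f (q.1 + (((k : ℕ) : ℂ) * δ) * nrm q.2, q.2)‖ₑ ≤ ENNReal.ofReal (C * δ / T) := by
      intro k hk
      have hmp := ste_mp (((k : ℕ) : ℂ) * δ)
      have hsub : K ×ˢ J ⊆ (fun q : ℂ × Tor => (q.1 + (((k : ℕ) : ℂ) * δ) * nrm q.2, q.2)) ⁻¹'
          (K' ×ˢ J) := by
        rintro ⟨x, θ⟩ ⟨hx, hθ⟩
        refine ⟨?_, hθ⟩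
        show x + (((k : ℕ) : ℂ) * δ) * nrm θ ∈ K'
        rw [hK', hK.cthickening_eq_biUnion_closedBall hD.le]
        simp only [mem_iUnion, mem_closedBall, dist_eq_norm]
        refine ⟨x, hx, ?_⟩
        have h2 : x + (((k : ℕ) : ℂ) * δ) * nrm θ - x = (((k * δ : ℝ)) : ℂ) * nrm θ := by
          push_cast
          ring
        rw [h2, norm_mul, ste_norm_nrm, mul_one, Complex.norm_real, Real.norm_eq_abs,
          abs_of_nonneg (by positivity)]
        have h3 : (k : ℝ) ≤ N := by exact_mod_cast hk.le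
        calc (k : ℝ) * δ ≤ N * δ := mul_le_mul_of_nonneg_right h3 hδpos.le
          _ = D := by rw [hδ]; field_simp
      calc ∫⁻ q in K ×ˢ J, ‖f (q.1 + (((k + 1 : ℕ) : ℂ) * δ) * nrm q.2, q.2) -
            f (q.1 + (((k : ℕ) : ℂ) * δ) * nrm q.2, q.2)‖ₑ
          = ∫⁻ q in K ×ˢ J, g (q.1 + (((k : ℕ) : ℂ) * δ) * nrm q.2, q.2) := by
            refine lintegral_congr fun q => ?_
            rw [hg]
            have h4 : q.1 + (((k + 1 : ℕ) : ℂ) * δ) * nrm q.2 =
                q.1 + (((k : ℕ) : ℂ) * δ) * nrm q.2 + (δ : ℂ) * nrm q.2 := by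
              push_cast
              ring
            rw [h4]
        _ ≤ ∫⁻ q in (fun q : ℂ × Tor => (q.1 + (((k : ℕ) : ℂ) * δ) * nrm q.2, q.2)) ⁻¹'
              (K' ×ˢ J), g (q.1 + (((k : ℕ) : ℂ) * δ) * nrm q.2, q.2) :=
            lintegral_mono_set hsub
        _ = ∫⁻ q in K' ×ˢ J, g q := hmp.setLIntegral_comp_preimage hK'J hgm
        _ ≤ ENNReal.ofReal (C * δ / T) := h1
    have hsum : ∀ n : ℕ, n ≤ N →
        ∫⁻ q in K ×ˢ J, ‖f (q.1 + (((n : ℕ) : ℂ) * δ) * nrm q.2, q.2) - f q‖ₑ ≤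
          n * ENNReal.ofReal (C * δ / T) := by
      intro n
      induction n with
      | zero =>
        intro _
        simp
      | succ n ih =>
        intro hn
        have h5 := ih (by omega)
        have h6 := hstep n (by omega)
        calc ∫⁻ q in K ×ˢ J, ‖f (q.1 + (((n + 1 : ℕ) : ℂ) * δ) * nrm q.2, q.2) - f q‖ₑ
            ≤ ∫⁻ q in K ×ˢ J, (‖f (q.1 + (((n + 1 : ℕ) : ℂ) * δ) * nrm q.2, q.2) -
              f (q.1 + (((n : ℕ) : ℂ) * δ) * nrm q.2, q.2)‖ₑ +
              ‖f (q.1 + (((n : ℕ) : ℂ) * δ) * nrm q.2, q.2) - f q‖ₑ) := by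
              refine lintegral_mono fun q => ?_
              have h7 : f (q.1 + (((n + 1 : ℕ) : ℂ) * δ) * nrm q.2, q.2) - f q =
                  (f (q.1 + (((n + 1 : ℕ) : ℂ) * δ) * nrm q.2, q.2) -
                  f (q.1 + (((n : ℕ) : ℂ) * δ) * nrm q.2, q.2)) +
                  (f (q.1 + (((n : ℕ) : ℂ) * δ) * nrm q.2, q.2) - f q) := by ring
              show ‖f (q.1 + (((n + 1 : ℕ) : ℂ) * δ) * nrm q.2, q.2) - f q‖ₑ ≤ _
              rw [h7]
              exact enorm_add_le _ _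
          _ = _ := lintegral_add_left (((hm _).sub (hm _)).enorm) _
          _ ≤ ENNReal.ofReal (C * δ / T) + n * ENNReal.ofReal (C * δ / T) := add_le_add h6 h5
          _ = ((n + 1 : ℕ) : ENNReal) * ENNReal.ofReal (C * δ / T) := by
              push_cast
              ring
    have h8 := hsum N le_rfl
    have h9 : ((N : ℕ) : ℂ) * (δ : ℂ) = (D : ℂ) := by
      rw [hδ]
      push_cast
      have : (N : ℂ) ≠ 0 := by exact_mod_cast hNpos.ne'
      field_simp
    rw [h9] at h8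
    refine h8.trans (le_of_eq ?_)
    rw [← ENNReal.ofReal_natCast, ← ENNReal.ofReal_mul hNpos.le]
    congr 1
    rw [hδ]
    field_simp
  have hzero : ∫⁻ q in K ×ˢ J, ‖f (q.1 + (D : ℂ) * nrm q.2, q.2) - f q‖ₑ = 0 := by
    refine le_antisymm ?_ (zero_le)
    have ht : Filter.Tendsto (fun n : ℕ => ENNReal.ofReal (C * D / (n : ℝ))) Filter.atTop
        (nhds 0) := by
      have h1 := tendsto_const_div_atTop_nhds_zero_nat (C * D)
      have h2 := (ENNReal.continuous_ofReal.tendsto 0).comp h1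
      simpa [Function.comp_def] using h2
    refine ge_of_tendsto ht ?_
    filter_upwards [Filter.eventually_ge_atTop 1] with n hn
    exact hbound n (by exact_mod_cast hn)
  have hmm : Measurable fun q : ℂ × Tor => ‖f (q.1 + (D : ℂ) * nrm q.2, q.2) - f q‖ₑ :=
    ((hm _).sub hf).enorm
  rw [lintegral_eq_zero_iff hmm] at hzero
  filter_upwards [hzero] with q hq
  have : ‖f (q.1 + (D : ℂ) * nrm q.2, q.2) - f q‖ₑ = 0 := hq
  rw [enorm_eq_zero, sub_eq_zero] at this
  exact this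

theorem shift_ae {U : Set ℂ} (hP : Poly U) {f : ℂ × Tor → ℝ} (hf : Measurable f)
    (hinv : Inv U f) {V : Finset ℂ} (hbv : ∀ r : ℝ, 0 < r → ∃ C : ℝ, BVd U V r C f)
    {K : Set ℂ} (hK : IsCompact K) {D : ℝ} (hD : 0 < D)
    (hKU : ∀ x ∈ K, ∀ z : ℂ, ‖z - x‖ ≤ D → z ∈ U ∧ z ∉ V) :
    ∀ᵐ q : ℂ × Tor ∂((volume : Measure (ℂ × Tor)).restrict (K ×ˢ univ)),
      f (q.1 + (D : ℂ) * nrm q.2, q.2) = f q := by
  have hsing : ∀ x : Tor, (volume : Measure Tor) {x} = 0 := by
    intro x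
    have h1 := AddCircle.volume_closedBall (2 * Real.pi) (x := x) 0
    rw [closedBall_zero, mul_zero, min_eq_right (by positivity), ENNReal.ofReal_zero] at h1
    exact h1
  have hnull : (volume : Measure Tor) (Thet U) = 0 := by
    rw [← biUnion_of_singleton (Thet U)]
    exact (measure_biUnion_null_iff (thet_countable hP)).mpr fun x _ => hsing x
  have hO : ∀ n : ℕ, ∃ O : Set Tor, Thet U ⊆ O ∧ IsOpen O ∧
      (volume : Measure Tor) O < ENNReal.ofReal (1 / (n + 1 : ℝ)) := by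
    intro n
    have h1 : (volume : Measure Tor) (Thet U) < ENNReal.ofReal (1 / (n + 1 : ℝ)) := by
      rw [hnull]
      exact ENNReal.ofReal_pos.mpr (by positivity)
    obtain ⟨O, hO1, hO2, hO3⟩ := (Thet U).exists_isOpen_lt_of_lt _ h1
    exact ⟨O, hO1, hO2, hO3⟩
  choose O hO1 hO2 hO3 using hO
  have hinter : (volume : Measure Tor) (⋂ n, O n) = 0 := by
    refine le_antisymm ?_ (zero_le)
    have ht : Filter.Tendsto (fun n : ℕ => ENNReal.ofReal (1 / (n + 1 : ℝ))) Filter.atTop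
        (nhds 0) := by
      have h1 := tendsto_one_div_add_atTop_nhds_zero_nat (𝕜 := ℝ)
      have h2 := (ENNReal.continuous_ofReal.tendsto 0).comp h1
      simpa [Function.comp_def] using h2
    refine ge_of_tendsto' ht fun n => ?_
    exact (measure_mono (iInter_subset _ n)).trans (hO3 n).le
  have hall : ∀ n : ℕ, ∀ᵐ q : ℂ × Tor ∂(volume : Measure (ℂ × Tor)), q ∈ K ×ˢ (O n)ᶜ →
      f (q.1 + (D : ℂ) * nrm q.2, q.2) = f q := by
    intro n
    have hJc : IsCompact (O n)ᶜ := (hO2 n).isClosed_compl.isCompact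
    have h1 := ste_step hP hf hinv hbv hK hD hKU hJc (fun θ hθ hT => hθ (hO1 n hT))
    rwa [ae_restrict_iff' (hK.measurableSet.prod hJc.measurableSet)] at h1
  have hae : ∀ᵐ q : ℂ × Tor ∂(volume : Measure (ℂ × Tor)), q.2 ∉ ⋂ n, O n := by
    have h1 : ∀ᵐ θ : Tor ∂(volume : Measure Tor), θ ∉ ⋂ n, O n :=
      measure_eq_zero_iff_ae_notMem.mp hinter
    exact (Measure.quasiMeasurePreserving_snd (μ := (volume : Measure ℂ))
      (ν := (volume : Measure Tor))).ae h1
  rw [ae_restrict_iff' (hK.measurableSet.prod MeasurableSet.univ)]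
  filter_upwards [ae_all_iff.mpr hall, hae] with q hq hq2 hqK
  rw [mem_iInter, not_forall] at hq2
  obtain ⟨n, hn⟩ := hq2
  exact hq n ⟨hqK.1, hn⟩

end Pool.H46.Bi
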